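import Pool.Agent.Helper98.Gn.SwD

/-! Asymptotics I: few isolated vertices. -/

namespace Pool.Agent.Helper98.Gn

open SimpleGraph Filter Topology

open Classical in
/-- `B` holds for a vanishing proportion of the class. -/
def Rare (g : ℕ) (m : ℕ → ℕ) (B : (n : ℕ) → SimpleGraph (Fin n) → Prop) : Prop :=
  ∀ ε : ℝ, 0 < ε → ∀ᶠ n : ℕ in atTop,
    (((ClF (Fin n) g (m n)).filter (B n)).card : ℝ) ≤ ε * ((ClF (Fin n) g (m n)).card : ℝ)

theorem Rare.mono {g : ℕ} {m : ℕ → ℕ} {B B' : (n : ℕ) → SimpleGraph (Fin n) → Prop}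
    (h : Rare g m B) (h' : ∀ᶠ n : ℕ in atTop, ∀ G ∈ ClF (Fin n) g (m n), B' n G → B n G) :
    Rare g m B' := by
  classical
  intro ε hε
  filter_upwards [h ε hε, h'] with n h1 h2
  refine le_trans ?_ h1
  have : (ClF (Fin n) g (m n)).filter (B' n) ⊆ (ClF (Fin n) g (m n)).filter (B n) := by
    intro G hG
    rw [Finset.mem_filter] at hG ⊢
    exact ⟨hG.1, h2 G hG.1 hG.2⟩
  exact_mod_cast Finset.card_le_card this

theorem Rare.or {g : ℕ} {m : ℕ → ℕ} {B B' : (n : ℕ) → SimpleGraph (Fin n) → Prop}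
    (h : Rare g m B) (h' : Rare g m B') : Rare g m (fun n G => B n G ∨ B' n G) := by
  classical
  intro ε hε
  filter_upwards [h (ε / 2) (by linarith), h' (ε / 2) (by linarith)] with n h1 h2
  have h3 : ((ClF (Fin n) g (m n)).filter (fun G => B n G ∨ B' n G)).card ≤
      ((ClF (Fin n) g (m n)).filter (B n)).card + ((ClF (Fin n) g (m n)).filter (B' n)).card := by
    rw [Finset.filter_or]
    exact Finset.card_union_le _ _
  have h4 : (((ClF (Fin n) g (m n)).filter (fun G => B n G ∨ B' n G)).card : ℝ) ≤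
      ((ClF (Fin n) g (m n)).filter (B n)).card + ((ClF (Fin n) g (m n)).filter (B' n)).card := by
    exact_mod_cast h3
  have h5 : (((ClF (Fin n) g (m n)).filter (fun G => B n G ∨ B' n G)).card : ℝ) ≤
      ε * ((ClF (Fin n) g (m n)).card : ℝ) := by linarith
  convert h5

theorem poly_le (g : ℕ) : ∀ᶠ n : ℕ in atTop, (3 * n + 1) * (1 + (7 * n) ^ 4) ^ g ≤ 2 ^ n := by
  have h1 := tendsto_pow_const_div_const_pow_of_one_lt (4 * g + 1) (r := (2 : ℝ)) (by norm_num)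
  have h2 : (0 : ℝ) < 1 / 8 ^ (4 * g + 1) := by positivity
  filter_upwards [h1.eventually (gt_mem_nhds h2), eventually_ge_atTop 1] with n h3 h4
  rw [div_lt_div_iff₀ (by positivity) (by positivity)] at h3
  have h5 : n ^ (4 * g + 1) * 8 ^ (4 * g + 1) < 1 * 2 ^ n := by exact_mod_cast h3
  have h6 : 3 * n + 1 ≤ 8 * n := by omega
  have h7 : 1 + (7 * n) ^ 4 ≤ (8 * n) ^ 4 := by
    have h8 : 1 ≤ n ^ 4 := Nat.one_le_pow _ _ (by omega)
    have e1 : (7 * n) ^ 4 = 2401 * n ^ 4 := by ring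
    have e2 : (8 * n) ^ 4 = 4096 * n ^ 4 := by ring
    rw [e1, e2]
    omega
  calc (3 * n + 1) * (1 + (7 * n) ^ 4) ^ g ≤ (8 * n) * ((8 * n) ^ 4) ^ g :=
        Nat.mul_le_mul h6 (Nat.pow_le_pow_left h7 g)
    _ = n ^ (4 * g + 1) * 8 ^ (4 * g + 1) := by
        rw [← pow_mul, mul_comm (8 * n), ← pow_succ, mul_pow, mul_comm]
    _ ≤ 2 ^ n := by omega

theorem Bd_le (g : ℕ) : ∀ᶠ n : ℕ in atTop, 2 ^ n * Bd g n ≤ (32 * 3 ^ 14) ^ n := by
  filter_upwards [poly_le g] with n hn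
  unfold Bd
  calc 2 ^ n * ((3 * n + 1) * (2 ^ (3 * n) * (3 ^ (7 * n) * (3 ^ (7 * n) *
        (1 + (7 * n) ^ 4) ^ g))))
      = 2 ^ n * (2 ^ (3 * n) * (3 ^ (7 * n) * 3 ^ (7 * n))) *
        ((3 * n + 1) * (1 + (7 * n) ^ 4) ^ g) := by ring
    _ ≤ 2 ^ n * (2 ^ (3 * n) * (3 ^ (7 * n) * 3 ^ (7 * n))) * 2 ^ n :=
        Nat.mul_le_mul_left _ hn
    _ = (32 * 3 ^ 14) ^ n := by
        rw [← pow_add, show 7 * n + 7 * n = 14 * n by ring, pow_mul, pow_mul, ← mul_pow,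
          ← mul_pow, ← mul_pow]
        norm_num

/-- `m n` is asymptotic to `n` -/
def Crit (m : ℕ → ℕ) : Prop := Tendsto (fun n : ℕ => (m n : ℝ) / n) atTop (𝓝 1)

theorem Crit.bound {m : ℕ → ℕ} (hm : Crit m) {δ : ℝ} (hδ : 0 < δ) :
    ∀ᶠ n : ℕ in atTop, |(m n : ℝ) - n| ≤ δ * n := by
  have h1 := (Metric.tendsto_nhds.1 hm) δ hδ
  filter_upwards [h1, eventually_gt_atTop 0] with n h2 h3
  have hn : (0 : ℝ) < n := by exact_mod_cast h3
  rw [Real.dist_eq] at h2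
  have h4 : (m n : ℝ) - n = ((m n : ℝ) / n - 1) * n := by
    field_simp
  rw [h4, abs_mul, abs_of_pos hn]
  exact mul_le_mul_of_nonneg_right h2.le hn.le

theorem Crit.lower {m : ℕ → ℕ} (hm : Crit m) (g : ℕ) {δ : ℝ} (hδ : 0 < δ) (hδ1 : δ < 1) :
    ∀ᶠ n : ℕ in atTop, ∃ K : ℕ, (K : ℝ) ≤ δ * n ∧ K ≤ n ∧
      (n - K).factorial ≤ (ClF (Fin n) g (m n)).card := by
  filter_upwards [hm.bound (δ := δ / 4) (by linarith),
    eventually_ge_atTop (⌈(3 : ℝ) / (δ / 2)⌉₊)] with n h1 h2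
  have h3 : (3 : ℝ) ≤ δ / 2 * n := by
    have h4 : (3 : ℝ) / (δ / 2) ≤ n := (Nat.le_ceil _).trans (by exact_mod_cast h2)
    rw [div_le_iff₀ (by linarith)] at h4
    linarith
  have h1a := abs_le.1 h1
  have hn0 : (0 : ℝ) ≤ n := Nat.cast_nonneg n
  -- the gap
  obtain ⟨t, ht⟩ : ∃ t : ℕ, t = (m n - n) + (n - m n) + 1 := ⟨_, rfl⟩
  have ht1 : ((m n - n : ℕ) : ℝ) + ((n - m n : ℕ) : ℝ) ≤ δ / 4 * n := by
    rcases le_total (m n) n with h | h
    · rw [Nat.sub_eq_zero_of_le h, Nat.cast_sub h]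
      push_cast
      linarith
    · rw [Nat.sub_eq_zero_of_le h, Nat.cast_sub h]
      push_cast
      linarith
  have ht2 : ((2 * t + 1 : ℕ) : ℝ) ≤ δ * n := by
    rw [ht]
    push_cast
    linarith
  have ht3 : 2 * t + 1 ≤ n := by
    have : ((2 * t + 1 : ℕ) : ℝ) ≤ n := ht2.trans (by nlinarith)
    exact_mod_cast this
  refine ⟨2 * t + 1, ht2, ht3, ?_⟩
  have h5 := class_lower (g := g) (n := n) (m := m n) (t := t) ht3 (by omega) (by omega)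
  refine h5.trans (le_of_eq ?_)
  unfold Cl ClF
  rw [← Set.ncard_eq_toFinset_card]

theorem iso_rare_aux {m : ℕ → ℕ} (hm : Crit m) (g : ℕ) {ε : ℝ} (hε : 0 < ε) (hε1 : ε < 1 / 4) :
    ∀ᶠ n : ℕ in atTop,
      (2 : ℝ) ^ n * ({G : SimpleGraph (Fin n) | G.edgeSet.ncard = m n ∧ Emb g G ∧
        ⌈ε * n⌉₊ ≤ iso G}.ncard : ℝ) ≤ ((ClF (Fin n) g (m n)).card : ℝ) := by
  obtain ⟨M, hM⟩ : ∃ M : ℕ, (2 * (32 * 3 ^ 14) : ℝ) ≤ (M : ℝ) ^ (ε / 2) ∧ 1 ≤ M := by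
    refine ⟨⌈((2 * (32 * 3 ^ 14) : ℝ)) ^ (2 / ε)⌉₊, ?_, ?_⟩
    · have h1 : ((2 * (32 * 3 ^ 14) : ℝ)) ^ (2 / ε) ≤ (⌈((2 * (32 * 3 ^ 14) : ℝ)) ^ (2 / ε)⌉₊ : ℝ) :=
        Nat.le_ceil _
      calc (2 * (32 * 3 ^ 14) : ℝ) = (((2 * (32 * 3 ^ 14) : ℝ)) ^ (2 / ε)) ^ (ε / 2) := by
            rw [← Real.rpow_mul (by norm_num)]
            rw [show 2 / ε * (ε / 2) = 1 by field_simp]
            rw [Real.rpow_one]
        _ ≤ _ := Real.rpow_le_rpow (by positivity) h1 (by linarith)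
    · rw [Nat.one_le_ceil_iff]
      positivity
  filter_upwards [hm.lower g (δ := ε / 2) (by linarith) (by linarith), hm.bound (δ := 1) one_pos,
    Bd_le g, eventually_ge_atTop (4 * M + 4)] with n h1 h2 h3 h4
  obtain ⟨K, hK1, hK2, hK3⟩ := h1
  have hn0 : (0 : ℝ) ≤ n := Nat.cast_nonneg n
  have hn1 : (1 : ℝ) ≤ n := by
    have : 1 ≤ n := by omega
    exact_mod_cast this
  have h2a := abs_le.1 h2
  have hm2 : m n ≤ 2 * n := by
    have : (m n : ℝ) ≤ 2 * n := by linarith [h2a.2]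
    exact_mod_cast this
  set i := ⌈ε * (n : ℝ)⌉₊ with hi
  have hi1 : ε * n ≤ i := Nat.le_ceil _
  have hi2 : (i : ℝ) < ε * n + 1 := Nat.ceil_lt_add_one (by positivity)
  have hKi : K ≤ i := by
    have : (K : ℝ) ≤ i := hK1.trans (le_trans (by nlinarith) hi1)
    exact_mod_cast this
  have hin : 2 * i ≤ n := by
    have h5 : (4 : ℝ) ≤ n := by
      have : 4 ≤ n := by omega
      exact_mod_cast this
    have : (2 * i : ℝ) ≤ n := by nlinarith
    exact_mod_cast this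
  have hup := iso_count (V := Fin n) (g := g) (m := m n) (n := n) (by simp) hm2 i
  have hfac : (n - i).factorial * (n - i) ^ ((n - K) - (n - i)) ≤ (n - K).factorial :=
    Nat.factorial_mul_pow_sub_le_factorial (by omega)
  have he : (n - K) - (n - i) = i - K := by omega
  rw [he] at hfac
  have hMn : M ≤ n - i := by omega
  have hpow : (2 * (32 * 3 ^ 14) : ℝ) ^ n ≤ ((n - i : ℕ) : ℝ) ^ (i - K) := by
    have h6 : (M : ℝ) ≤ ((n - i : ℕ) : ℝ) := by exact_mod_cast hMn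
    have hM1 : (1 : ℝ) ≤ M := by exact_mod_cast hM.2
    have h7 : ε / 2 * n ≤ ((i - K : ℕ) : ℝ) := by
      rw [Nat.cast_sub hKi]
      linarith
    calc (2 * (32 * 3 ^ 14) : ℝ) ^ n ≤ ((M : ℝ) ^ (ε / 2)) ^ n :=
          pow_le_pow_left₀ (by norm_num) hM.1 n
      _ = (M : ℝ) ^ (ε / 2 * n) := by
          rw [Real.rpow_mul (by positivity), Real.rpow_natCast]
      _ ≤ (M : ℝ) ^ ((i - K : ℕ) : ℝ) := Real.rpow_le_rpow_of_exponent_le hM1 h7
      _ = (M : ℝ) ^ (i - K) := Real.rpow_natCast _ _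
      _ ≤ _ := pow_le_pow_left₀ (by positivity) h6 _
  have h3' : (2 : ℝ) ^ n * (Bd g n : ℝ) ≤ ((32 * 3 ^ 14 : ℕ) : ℝ) ^ n := by exact_mod_cast h3
  have hup' : ({G : SimpleGraph (Fin n) | G.edgeSet.ncard = m n ∧ Emb g G ∧
        i ≤ iso G}.ncard : ℝ) ≤ 2 ^ n * ((Bd g n : ℝ) * ((n - i).factorial : ℝ)) := by
    exact_mod_cast hup
  have hfac' : ((n - i).factorial : ℝ) * ((n - i : ℕ) : ℝ) ^ (i - K) ≤
      ((n - K).factorial : ℝ) := by exact_mod_cast hfac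
  have hf0 : (0 : ℝ) ≤ ((n - i).factorial : ℝ) := Nat.cast_nonneg _
  calc (2 : ℝ) ^ n * _ ≤ 2 ^ n * (2 ^ n * ((Bd g n : ℝ) * ((n - i).factorial : ℝ))) :=
        mul_le_mul_of_nonneg_left hup' (by positivity)
    _ = ((n - i).factorial : ℝ) * (2 ^ n * (2 ^ n * (Bd g n : ℝ))) := by ring
    _ ≤ ((n - i).factorial : ℝ) * (2 ^ n * ((32 * 3 ^ 14 : ℕ) : ℝ) ^ n) :=
        mul_le_mul_of_nonneg_left (mul_le_mul_of_nonneg_left h3' (by positivity)) hf0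
    _ = ((n - i).factorial : ℝ) * (2 * (32 * 3 ^ 14) : ℝ) ^ n := by
        rw [← mul_pow]
        norm_num
    _ ≤ ((n - i).factorial : ℝ) * ((n - i : ℕ) : ℝ) ^ (i - K) :=
        mul_le_mul_of_nonneg_left hpow hf0
    _ ≤ ((n - K).factorial : ℝ) := hfac'
    _ ≤ _ := by exact_mod_cast hK3

theorem iso_rare {m : ℕ → ℕ} (hm : Crit m) (g : ℕ) {ε : ℝ} (hε : 0 < ε) :
    Rare g m (fun n G => ε * n ≤ iso G) := by
  classical
  set ε' := min ε (1 / 5) with hε'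
  have hp : 0 < ε' := lt_min hε (by norm_num)
  have h1 : ε' < 1 / 4 := lt_of_le_of_lt (min_le_right _ _) (by norm_num)
  intro δ hδ
  have h2 : ∀ᶠ n : ℕ in atTop, (1 / δ : ℝ) ≤ 2 ^ n :=
    (tendsto_pow_atTop_atTop_of_one_lt (by norm_num : (1 : ℝ) < 2)).eventually_ge_atTop _
  filter_upwards [iso_rare_aux hm g hp h1, h2] with n h3 h4
  have h5 : ((ClF (Fin n) g (m n)).filter (fun G => ε * n ≤ iso G)).card ≤
      {G : SimpleGraph (Fin n) | G.edgeSet.ncard = m n ∧ Emb g G ∧ ⌈ε' * n⌉₊ ≤ iso G}.ncard := by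
    rw [← Set.ncard_coe_finset]
    apply Set.ncard_le_ncard _ (Set.toFinite _)
    intro G hG
    rw [Finset.mem_coe, Finset.mem_filter, mem_ClF] at hG
    refine ⟨hG.1.1, hG.1.2, ?_⟩
    rw [Nat.ceil_le]
    refine le_trans ?_ hG.2
    exact mul_le_mul_of_nonneg_right (min_le_left _ _) (Nat.cast_nonneg n)
  have h6 : (((ClF (Fin n) g (m n)).filter (fun G => ε * n ≤ iso G)).card : ℝ) ≤
      ({G : SimpleGraph (Fin n) | G.edgeSet.ncard = m n ∧ Emb g G ∧ ⌈ε' * n⌉₊ ≤ iso G}.ncard : ℝ) := by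
    exact_mod_cast h5
  have h7 : (1 / δ : ℝ) * (((ClF (Fin n) g (m n)).filter (fun G => ε * n ≤ iso G)).card : ℝ) ≤
      ((ClF (Fin n) g (m n)).card : ℝ) :=
    le_trans (mul_le_mul h4 h6 (Nat.cast_nonneg _) (by positivity)) h3
  rw [one_div, inv_mul_le_iff₀ hδ] at h7
  exact h7

/-- the average of a function bounded by `n` and rarely of order `n` is `o(n)`. -/
theorem sum_small {g : ℕ} {m : ℕ → ℕ} (f : (n : ℕ) → SimpleGraph (Fin n) → ℕ)
    (hf : ∀ n G, f n G ≤ n) (h : ∀ ε : ℝ, 0 < ε → Rare g m (fun n G => ε * n ≤ f n G))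
    {ε : ℝ} (hε : 0 < ε) : ∀ᶠ n : ℕ in atTop,
      ((∑ G ∈ ClF (Fin n) g (m n), f n G : ℕ) : ℝ) ≤
        ε * n * ((ClF (Fin n) g (m n)).card : ℝ) := by
  classical
  filter_upwards [h (ε / 2) (by linarith) (ε / 2) (by linarith)] with n h1
  have h2 : ∀ G ∈ ClF (Fin n) g (m n), (f n G : ℝ) ≤ ε / 2 * n +
      (if ε / 2 * n ≤ (f n G : ℝ) then (n : ℝ) else 0) := by
    intro G _
    split_ifs with h3
    · have h4 : (f n G : ℝ) ≤ n := by exact_mod_cast hf n G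
      have h5 : 0 ≤ ε / 2 * (n : ℝ) := by positivity
      linarith
    · push Not at h3
      linarith
  push_cast
  calc ∑ G ∈ ClF (Fin n) g (m n), (f n G : ℝ) ≤ ∑ G ∈ ClF (Fin n) g (m n), (ε / 2 * n +
      (if ε / 2 * n ≤ (f n G : ℝ) then (n : ℝ) else 0)) := Finset.sum_le_sum h2
    _ = ((ClF (Fin n) g (m n)).card : ℝ) * (ε / 2 * n) +
        (((ClF (Fin n) g (m n)).filter (fun G => ε / 2 * n ≤ (f n G : ℝ))).card : ℝ) * n := by
        rw [Finset.sum_add_distrib, ← Finset.sum_filter, Finset.sum_const, Finset.sum_const,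
          nsmul_eq_mul, nsmul_eq_mul]
    _ ≤ ((ClF (Fin n) g (m n)).card : ℝ) * (ε / 2 * n) +
        (ε / 2 * ((ClF (Fin n) g (m n)).card : ℝ)) * n := by
        have := mul_le_mul_of_nonneg_right h1 (Nat.cast_nonneg (α := ℝ) n)
        linarith
    _ = _ := by ring

end Pool.Agent.Helper98.Gn
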