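import Pool.Agent.Helper98.Gn.AsA

/-! Asymptotics II: many leaves. -/

namespace Pool.Agent.Helper98.Gn

open SimpleGraph Filter Topology

theorem iterate_half (a : ℕ → ℝ) (R : ℝ) (hR : 0 ≤ R) (j k : ℕ)
    (h : ∀ i < k, a (j + 2 * i) ≤ R + a (j + 2 * (i + 1)) / 2) :
    a j ≤ 2 * R + a (j + 2 * k) / 2 ^ k := by
  induction k with
  | zero => simp; linarith
  | succ k ih =>
    have h1 := ih (fun i hi => h i (by omega))
    have h2 := h k (by omega)
    have key : a j ≤ 2 * R * (1 - 1 / 2 ^ k) + a (j + 2 * k) / 2 ^ k := by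
      clear h1 ih h2
      induction k with
      | zero => simp
      | succ k ih =>
        have h3 := ih (fun i hi => h i (by omega))
        have h4 := h k (by omega)
        have hp : (0 : ℝ) < 2 ^ k := by positivity
        have h5 : a (j + 2 * k) / 2 ^ k ≤ (R + a (j + 2 * (k + 1)) / 2) / 2 ^ k :=
          div_le_div_of_nonneg_right h4 hp.le
        have h6 : (R + a (j + 2 * (k + 1)) / 2) / 2 ^ k =
            2 * R * (1 / 2 ^ k - 1 / 2 ^ (k + 1)) + a (j + 2 * (k + 1)) / 2 ^ (k + 1) := by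
          rw [pow_succ]
          field_simp
          ring
        rw [h6] at h5
        nlinarith
    have hp : (0 : ℝ) < 2 ^ k := by positivity
    have h5 : a (j + 2 * k) / 2 ^ k ≤ (R + a (j + 2 * (k + 1)) / 2) / 2 ^ k :=
      div_le_div_of_nonneg_right h2 hp.le
    have h6 : (R + a (j + 2 * (k + 1)) / 2) / 2 ^ k =
        2 * R * (1 / 2 ^ k - 1 / 2 ^ (k + 1)) + a (j + 2 * (k + 1)) / 2 ^ (k + 1) := by
      rw [pow_succ]
      field_simp
      ring
    rw [h6] at h5
    have h7 : 0 ≤ 2 * R * (1 / 2 ^ (k + 1)) := by positivity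
    nlinarith

open Classical in
/-- one step of the leaf recursion -/
theorem leaf_step {m : ℕ → ℕ} (hm : Crit m) (g : ℕ) : ∀ᶠ n : ℕ in atTop, ∀ j : ℕ,
    100 * j ≤ n →
    (((ClF (Fin n) g (m n)).filter (fun G => (leaf G).ncard ≤ j)).card : ℝ) ≤
      (((ClF (Fin n) g (m n)).filter (fun G => (1 / 100 : ℝ) * n ≤ iso G)).card : ℝ) +
      (((ClF (Fin n) g (m n)).filter (fun G => (leaf G).ncard ≤ j + 2)).card : ℝ) / 2 := by
  filter_upwards [hm.bound (δ := 1 / 100) (by norm_num), eventually_ge_atTop 1000] with n h1 h2 j hj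
  have hne : Nonempty (Fin n) := ⟨⟨0, by omega⟩⟩
  have h1a := abs_le.1 h1
  have hn : (1000 : ℝ) ≤ n := by exact_mod_cast h2
  have hm2 : (m n : ℝ) ≤ 101 / 100 * n := by linarith [h1a.2]
  have hm3 : 100 * m n ≤ 101 * n := by
    have : (100 * m n : ℝ) ≤ 101 * n := by linarith
    exact_mod_cast this
  set Cf := ClF (Fin n) g (m n) with hCf
  set A := Cf.filter (fun G => (leaf G).ncard ≤ j + 2) with hA
  set S1 := Cf.filter (fun G => (leaf G).ncard ≤ j ∧ n / 3 ≤ (smo G).ncard) with hS1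
  set S2 := Cf.filter (fun G => (leaf G).ncard ≤ j ∧ n / 3 ≤ (tri G).ncard) with hS2
  have c1 : S1.card * (n / 3 * (n - 1)) ≤ A.card * ((j + 2) * (2 * m n)) := by
    have := smooth_switch (V := Fin n) (g := g) (m := m n) (j := j) (P := n / 3) S1
      (fun G hG => by
        rw [hS1, Finset.mem_filter] at hG
        exact ⟨hG.1, hG.2.1⟩)
      (fun G hG => by
        rw [hS1, Finset.mem_filter] at hG
        exact hG.2.2)
    rwa [Fintype.card_fin] at this
  have c2 : S2.card * (n / 3 * (n - 3)) ≤ A.card * (j + 2) := by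
    have := tri_switch (V := Fin n) (g := g) (m := m n) (j := j) (P := n / 3) S2
      (fun G hG => by
        rw [hS2, Finset.mem_filter] at hG
        exact ⟨hG.1, hG.2.1⟩)
      (fun G hG => by
        rw [hS2, Finset.mem_filter] at hG
        exact hG.2.2)
    rwa [Fintype.card_fin] at this
  have c3 : (Cf.filter (fun G => (leaf G).ncard ≤ j)).card ≤
      (Cf.filter (fun G => (1 / 100 : ℝ) * n ≤ iso G)).card + S1.card + S2.card := by
    have hsub : Cf.filter (fun G => (leaf G).ncard ≤ j) ⊆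
        (Cf.filter (fun G => (1 / 100 : ℝ) * n ≤ iso G) ∪ S1) ∪ S2 := by
      intro G hG
      rw [Finset.mem_filter] at hG
      have hGc := mem_ClF.1 hG.1
      have hd := deg_count G
      rw [Fintype.card_fin, hGc.1] at hd
      rw [Finset.mem_union, Finset.mem_union, Finset.mem_filter, hS1, hS2, Finset.mem_filter,
        Finset.mem_filter]
      by_cases hi : (1 / 100 : ℝ) * n ≤ iso G
      · exact Or.inl (Or.inl ⟨hG.1, hi⟩)
      by_cases hs : n / 3 ≤ (smo G).ncard
      · exact Or.inl (Or.inr ⟨hG.1, hG.2, hs⟩)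
      by_cases ht : n / 3 ≤ (tri G).ncard
      · exact Or.inr ⟨hG.1, hG.2, ht⟩
      exfalso
      have hi' : 100 * iso G ≤ n := by
        have : (100 * iso G : ℝ) ≤ n := by
          push Not at hi
          linarith
        exact_mod_cast this
      have hl := hG.2
      omega
    calc _ ≤ _ := Finset.card_le_card hsub
      _ ≤ _ := Finset.card_union_le _ _
      _ ≤ _ := Nat.add_le_add_right (Finset.card_union_le _ _) _
  have hn3 : (n : ℝ) / 3 - 1 ≤ ((n / 3 : ℕ) : ℝ) := by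
    have h5 : n ≤ 3 * (n / 3) + 2 := by omega
    have h6 : (n : ℝ) ≤ 3 * ((n / 3 : ℕ) : ℝ) + 2 := by exact_mod_cast h5
    linarith
  have hj' : (100 : ℝ) * j ≤ n := by exact_mod_cast hj
  have hA0 : (0 : ℝ) ≤ A.card := Nat.cast_nonneg _
  have c1' : (S1.card : ℝ) ≤ A.card / 4 := by
    have e1 : (S1.card : ℝ) * (((n / 3 : ℕ) : ℝ) * ((n : ℝ) - 1)) ≤
        A.card * (((j : ℝ) + 2) * (2 * m n)) := by
      have h7 : ((n - 1 : ℕ) : ℝ) = (n : ℝ) - 1 := by
        rw [Nat.cast_sub (by omega)]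
        simp
      rw [← h7]
      exact_mod_cast c1
    have e2 : ((j : ℝ) + 2) * (2 * m n) ≤ (1 / 4) * (((n / 3 : ℕ) : ℝ) * ((n : ℝ) - 1)) := by
      have e3 : ((j : ℝ) + 2) * (2 * m n) ≤ ((n : ℝ) / 100 + 2) * (2 * (101 / 100 * n)) := by
        apply mul_le_mul
        · linarith
        · linarith
        · positivity
        · positivity
      have e4 : ((n : ℝ) / 3 - 1) * ((n : ℝ) - 1) ≤ ((n / 3 : ℕ) : ℝ) * ((n : ℝ) - 1) :=
        mul_le_mul_of_nonneg_right hn3 (by linarith)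
      nlinarith
    have e5 : (0 : ℝ) < ((n / 3 : ℕ) : ℝ) * ((n : ℝ) - 1) := by
      apply mul_pos <;> linarith
    have e6 : (S1.card : ℝ) * (((n / 3 : ℕ) : ℝ) * ((n : ℝ) - 1)) ≤
        (A.card / 4) * (((n / 3 : ℕ) : ℝ) * ((n : ℝ) - 1)) := by
      refine e1.trans ?_
      refine (mul_le_mul_of_nonneg_left e2 hA0).trans (le_of_eq ?_)
      ring
    exact le_of_mul_le_mul_right e6 e5
  have c2' : (S2.card : ℝ) ≤ A.card / 4 := by
    have e1 : (S2.card : ℝ) * (((n / 3 : ℕ) : ℝ) * ((n : ℝ) - 3)) ≤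
        A.card * ((j : ℝ) + 2) := by
      have h7 : ((n - 3 : ℕ) : ℝ) = (n : ℝ) - 3 := by
        rw [Nat.cast_sub (by omega)]
        simp
      rw [← h7]
      exact_mod_cast c2
    have e2 : ((j : ℝ) + 2) ≤ (1 / 4) * (((n / 3 : ℕ) : ℝ) * ((n : ℝ) - 3)) := by
      have e3 : ((j : ℝ) + 2) ≤ ((n : ℝ) / 100 + 2) := by linarith
      have e4 : ((n : ℝ) / 3 - 1) * ((n : ℝ) - 3) ≤ ((n / 3 : ℕ) : ℝ) * ((n : ℝ) - 3) :=
        mul_le_mul_of_nonneg_right hn3 (by linarith)
      nlinarith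
    have e5 : (0 : ℝ) < ((n / 3 : ℕ) : ℝ) * ((n : ℝ) - 3) := by
      apply mul_pos <;> linarith
    have e6 : (S2.card : ℝ) * (((n / 3 : ℕ) : ℝ) * ((n : ℝ) - 3)) ≤
        (A.card / 4) * (((n / 3 : ℕ) : ℝ) * ((n : ℝ) - 3)) := by
      refine e1.trans ?_
      refine (mul_le_mul_of_nonneg_left e2 hA0).trans (le_of_eq ?_)
      ring
    exact le_of_mul_le_mul_right e6 e5
  have c3' : ((Cf.filter (fun G => (leaf G).ncard ≤ j)).card : ℝ) ≤
      (Cf.filter (fun G => (1 / 100 : ℝ) * n ≤ iso G)).card + S1.card + S2.card := by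
    exact_mod_cast c3
  linarith

theorem leaf_rare {m : ℕ → ℕ} (hm : Crit m) (g : ℕ) :
    Rare g m (fun n G => 200 * (leaf G).ncard ≤ n) := by
  classical
  intro ε hε
  have h0 := iso_rare hm g (ε := 1 / 100) (by norm_num) (ε / 4) (by linarith)
  have h2 : ∀ᶠ k : ℕ in atTop, (2 / ε : ℝ) ≤ 2 ^ k :=
    (tendsto_pow_atTop_atTop_of_one_lt (by norm_num : (1 : ℝ) < 2)).eventually_ge_atTop _
  obtain ⟨k, hk⟩ := h2.exists
  filter_upwards [h0, leaf_step hm g, eventually_ge_atTop (400 * (k + 1))] with n h3 h4 h5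
  set Cf := ClF (Fin n) g (m n) with hCf
  have h6 := iterate_half
    (fun j => ((Cf.filter (fun G => (leaf G).ncard ≤ j)).card : ℝ))
    ((Cf.filter (fun G => (1 / 100 : ℝ) * n ≤ iso G)).card : ℝ) (Nat.cast_nonneg _)
    (n / 200) k (by
      intro i hi
      have h7 := h4 (n / 200 + 2 * i) (by omega)
      have h8 : n / 200 + 2 * i + 2 = n / 200 + 2 * (i + 1) := by ring
      rw [h8] at h7
      exact h7)
  have h9 : ((Cf.filter (fun G => 200 * (leaf G).ncard ≤ n)).card : ℝ) ≤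
      ((Cf.filter (fun G => (leaf G).ncard ≤ n / 200)).card : ℝ) := by
    have : Cf.filter (fun G => 200 * (leaf G).ncard ≤ n) ⊆
        Cf.filter (fun G => (leaf G).ncard ≤ n / 200) := by
      intro G hG
      rw [Finset.mem_filter] at hG ⊢
      exact ⟨hG.1, by omega⟩
    exact_mod_cast Finset.card_le_card this
  have h10 : ((Cf.filter (fun G => (leaf G).ncard ≤ n / 200 + 2 * k)).card : ℝ) ≤ Cf.card := by
    exact_mod_cast Finset.card_filter_le _ _
  have h11 : ((Cf.filter (fun G => (leaf G).ncard ≤ n / 200 + 2 * k)).card : ℝ) / 2 ^ k ≤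
      ε / 2 * Cf.card := by
    have hp : (0 : ℝ) < 2 ^ k := by positivity
    rw [div_le_iff₀ hp]
    rw [div_le_iff₀ hε] at hk
    have h12 : (0 : ℝ) ≤ Cf.card := Nat.cast_nonneg _
    nlinarith
  have h13 : ((Cf.filter (fun G => 200 * (leaf G).ncard ≤ n)).card : ℝ) ≤ ε * Cf.card := by
    linarith
  convert h13

end Pool.Agent.Helper98.Gn
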