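import Pool.Agent.Helper98.Gn.AsB

/-! Asymptotics III: the giant component and its genus. -/

namespace Pool.Agent.Helper98.Gn

open SimpleGraph Filter Topology

theorem cut_switch {V : Type*} [Fintype V] [DecidableEq V] [Nonempty V] {g m : ℕ}
    (S : Finset (SimpleGraph V)) (U : SimpleGraph V → Finset (V × V)) (l a : ℕ)
    (hS : ∀ G ∈ S, G.edgeSet.ncard = m)
    (hU : ∀ G ∈ S, ∀ p ∈ U G, p.1 ≠ p.2 ∧ ¬ G.Adj p.1 p.2 ∧
      ∀ x, Emb g (inside G {x}ᶜ ⊔ edge p.1 p.2))
    (hl : ∀ G ∈ S, l ≤ (leaf G).ncard) (ha : ∀ G ∈ S, a + 2 * Fintype.card V ≤ (U G).card) :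
    S.card * (l * a) ≤ ∑ G ∈ ClF V g m, 2 * m * iso G * Fintype.card V := by
  classical
  let Lf : SimpleGraph V → Finset V := fun G => Finset.univ.filter (fun x => x ∈ leaf G)
  let X : SimpleGraph V → Finset ((V × V) × V) := fun G =>
    (U G ×ˢ Lf G).filter (fun p => p.1.1 ≠ p.2 ∧ p.1.2 ≠ p.2)
  have hLf : ∀ G, (Lf G).card = (leaf G).ncard := by
    intro G
    rw [← Set.ncard_coe_finset]
    congr 1
    ext d
    simp [Lf]
  have hXc : ∀ G ∈ S, l * a ≤ (X G).card := by
    intro G hG
    have h1 : (U G ×ˢ Lf G).card ≤ (X G).card + 2 * (Fintype.card V * (Lf G).card) := by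
      have hsub : U G ×ˢ Lf G ⊆ X G ∪
          (((Finset.univ : Finset V) ×ˢ Lf G).image (fun q => ((q.2, q.1), q.2)) ∪
          ((Finset.univ : Finset V) ×ˢ Lf G).image (fun q => ((q.1, q.2), q.2))) := by
        rintro ⟨⟨u, v⟩, x⟩ hp
        rw [Finset.mem_union, Finset.mem_union, Finset.mem_image, Finset.mem_image]
        by_cases h2 : u = x
        · subst h2
          right; left
          exact ⟨(v, u), by simpa using (Finset.mem_product.1 hp).2, rfl⟩
        by_cases h3 : v = x
        · subst h3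
          right; right
          exact ⟨(u, v), by simpa using (Finset.mem_product.1 hp).2, rfl⟩
        left
        exact Finset.mem_filter.2 ⟨hp, h2, h3⟩
      refine (Finset.card_le_card hsub).trans ?_
      refine (Finset.card_union_le _ _).trans ?_
      apply Nat.add_le_add_left
      refine (Finset.card_union_le _ _).trans ?_
      have e1 : (((Finset.univ : Finset V) ×ˢ Lf G).image (fun q => ((q.2, q.1), q.2))).card ≤
          Fintype.card V * (Lf G).card := by
        refine Finset.card_image_le.trans ?_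
        rw [Finset.card_product, Finset.card_univ]
      have e2 : (((Finset.univ : Finset V) ×ˢ Lf G).image (fun q => ((q.1, q.2), q.2))).card ≤
          Fintype.card V * (Lf G).card := by
        refine Finset.card_image_le.trans ?_
        rw [Finset.card_product, Finset.card_univ]
      omega
    rw [Finset.card_product] at h1
    have h2 := ha G hG
    have h3 := hl G hG
    rw [← hLf] at h3
    have h4 : (a + 2 * Fintype.card V) * (Lf G).card ≤ (U G).card * (Lf G).card :=
      Nat.mul_le_mul_right _ h2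
    have h5 : a * (Lf G).card ≤ (X G).card := by nlinarith
    calc l * a ≤ (Lf G).card * a := Nat.mul_le_mul_right _ h3
      _ = a * (Lf G).card := mul_comm _ _
      _ ≤ _ := h5
  calc S.card * (l * a) ≤ ∑ G ∈ S, (X G).card := by
        rw [← smul_eq_mul, ← Finset.sum_const]
        exact Finset.sum_le_sum hXc
    _ ≤ _ := by
        apply leaf_cut S X hS
        rintro G hG ⟨⟨u, v⟩, x⟩ hp
        simp only [X, Lf, Finset.mem_filter, Finset.mem_product, Finset.mem_univ, true_and] at hp
        obtain ⟨⟨h1, h2⟩, h3, h4⟩ := hp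
        obtain ⟨h5, h6, h7⟩ := hU G hG _ h1
        exact ⟨h2, h3, h4, h5, h6, h7 x⟩

theorem iso_le {n : ℕ} (G : SimpleGraph (Fin n)) : iso G ≤ n := by
  unfold iso
  have := Set.ncard_le_card {v | ∀ w, ¬ G.Adj v w}
  rwa [Nat.card_eq_fintype_card, Fintype.card_fin] at this

/-- general consequence of `cut_switch`. -/
theorem cut_rare {m : ℕ → ℕ} (hm : Crit m) (g : ℕ) (B : (n : ℕ) → SimpleGraph (Fin n) → Prop)
    {δ : ℝ} (hδ : 0 < δ)
    (U : (n : ℕ) → SimpleGraph (Fin n) → Finset (Fin n × Fin n))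
    (hU : ∀ᶠ n : ℕ in atTop, ∀ G ∈ ClF (Fin n) g (m n), B n G →
      δ * (n : ℝ) ^ 2 ≤ ((U n G).card : ℝ) ∧ ∀ p ∈ U n G, p.1 ≠ p.2 ∧ ¬ G.Adj p.1 p.2 ∧
      ∀ x, Emb g (inside G {x}ᶜ ⊔ edge p.1 p.2)) : Rare g m B := by
  classical
  have h1 : Rare g m (fun n G => B n G ∧ ¬ 200 * (leaf G).ncard ≤ n) := by
    intro ε hε
    have h2 := sum_small (g := g) (m := m) (fun n G => iso G) (fun n G => iso_le G)
      (fun ε hε => iso_rare hm g hε) (ε := ε * δ / 3200) (by positivity)
    filter_upwards [hU, h2, hm.bound (δ := 1) one_pos, eventually_ge_atTop 1,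
      eventually_ge_atTop (⌈(6 : ℝ) / δ⌉₊)] with n h3 h4 h5 h6 h7
    have hne : Nonempty (Fin n) := ⟨⟨0, by omega⟩⟩
    have h5a := (abs_le.1 h5).2
    have hn1 : (1 : ℝ) ≤ n := by exact_mod_cast h6
    have hn0 : (0 : ℝ) < n := by linarith
    have h8 : (6 : ℝ) ≤ δ * n := by
      have h9 : (6 : ℝ) / δ ≤ n := (Nat.le_ceil _).trans (by exact_mod_cast h7)
      rw [div_le_iff₀ hδ] at h9
      linarith
    set Cf := ClF (Fin n) g (m n) with hCf
    set S := Cf.filter (fun G => B n G ∧ ¬ 200 * (leaf G).ncard ≤ n) with hS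
    -- parameters
    obtain ⟨a, ha1, ha2⟩ : ∃ a : ℕ, δ / 2 * (n : ℝ) ^ 2 ≤ a ∧ (a : ℝ) + 2 * n ≤ δ * (n : ℝ) ^ 2 := by
      refine ⟨⌈δ / 2 * (n : ℝ) ^ 2⌉₊, Nat.le_ceil _, ?_⟩
      have := Nat.ceil_lt_add_one (a := δ / 2 * (n : ℝ) ^ 2) (by positivity)
      nlinarith
    have hsw := cut_switch (V := Fin n) (g := g) (m := m n) S (U n) (n / 200 + 1) a
      (fun G hG => by
        rw [hS, Finset.mem_filter, hCf, mem_ClF] at hG
        exact hG.1.1)
      (fun G hG => by
        rw [hS, Finset.mem_filter] at hG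
        exact (h3 G hG.1 hG.2.1).2)
      (fun G hG => by
        rw [hS, Finset.mem_filter] at hG
        omega)
      (fun G hG => by
        rw [hS, Finset.mem_filter] at hG
        have h10 := (h3 G hG.1 hG.2.1).1
        rw [Fintype.card_fin]
        have : (a : ℝ) + 2 * n ≤ ((U n G).card : ℝ) := ha2.trans h10
        exact_mod_cast this)
    rw [Fintype.card_fin] at hsw
    have hsum : ∑ G ∈ Cf, 2 * m n * iso G * n = 2 * m n * n * ∑ G ∈ Cf, iso G := by
      rw [Finset.mul_sum]
      apply Finset.sum_congr rfl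
      intro G _
      ring
    rw [hsum] at hsw
    have hsw' : (S.card : ℝ) * ((((n / 200 + 1 : ℕ) : ℝ)) * a) ≤
        2 * m n * n * ((∑ G ∈ Cf, iso G : ℕ) : ℝ) := by exact_mod_cast hsw
    have h200 : (n : ℝ) / 200 ≤ ((n / 200 + 1 : ℕ) : ℝ) := by
      have h11 : n ≤ 200 * (n / 200 + 1) := by omega
      have h12 : (n : ℝ) ≤ 200 * ((n / 200 + 1 : ℕ) : ℝ) := by exact_mod_cast h11
      linarith
    have hS0 : (0 : ℝ) ≤ S.card := Nat.cast_nonneg _
    have hC0 : (0 : ℝ) ≤ Cf.card := Nat.cast_nonneg _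
    have e1 : (S.card : ℝ) * ((n : ℝ) / 200 * (δ / 2 * (n : ℝ) ^ 2)) ≤
        (S.card : ℝ) * ((((n / 200 + 1 : ℕ) : ℝ)) * a) := by
      apply mul_le_mul_of_nonneg_left _ hS0
      apply mul_le_mul h200 ha1 (by positivity) (by positivity)
    have e2 : 2 * (m n : ℝ) * n * ((∑ G ∈ Cf, iso G : ℕ) : ℝ) ≤
        2 * (2 * n) * n * (ε * δ / 3200 * n * Cf.card) := by
      apply mul_le_mul
      · have : (m n : ℝ) ≤ 2 * n := by linarith
        nlinarith
      · exact h4
      · positivity
      · positivity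
    have e3 : (S.card : ℝ) * ((δ / 400) * (n : ℝ) ^ 3) ≤ (ε * Cf.card) * ((δ / 400) * (n : ℝ) ^ 3) := by
      calc (S.card : ℝ) * ((δ / 400) * (n : ℝ) ^ 3)
          = (S.card : ℝ) * ((n : ℝ) / 200 * (δ / 2 * (n : ℝ) ^ 2)) := by ring
        _ ≤ 2 * (2 * n) * n * (ε * δ / 3200 * n * Cf.card) := (e1.trans hsw').trans e2
        _ = (ε * Cf.card) * ((δ / 800) * (n : ℝ) ^ 3) := by ring
        _ ≤ _ := by
          apply mul_le_mul_of_nonneg_left _ (by positivity)
          apply mul_le_mul_of_nonneg_right _ (by positivity)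
          linarith
    have e4 : (S.card : ℝ) ≤ ε * Cf.card := le_of_mul_le_mul_right e3 (by positivity)
    convert e4
  apply (h1.or (leaf_rare hm g)).mono
  filter_upwards with n G _ hB
  by_cases h : 200 * (leaf G).ncard ≤ n
  · exact Or.inr h
  · exact Or.inl ⟨hB, h⟩

/-- whp there is a component with at least `(1 - ε) n` vertices. -/
theorem giant_rare {m : ℕ → ℕ} (hm : Crit m) (g : ℕ) {ε : ℝ} (hε : 0 < ε) :
    Rare g m (fun n G => ¬ ∃ v, (1 - ε) * n ≤ ((cmp G v).ncard : ℝ)) := by
  classical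
  apply cut_rare hm g _ hε
    (fun n G => (Finset.univ : Finset (Fin n × Fin n)).filter (fun p => ¬ G.Reachable p.1 p.2))
  filter_upwards with n G hG hB
  push Not at hB
  constructor
  · have h1 : ∑ v : Fin n, (cmp G v).ncard + ((Finset.univ : Finset (Fin n × Fin n)).filter
        (fun p => ¬ G.Reachable p.1 p.2)).card = n ^ 2 := by
      have h2 := Finset.card_filter_add_card_filter_not (s := (Finset.univ : Finset (Fin n × Fin n)))
        (fun p => G.Reachable p.1 p.2)
      rw [Finset.card_univ, Fintype.card_prod, Fintype.card_fin] at h2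
      rw [pow_two, ← h2]
      congr 1
      rw [← Finset.univ_product_univ, Finset.card_filter, Finset.sum_product]
      apply Finset.sum_congr rfl
      intro v _
      rw [← Finset.card_filter, ← Set.ncard_coe_finset]
      congr 1
      ext w
      simp [cmp]
    have h3 : ((∑ v : Fin n, (cmp G v).ncard : ℕ) : ℝ) ≤ n * ((1 - ε) * n) := by
      push_cast
      calc ∑ v : Fin n, ((cmp G v).ncard : ℝ) ≤ ∑ v : Fin n, ((1 - ε) * n) :=
            Finset.sum_le_sum (fun v _ => (hB v).le)
        _ = _ := by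
            rw [Finset.sum_const, Finset.card_univ, Fintype.card_fin, nsmul_eq_mul]
    have h4 : ((∑ v : Fin n, (cmp G v).ncard : ℕ) : ℝ) + (((Finset.univ : Finset (Fin n × Fin n)).filter
        (fun p => ¬ G.Reachable p.1 p.2)).card : ℝ) = (n : ℝ) ^ 2 := by exact_mod_cast h1
    nlinarith
  · rintro ⟨u, v⟩ hp
    rw [Finset.mem_filter] at hp
    have hr := hp.2
    simp only at hr ⊢
    refine ⟨?_, fun h => hr h.reachable, ?_⟩
    · rintro rfl
      exact hr (Reachable.refl _)
    · intro x
      have h1 := (mem_ClF.1 hG).2.mono_graph (inside_le G {x}ᶜ)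
      exact h1.add_bridge (fun h => hr (h.mono (inside_le G {x}ᶜ)))

/-- whp the whole graph does not embed in the surface of genus `g - 1`. -/
theorem genus_rare {m : ℕ → ℕ} (hm : Crit m) (g : ℕ) :
    Rare (g + 1) m (fun n G => Emb g G) := by
  classical
  apply cut_rare hm (g + 1) _ (δ := 1 / 2) (by norm_num)
    (fun n G => (Finset.univ : Finset (Fin n × Fin n)).filter
      (fun p => p.1 ≠ p.2 ∧ ¬ G.Adj p.1 p.2))
  filter_upwards [eventually_ge_atTop 10, hm.bound (δ := 1) one_pos] with n hn hb G hG hB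
  have hGc := mem_ClF.1 hG
  constructor
  · have h1 : n * n ≤ ((Finset.univ : Finset (Fin n × Fin n)).filter
      (fun p => p.1 ≠ p.2 ∧ ¬ G.Adj p.1 p.2)).card + n + 2 * m n := by
      have hsub : (Finset.univ : Finset (Fin n × Fin n)) ⊆
          (((Finset.univ : Finset (Fin n × Fin n)).filter
            (fun p => p.1 ≠ p.2 ∧ ¬ G.Adj p.1 p.2)) ∪
          (Finset.univ : Finset (Fin n)).image (fun v => (v, v))) ∪
          (Finset.univ : Finset (Fin n × Fin n)).filter (fun p => G.Adj p.1 p.2) := by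
        rintro ⟨u, v⟩ _
        simp only [Finset.mem_union, Finset.mem_filter, Finset.mem_univ, true_and,
          Finset.mem_image, Prod.mk.injEq]
        by_cases h1 : G.Adj u v
        · exact Or.inr h1
        by_cases h2 : u = v
        · left; right
          exact ⟨u, rfl, h2⟩
        · left; left
          exact ⟨h2, h1⟩
      have h2 := Finset.card_le_card hsub
      rw [Finset.card_univ, Fintype.card_prod, Fintype.card_fin] at h2
      have h3 : ((Finset.univ : Finset (Fin n × Fin n)).filter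
          (fun p => G.Adj p.1 p.2)).card = 2 * m n := by
        rw [← hGc.1, ← dart_ncard, ← Set.ncard_coe_finset]
        congr 1
        ext d
        simp
      have h4 : ((Finset.univ : Finset (Fin n)).image (fun v => (v, v))).card ≤ n := by
        refine Finset.card_image_le.trans ?_
        rw [Finset.card_univ, Fintype.card_fin]
      refine h2.trans ?_
      refine (Finset.card_union_le _ _).trans ?_
      rw [h3]
      apply Nat.add_le_add_right
      refine (Finset.card_union_le _ _).trans ?_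
      exact Nat.add_le_add_left h4 _
    have h5 : (n : ℝ) * n ≤ (((Finset.univ : Finset (Fin n × Fin n)).filter
      (fun p => p.1 ≠ p.2 ∧ ¬ G.Adj p.1 p.2)).card : ℝ) + n + 2 * m n := by exact_mod_cast h1
    have h6 := (abs_le.1 hb).2
    have h7 : (10 : ℝ) ≤ n := by exact_mod_cast hn
    nlinarith
  · rintro ⟨u, v⟩ hp
    rw [Finset.mem_filter] at hp
    obtain ⟨_, h1, h2⟩ := hp
    refine ⟨h1, h2, fun x => ?_⟩
    exact (hB.mono_graph (inside_le G {x}ᶜ)).add_any u v

end Pool.Agent.Helper98.Gn
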