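import Pool.Agent.Helper98.Gn.AsC

/-! Asymptotics IV: the other components are planar; the main statement for `Emb`. -/

namespace Pool.Agent.Helper98.Gn

open SimpleGraph Filter Topology

theorem cmp_closed {V : Type*} (G : SimpleGraph V) (v : V) : Closed G (cmp G v) := by
  intro a b hab ha
  exact Reachable.trans ha hab.reachable

theorem self_mem_cmp {V : Type*} (G : SimpleGraph V) (v : V) : v ∈ cmp G v := Reachable.refl _

theorem cmp_eq {V : Type*} {G : SimpleGraph V} {v w : V} (h : G.Reachable v w) :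
    cmp G w = cmp G v := by
  ext u
  exact ⟨fun h1 => h.trans h1, fun h1 => h.symm.trans h1⟩

theorem cmp_disjoint {V : Type*} {G : SimpleGraph V} {v w : V} (h : ¬ G.Reachable v w) :
    ∀ u ∈ cmp G v, u ∉ cmp G w := by
  intro u h1 h2
  exact h (Reachable.trans h1 (Reachable.symm h2))

theorem out_le {n : ℕ} (G : SimpleGraph (Fin n)) : (out G).ncard ≤ n := by
  have := Set.ncard_le_card (out G)
  rwa [Nat.card_eq_fintype_card, Fintype.card_fin] at this

theorem ncard_disj {n : ℕ} {S T : Set (Fin n)} (h : ∀ u ∈ S, u ∉ T) : S.ncard + T.ncard ≤ n := by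
  rw [← Set.ncard_union_eq (Set.disjoint_left.2 h) (Set.toFinite _) (Set.toFinite _)]
  have := Set.ncard_le_card (S ∪ T)
  rwa [Nat.card_eq_fintype_card, Fintype.card_fin] at this

theorem out_rare {m : ℕ → ℕ} (hm : Crit m) (g : ℕ) {ε : ℝ} (hε : 0 < ε) :
    Rare g m (fun n G => ε * n ≤ ((out G).ncard : ℝ)) := by
  set ε' := min (ε / 2) (1 / 4) with hε'
  have hp : 0 < ε' := lt_min (by linarith) (by norm_num)
  have h1 : ε' ≤ ε / 2 := min_le_left _ _
  have h2 : ε' ≤ 1 / 4 := min_le_right _ _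
  apply (giant_rare hm g hp).mono
  filter_upwards [eventually_ge_atTop 1] with n hn G _ hG
  rintro ⟨v, hv⟩
  have hn1 : (1 : ℝ) ≤ n := by exact_mod_cast hn
  have hdis : ∀ u ∈ out G, u ∉ cmp G v := by
    intro u hu hu'
    have h3 : cmp G u = cmp G v := cmp_eq hu'
    unfold out at hu
    change 2 * (cmp G u).ncard ≤ Nat.card (Fin n) at hu
    rw [h3, Nat.card_eq_fintype_card, Fintype.card_fin] at hu
    have h4 : (2 : ℝ) * ((cmp G v).ncard : ℝ) ≤ n := by exact_mod_cast hu
    nlinarith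
  have h5 := ncard_disj hdis
  have h6 : ((out G).ncard : ℝ) + ((cmp G v).ncard : ℝ) ≤ n := by exact_mod_cast h5
  nlinarith

theorem other_rare {m : ℕ → ℕ} (hm : Crit m) (g : ℕ) :
    Rare g m (fun n G => ∃ v w, (1 - 1 / 1000 : ℝ) * n ≤ ((cmp G v).ncard : ℝ) ∧
      ¬ G.Reachable v w ∧ ¬ Emb 0 (inside G (cmp G w))) := by
  classical
  have h1 : Rare g m (fun n G => (∃ v w, (1 - 1 / 1000 : ℝ) * n ≤ ((cmp G v).ncard : ℝ) ∧
      ¬ G.Reachable v w ∧ ¬ Emb 0 (inside G (cmp G w))) ∧ ¬ 200 * (leaf G).ncard ≤ n) := by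
    intro ε hε
    have h2 := sum_small (g := g) (m := m) (fun n G => (out G).ncard) (fun n G => out_le G)
      (fun ε hε => out_rare hm g hε) (ε := ε / (1000 * (g + 1))) (by positivity)
    filter_upwards [h2, eventually_ge_atTop 1000] with n h4 h6
    have hne : Nonempty (Fin n) := ⟨⟨0, by omega⟩⟩
    have hn1 : (1000 : ℝ) ≤ n := by exact_mod_cast h6
    set Cf := ClF (Fin n) g (m n) with hCf
    set S := Cf.filter (fun G => (∃ v w, (1 - 1 / 1000 : ℝ) * n ≤ ((cmp G v).ncard : ℝ) ∧
      ¬ G.Reachable v w ∧ ¬ Emb 0 (inside G (cmp G w))) ∧ ¬ 200 * (leaf G).ncard ≤ n) with hS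
    have hsw := swap_switch (V := Fin n) (g := g) (m := m n) S
      (fun G hG => by
        rw [hS, Finset.mem_filter] at hG
        exact hG.1)
      (n / 250)
      (fun G hG => by
        rw [hS, Finset.mem_filter] at hG
        obtain ⟨hGc, ⟨v, w, hv, hvw, hw⟩, hleaf⟩ := hG
        obtain ⟨Q, hQ1, hQ2⟩ := exists_piece (cmp_closed G w) hw
        have hdis := cmp_disjoint hvw
        have h7 := ncard_disj hdis
        have h7' : ((cmp G v).ncard : ℝ) + ((cmp G w).ncard : ℝ) ≤ n := by exact_mod_cast h7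
        have h8 : 1000 * (cmp G w).ncard ≤ n := by
          have : (1000 : ℝ) * ((cmp G w).ncard : ℝ) ≤ n := by linarith
          exact_mod_cast this
        refine ⟨Q, cmp G w, cmp G v, hQ2, hQ1, cmp_closed G w, cmp_closed G v, hdis, ?_, ?_⟩
        · rw [Nat.card_eq_fintype_card, Fintype.card_fin]
          omega
        · have h9 : 1000 * ((cmp G v)ᶜ).ncard ≤ n := by
            have h10 := Set.ncard_add_ncard_compl (cmp G v)
            rw [Nat.card_eq_fintype_card, Fintype.card_fin] at h10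
            have h11 : ((cmp G v).ncard : ℝ) + (((cmp G v)ᶜ).ncard : ℝ) = n := by
              exact_mod_cast h10
            have : (1000 : ℝ) * (((cmp G v)ᶜ).ncard : ℝ) ≤ n := by linarith
            exact_mod_cast this
          have h12 : (leaf G).ncard ≤ (leaf G ∩ cmp G v).ncard + ((cmp G v)ᶜ).ncard := by
            refine le_trans ?_ (Set.ncard_union_le _ _)
            apply Set.ncard_le_ncard _ (Set.toFinite _)
            intro u hu
            by_cases h13 : u ∈ cmp G v
            · exact Or.inl ⟨hu, h13⟩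
            · exact Or.inr h13
          omega)
    have hsum : ∑ G ∈ Cf, 2 * g * (out G).ncard = 2 * g * ∑ G ∈ Cf, (out G).ncard := by
      rw [Finset.mul_sum]
    rw [hsum] at hsw
    have hsw' : (S.card : ℝ) * ((n / 250 : ℕ) : ℝ) ≤
        2 * g * ((∑ G ∈ Cf, (out G).ncard : ℕ) : ℝ) := by exact_mod_cast hsw
    have h250 : (n : ℝ) / 500 ≤ ((n / 250 : ℕ) : ℝ) := by
      have h11 : n ≤ 500 * (n / 250) := by omega
      have h12 : (n : ℝ) ≤ 500 * ((n / 250 : ℕ) : ℝ) := by exact_mod_cast h11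
      linarith
    have hS0 : (0 : ℝ) ≤ S.card := Nat.cast_nonneg _
    have hC0 : (0 : ℝ) ≤ Cf.card := Nat.cast_nonneg _
    have e1 : (S.card : ℝ) * ((n : ℝ) / 500) ≤ (ε * Cf.card) * ((n : ℝ) / 500) := by
      calc (S.card : ℝ) * ((n : ℝ) / 500) ≤ (S.card : ℝ) * ((n / 250 : ℕ) : ℝ) :=
            mul_le_mul_of_nonneg_left h250 hS0
        _ ≤ 2 * g * ((∑ G ∈ Cf, (out G).ncard : ℕ) : ℝ) := hsw'
        _ ≤ 2 * g * (ε / (1000 * (g + 1)) * n * Cf.card) :=
            mul_le_mul_of_nonneg_left h4 (by positivity)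
        _ = (ε * Cf.card) * ((n : ℝ) / 500) * (g / (g + 1)) := by
            field_simp
            ring
        _ ≤ (ε * Cf.card) * ((n : ℝ) / 500) * 1 := by
            apply mul_le_mul_of_nonneg_left _ (by positivity)
            rw [div_le_one (by positivity)]
            linarith
        _ = _ := mul_one _
    have e4 : (S.card : ℝ) ≤ ε * Cf.card := le_of_mul_le_mul_right e1 (by positivity)
    convert e4
  apply (h1.or (leaf_rare hm g)).mono
  filter_upwards with n G _ hB
  by_cases h : 200 * (leaf G).ncard ≤ n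
  · exact Or.inr h
  · exact Or.inl ⟨hB, h⟩

/-- The desired property, for the genus `g + 1`. -/
def GoodE {V : Type*} (g : ℕ) (G : SimpleGraph V) : Prop :=
  ∃ v, (∀ w, ¬ G.Reachable v w → (cmp G w).ncard < (cmp G v).ncard) ∧
    ¬ Emb g (inside G (cmp G v)) ∧ ∀ w, ¬ G.Reachable v w → Emb 0 (inside G (cmp G w))

theorem good_rare {m : ℕ → ℕ} (hm : Crit m) (g : ℕ) :
    Rare (g + 1) m (fun _ G => ¬ GoodE g G) := by
  apply (((giant_rare hm (g + 1) (ε := 1 / 1000) (by norm_num)).or
    (other_rare hm (g + 1))).or (genus_rare hm g)).mono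
  filter_upwards [eventually_ge_atTop 1] with n hn G hG hbad
  by_contra hcon
  push Not at hcon
  obtain ⟨⟨⟨v, hv⟩, h2⟩, h3⟩ := hcon
  have hn1 : (1 : ℝ) ≤ n := by exact_mod_cast hn
  apply hbad
  have hpl : ∀ w, ¬ G.Reachable v w → Emb 0 (inside G (cmp G w)) := by
    intro w hw
    exact h2 v w hv hw
  refine ⟨v, ?_, ?_, hpl⟩
  · intro w hw
    have h4 := ncard_disj (cmp_disjoint hw)
    have h5 : ((cmp G v).ncard : ℝ) + ((cmp G w).ncard : ℝ) ≤ n := by exact_mod_cast h4
    have h6 : ((cmp G w).ncard : ℝ) < ((cmp G v).ncard : ℝ) := by linarith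
    exact_mod_cast h6
  · intro h4
    have h5 : Emb 0 (inside G (cmp G v)ᶜ) := by
      by_contra h6
      obtain ⟨Q, hQ1, hQ2⟩ := exists_piece (cmp_closed G v).compl h6
      obtain ⟨q, hq⟩ := hQ2.nonempty
      have hsub : Q ⊆ cmp G q := by
        intro b hb
        exact (hQ2.conn q hq b hb).mono (inside_le G Q)
      have h7 := hpl q (hQ1 hq)
      exact hQ2.nonplanar (h7.mono_graph (inside_mono G hsub))
    exact h3 (Emb.glue (cmp_closed G v) h4 h5)

end Pool.Agent.Helper98.Gn
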