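import Pool.Agent.Helper98.Gn.Cyc

/-! Counting involutions of small genus relative to a full cycle. -/

namespace Pool.Agent.Helper98.Gn

open Equiv Equiv.Perm

section enum

variable {X : Type*}

theorem enum_cycle {τ : Perm X} {s : Finset X} (h : τ.IsCycleOn s) (hs : s.Nonempty) :
    ∃ e : Fin s.card → X, Function.Injective e ∧ (∀ i, e i ∈ s) ∧ (∀ x ∈ s, ∃ i, e i = x) ∧
      ∀ i, τ (e i) = e (finRotate s.card i) := by
  obtain ⟨x0, hx0⟩ := hs
  refine ⟨fun i => (τ ^ (i : ℕ)) x0, ?_, ?_, ?_, ?_⟩
  · intro i j hij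
    have := (h.pow_apply_eq_pow_apply hx0).1 hij
    have := Nat.ModEq.eq_of_lt_of_lt this i.2 j.2
    exact Fin.ext this
  · intro i
    exact (h.1.perm_pow i).mapsTo hx0
  · intro x hx
    obtain ⟨n, hn, hn2⟩ := h.exists_pow_eq hx0 hx
    exact ⟨⟨n, hn⟩, hn2⟩
  · intro i
    have hc : ∀ N (_ : N = s.card) (i : Fin N), τ ((τ ^ (i : ℕ)) x0) =
        (τ ^ ((finRotate N i : Fin N) : ℕ)) x0 := by
      intro N hN i
      rcases N with _ | N
      · exact i.elim0
      · by_cases hi : i = Fin.last N
        · subst hi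
          rw [finRotate_last]
          rw [← Perm.mul_apply, ← pow_succ']
          have := h.pow_card_apply hx0
          rw [← hN] at this
          simpa using this
        · rw [coe_finRotate_of_ne_last hi, pow_succ', Perm.mul_apply]
    exact hc _ rfl i

end enum

section remove

variable {X : Type*} [DecidableEq X] [Fintype X]

theorem invol_apply {β : Perm X} (hβ : β * β = 1) (x : X) : β (β x) = x := by
  rw [← Perm.mul_apply, hβ, Perm.one_apply]

theorem remove_invol {β : Perm X} (hβ : β * β = 1) (x : X) :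
    (swap x (β x) * β) * (swap x (β x) * β) = 1 := by
  have h1 : β * swap x (β x) = swap x (β x) * β := by
    rw [mul_swap_eq_swap_mul, invol_apply hβ, swap_comm]
  calc (swap x (β x) * β) * (swap x (β x) * β) = swap x (β x) * (β * swap x (β x)) * β := by
        simp only [mul_assoc]
    _ = (swap x (β x) * swap x (β x)) * (β * β) := by
        rw [h1]
        simp only [mul_assoc]
    _ = 1 := by rw [swap_mul_self, hβ, mul_one]

theorem remove_apply {β : Perm X} (hβ : β * β = 1) (x z : X) :
    (swap x (β x) * β) z = if z = x ∨ z = β x then z else β z := by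
  rw [Perm.mul_apply]
  by_cases h1 : z = x
  · subst h1
    simp
  by_cases h2 : z = β x
  · subst h2
    rw [invol_apply hβ]
    simp
  have h3 : β z ≠ x := by
    intro h
    apply h2
    rw [← h, invol_apply hβ]
  have h4 : β z ≠ β x := fun h => h1 (β.injective h)
  rw [swap_apply_of_ne_of_ne h3 h4]
  simp [h1, h2]

theorem remove_support {β : Perm X} (hβ : β * β = 1) {x : X} (hx : β x ≠ x) :
    (swap x (β x) * β).support.card + 2 = β.support.card := by
  have h1 : (swap x (β x) * β).support = β.support \ {x, β x} := by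
    ext z
    rw [mem_support, remove_apply hβ, Finset.mem_sdiff, mem_support]
    simp only [Finset.mem_insert, Finset.mem_singleton]
    by_cases h : z = x ∨ z = β x
    · simp [h]
    · simp [h]
  have h2 : ({x, β x} : Finset X) ⊆ β.support := by
    intro z hz
    simp only [Finset.mem_insert, Finset.mem_singleton] at hz
    rw [mem_support]
    rcases hz with h | h
    · rw [h]
      exact hx
    · rw [h, invol_apply hβ]
      exact hx.symm
  have h3 : ({x, β x} : Finset X).card = 2 := Finset.card_pair hx.symm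
  rw [h1]
  have := Finset.card_sdiff_add_card_eq_card h2
  omega

theorem cyc_mul_invol_le (τ : Perm X) : ∀ (n : ℕ) (τ : Perm X) {β : Perm X}, β * β = 1 →
    β.support.card = n → 2 * cyc (τ * β) ≤ 2 * cyc τ + n := by
  intro n
  induction n using Nat.strong_induction_on with
  | _ n ih =>
    intro τ β hβ hn
    by_cases h : β = 1
    · rw [h, mul_one]
      omega
    · obtain ⟨x, hx⟩ : ∃ x, β x ≠ x := by
        by_contra hcon
        push Not at hcon
        exact h (Equiv.ext hcon)
      have h1 := remove_support hβ hx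
      have h2 := ih (n - 2) (by omega) (τ * swap x (β x)) (remove_invol hβ x) (by omega)
      have h3 : τ * swap x (β x) * (swap x (β x) * β) = τ * β := by
        rw [mul_assoc, ← mul_assoc (swap x (β x)), swap_mul_self, one_mul]
      rw [h3] at h2
      have h4 := cyc_swap_le τ x (β x)
      omega

end remove

variable {N : ℕ}

open Classical in
/-- involutions of genus at most `g` relative to `τ` -/
noncomputable def J (g : ℕ) (τ : Perm (Fin N)) : Finset (Perm (Fin N)) :=
  Finset.univ.filter (fun β => β * β = 1 ∧ β.support.card + 2 ≤ 2 * cyc (τ * β) + 4 * g)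

/-- crossing pair of 2-cycles -/
def Cross (τ β : Perm (Fin N)) (a c : Fin N) : Prop :=
  β a ≠ a ∧ β c ≠ c ∧ c ≠ a ∧ c ≠ β a ∧ cyc (τ * swap a (β a) * swap c (β c)) = 1

open Classical in
/-- non-crossing involutions relative to `τ` -/
noncomputable def NC (τ : Perm (Fin N)) : Finset (Perm (Fin N)) :=
  Finset.univ.filter (fun β => β * β = 1 ∧ ∀ a c, ¬ Cross τ β a c)

/-- linear noncrossing -/
def LNC (β : Fin N → Fin N) : Prop := ∀ a c, a < c → c < β a → β a < β c → False

/-- type word -/
def word (β : Fin N → Fin N) (i : Fin N) : Fin 3 :=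
  if β i = i then 0 else if i < β i then 1 else 2

theorem word_eq_one {β : Fin N → Fin N} {i : Fin N} : word β i = 1 ↔ i < β i := by
  unfold word
  by_cases h1 : β i = i
  · simp [h1]
  · by_cases h2 : i < β i
    · simp [h1, h2]
    · simp [h1, h2]

theorem word_eq_two {β : Fin N → Fin N} {i : Fin N} : word β i = 2 ↔ β i < i := by
  unfold word
  by_cases h1 : β i = i
  · simp [h1]
  · by_cases h2 : i < β i
    · simp [h1, h2, h2.le]
    · have : β i < i := lt_of_le_of_ne (not_lt.1 h2) h1
      simp [h1, h2, this]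

theorem word_inj_aux : ∀ (n : ℕ) (β1 β2 : Fin N → Fin N), (∀ x, β1 (β1 x) = x) →
    (∀ x, β2 (β2 x) = x) → LNC β1 → LNC β2 → (∀ i, word β1 i = word β2 i) →
    ∀ i, i < β1 i → β1 i < β2 i → (β1 i : ℕ) - i = n → False := by
  intro n
  induction n using Nat.strong_induction_on with
  | _ n ih =>
    intro β1 β2 h1 h2 n1 n2 hw i hi1 hi2 hn
    -- partner of `β1 i` under `β2`
    have hj : β2 (β1 i) < β1 i := by
      rw [← word_eq_two, ← hw, word_eq_two, h1]
      exact hi1
    have hne : β2 (β1 i) ≠ i := by
      intro h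
      have : β1 i = β2 i := by rw [← h, h2, h]
      exact hi2.ne this
    rcases lt_or_gt_of_ne hne with h | h
    · refine n2 (β2 (β1 i)) i h ?_ ?_
      · rw [h2]
        exact hi1
      · rw [h2]
        exact hi2
    · -- `i < i2 < β1 i`
      have ho : β2 (β1 i) < β1 (β2 (β1 i)) := by
        rw [← word_eq_one, hw, word_eq_one, h2]
        exact hj
      have hne2 : β1 (β2 (β1 i)) ≠ β1 i := by
        intro h3
        have := congrArg β1 h3
        rw [h1, h1] at this
        exact hne this
      rcases lt_or_gt_of_ne hne2 with h3 | h3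
      · refine ih ((β1 (β2 (β1 i)) : ℕ) - (β2 (β1 i) : Fin N)) ?_ β1 β2 h1 h2 n1 n2 hw
          (β2 (β1 i)) ho ?_ rfl
        · have e1 : ((β1 (β2 (β1 i)) : Fin N) : ℕ) < (β1 i : Fin N) := h3
          have e2 : ((i : Fin N) : ℕ) < (β2 (β1 i) : Fin N) := h
          have e3 : ((β2 (β1 i) : Fin N) : ℕ) < (β1 (β2 (β1 i)) : Fin N) := ho
          omega
        · rw [h2]
          exact h3
      · exact n1 i (β2 (β1 i)) h hj h3

theorem word_inj {β1 β2 : Fin N → Fin N} (h1 : ∀ x, β1 (β1 x) = x)
    (h2 : ∀ x, β2 (β2 x) = x) (n1 : LNC β1) (n2 : LNC β2) (hw : ∀ i, word β1 i = word β2 i) :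
    β1 = β2 := by
  have hopen : ∀ i, i < β1 i → β1 i = β2 i := by
    intro i hi
    by_contra hne
    have hi2 : i < β2 i := by
      rw [← word_eq_one, ← hw, word_eq_one]
      exact hi
    rcases lt_or_gt_of_ne hne with h | h
    · exact word_inj_aux _ β1 β2 h1 h2 n1 n2 hw i hi h rfl
    · exact word_inj_aux _ β2 β1 h2 h1 n2 n1 (fun i => (hw i).symm) i hi2 h rfl
  funext i
  rcases lt_trichotomy i (β1 i) with h | h | h
  · exact hopen i h
  · have hw0 : word β1 i = 0 := by
      unfold word
      simp [h.symm]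
    rw [hw] at hw0
    have : β2 i = i := by
      by_contra hne
      unfold word at hw0
      by_cases h2 : i < β2 i
      · simp [hne, h2] at hw0
      · simp [hne, h2] at hw0
    rw [this, ← h]
  · have h3 := hopen (β1 i) (by rw [h1]; exact h)
    rw [h1] at h3
    have := congrArg β2 h3
    rw [h2] at this
    exact this.symm

theorem cyc_cross {τ : Perm (Fin N)} (hτ : cyc τ = 1) {e : Fin N → Fin N}
    (he : Function.Injective e) (hr : ∀ i, τ (e i) = e (finRotate N i)) {a b c d : Fin N}
    (hac : a < c) (hcb : c < b) (hbd : b < d) :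
    cyc (τ * swap (e a) (e b) * swap (e c) (e d)) = 1 := by
  have : Nonempty (Fin N) := ⟨a⟩
  have hall := cyc_eq_one_iff.1 hτ
  have hab : e a ≠ e b := fun h => absurd (he h) (ne_of_lt (hac.trans hcb))
  have h1 : cyc (τ * swap (e a) (e b)) = 2 := by rw [cyc_split hab (hall _ _), hτ]
  have h2 : ¬ SameCycle (τ * swap (e a) (e b)) (e c) (e d) := by
    intro h
    have hinv : ∀ z ∈ {z | ∃ k, a < k ∧ k ≤ b ∧ e k = z},
        (τ * swap (e a) (e b)) z ∈ {z | ∃ k, a < k ∧ k ≤ b ∧ e k = z} := by
      rintro z ⟨k, hk1, hk2, rfl⟩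
      rw [Perm.mul_apply]
      by_cases hkb : k = b
      · subst hkb
        rw [swap_apply_right, hr]
        obtain ⟨M, rfl⟩ : ∃ M, N = M + 1 := ⟨N - 1, by have := a.2; omega⟩
        have hne : a ≠ Fin.last M := by
          intro h
          subst h
          exact absurd hk1 (not_lt.2 (Fin.le_last _))
        refine ⟨finRotate _ a, ?_, ?_, rfl⟩
        · rw [Fin.lt_def, coe_finRotate_of_ne_last hne]
          omega
        · rw [Fin.le_def, coe_finRotate_of_ne_last hne]
          exact hk1
      · have hka : e k ≠ e a := fun h => absurd (he h) (ne_of_gt hk1)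
        have hkb' : e k ≠ e b := fun h => hkb (he h)
        rw [swap_apply_of_ne_of_ne hka hkb', hr]
        have hlt : k < b := lt_of_le_of_ne hk2 hkb
        obtain ⟨M, rfl⟩ : ∃ M, N = M + 1 := ⟨N - 1, by have := a.2; omega⟩
        have hne : k ≠ Fin.last M := by
          intro h
          subst h
          exact absurd hlt (not_lt.2 (Fin.le_last _))
        refine ⟨finRotate _ k, ?_, ?_, rfl⟩
        · rw [Fin.lt_def, coe_finRotate_of_ne_last hne]
          have : (a : ℕ) < k := hk1
          omega
        · rw [Fin.le_def, coe_finRotate_of_ne_last hne]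
          exact hlt
    obtain ⟨k, _, hk2, hk3⟩ := mem_of_sc hinv h ⟨c, hac, hcb.le, rfl⟩
    have := he hk3
    rw [this] at hk2
    exact absurd hbd (not_lt.2 hk2)
  have h3 := cyc_merge h2
  omega

theorem NC_card (τ : Perm (Fin N)) (hτ : cyc τ = 1) : (NC τ).card ≤ 3 ^ N := by
  classical
  have hN : 0 < N := by
    rcases Nat.eq_zero_or_pos N with h | h
    · subst h
      exfalso
      unfold cyc at hτ
      have : IsEmpty (Quotient (SameCycle.setoid τ)) := by
        constructor
        intro q
        obtain ⟨x, _⟩ := Quotient.exists_rep q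
        exact x.elim0
      rw [Nat.card_of_isEmpty] at hτ
      exact absurd hτ (by norm_num)
    · exact h
  have hne : Nonempty (Fin N) := ⟨⟨0, hN⟩⟩
  have hall := cyc_eq_one_iff.1 hτ
  have hco : τ.IsCycleOn ((Finset.univ : Finset (Fin N)) : Set (Fin N)) := by
    refine ⟨?_, fun a _ b _ => hall a b⟩
    rw [Finset.coe_univ]
    exact Set.bijOn_univ.2 τ.bijective
  obtain ⟨e0, he0, _, _, he3⟩ := enum_cycle hco ⟨⟨0, hN⟩, Finset.mem_univ _⟩
  obtain ⟨e, he, hr⟩ : ∃ e : Fin N → Fin N, Function.Injective e ∧
      ∀ i, τ (e i) = e (finRotate N i) := by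
    have hc : ∀ M (_ : M = N) (e : Fin M → Fin N), Function.Injective e →
        (∀ i, τ (e i) = e (finRotate M i)) → ∃ e : Fin N → Fin N, Function.Injective e ∧
          ∀ i, τ (e i) = e (finRotate N i) := by
      intro M hM e h1 h2
      subst hM
      exact ⟨e, h1, h2⟩
    exact hc _ (by simp) e0 he0 he3
  have hbij : Function.Bijective e := Finite.injective_iff_bijective.1 he
  obtain ⟨E, hE⟩ : ∃ E : Fin N ≃ Fin N, ∀ i, E i = e i :=
    ⟨Equiv.ofBijective e hbij, fun _ => rfl⟩
  -- transported map
  let tr : Perm (Fin N) → Fin N → Fin N := fun β i => E.symm (β (E i))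
  have htr : ∀ β : Perm (Fin N), β * β = 1 → ∀ x, tr β (tr β x) = x := by
    intro β hβ x
    simp only [tr, Equiv.apply_symm_apply]
    rw [invol_apply hβ, Equiv.symm_apply_apply]
  have hLNC : ∀ β ∈ NC τ, LNC (tr β) := by
    intro β hβ a c hac hcb hbd
    rw [NC, Finset.mem_filter] at hβ
    obtain ⟨-, hβ1, hβ2⟩ := hβ
    apply hβ2 (E a) (E c)
    have e1 : β (E a) = E (tr β a) := by simp [tr]
    have e2 : β (E c) = E (tr β c) := by simp [tr]
    refine ⟨?_, ?_, ?_, ?_, ?_⟩
    · rw [e1]
      intro h
      exact absurd (E.injective h) (ne_of_gt (hac.trans hcb))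
    · rw [e2]
      intro h
      exact absurd (E.injective h) (ne_of_gt (hcb.trans hbd))
    · intro h
      exact absurd (E.injective h) (ne_of_gt hac)
    · rw [e1]
      intro h
      exact absurd (E.injective h) (ne_of_lt hcb)
    · rw [e1, e2, hE, hE, hE, hE]
      exact cyc_cross hτ he hr hac hcb hbd
  have hinj : Set.InjOn (fun β => word (tr β)) (NC τ : Set (Perm (Fin N))) := by
    intro β1 h1 β2 h2 h12
    have h1' : β1 * β1 = 1 := by
      have := h1
      rw [Finset.mem_coe, NC, Finset.mem_filter] at this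
      exact this.2.1
    have h2' : β2 * β2 = 1 := by
      have := h2
      rw [Finset.mem_coe, NC, Finset.mem_filter] at this
      exact this.2.1
    have h3 := word_inj (htr β1 h1') (htr β2 h2') (hLNC β1 h1) (hLNC β2 h2)
      (fun i => congrFun h12 i)
    ext1 x
    have h4 := congrFun h3 (E.symm x)
    simp only [tr, Equiv.apply_symm_apply] at h4
    exact E.symm.injective h4
  calc (NC τ).card ≤ (Finset.univ : Finset (Fin N → Fin 3)).card :=
        Finset.card_le_card_of_injOn _ (fun _ _ => Finset.mem_univ _) hinj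
    _ = 3 ^ N := by simp

theorem J_card (g : ℕ) : ∀ τ : Perm (Fin N), cyc τ = 1 →
    (J g τ).card ≤ 3 ^ N * (1 + N ^ 4) ^ g := by
  classical
  -- effect of a crossing pair
  have hcross : ∀ (τ β : Perm (Fin N)) (a c : Fin N), β * β = 1 → Cross τ β a c →
      ∃ β' : Perm (Fin N), β' * β' = 1 ∧ β'.support.card + 4 = β.support.card ∧
        β = swap a (β a) * swap c (β c) * β' ∧
        τ * swap a (β a) * swap c (β c) * β' = τ * β := by
    intro τ β a c hβ ⟨h1, h2, h3, h4, h5⟩
    have hc : (swap a (β a) * β) c = β c := by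
      rw [remove_apply hβ]
      simp [h3, h4]
    have hβ1 := remove_invol hβ a
    refine ⟨swap c (β c) * (swap a (β a) * β), ?_, ?_, ?_, ?_⟩
    · have := remove_invol hβ1 c
      rwa [hc] at this
    · have e1 := remove_support hβ h1
      have e2 := remove_support hβ1 (x := c) (by rw [hc]; exact h2)
      rw [hc] at e2
      omega
    · rw [mul_assoc, ← mul_assoc (swap c (β c)), swap_mul_self, one_mul, ← mul_assoc,
        swap_mul_self, one_mul]
    · rw [mul_assoc (τ * swap a (β a)), ← mul_assoc (swap c (β c)), swap_mul_self, one_mul,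
        mul_assoc, ← mul_assoc (swap a (β a)), swap_mul_self, one_mul]
  induction g with
  | zero =>
    intro τ hτ
    have hsub : J 0 τ ⊆ NC τ := by
      intro β hβ
      rw [J, Finset.mem_filter] at hβ
      obtain ⟨-, hβ1, hβ2⟩ := hβ
      rw [NC, Finset.mem_filter]
      refine ⟨Finset.mem_univ _, hβ1, ?_⟩
      intro a c hac
      obtain ⟨β', h1, h2, _, h4⟩ := hcross τ β a c hβ1 hac
      have h5 := cyc_mul_invol_le τ _ (τ * swap a (β a) * swap c (β c)) h1 rfl
      rw [h4, hac.2.2.2.2] at h5
      omega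
    calc (J 0 τ).card ≤ (NC τ).card := Finset.card_le_card hsub
      _ ≤ 3 ^ N := NC_card τ hτ
      _ = 3 ^ N * (1 + N ^ 4) ^ 0 := by simp
  | succ g ih =>
    intro τ hτ
    let T : Finset (Fin N × Fin N × Fin N × Fin N) :=
      Finset.univ.filter (fun q => cyc (τ * swap q.1 q.2.1 * swap q.2.2.1 q.2.2.2) = 1)
    have hsub : J (g + 1) τ ⊆ NC τ ∪ T.biUnion (fun q =>
        (J g (τ * swap q.1 q.2.1 * swap q.2.2.1 q.2.2.2)).image
          (fun β' => swap q.1 q.2.1 * swap q.2.2.1 q.2.2.2 * β')) := by
      intro β hβ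
      rw [J, Finset.mem_filter] at hβ
      obtain ⟨-, hβ1, hβ2⟩ := hβ
      rw [Finset.mem_union]
      by_cases hc : ∃ a c, Cross τ β a c
      · right
        obtain ⟨a, c, hac⟩ := hc
        obtain ⟨β', h1, h2, h3, h4⟩ := hcross τ β a c hβ1 hac
        rw [Finset.mem_biUnion]
        refine ⟨(a, β a, c, β c), ?_, ?_⟩
        · rw [Finset.mem_filter]
          exact ⟨Finset.mem_univ _, hac.2.2.2.2⟩
        · rw [Finset.mem_image]
          refine ⟨β', ?_, h3.symm⟩
          rw [J, Finset.mem_filter]
          refine ⟨Finset.mem_univ _, h1, ?_⟩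
          simp only
          rw [h4]
          omega
      · left
        rw [NC, Finset.mem_filter]
        push Not at hc
        exact ⟨Finset.mem_univ _, hβ1, hc⟩
    have hT : T.card ≤ N ^ 4 := by
      calc T.card ≤ (Finset.univ : Finset (Fin N × Fin N × Fin N × Fin N)).card :=
            Finset.card_le_card (Finset.subset_univ _)
        _ = N ^ 4 := by
            simp [Fintype.card_prod]
            ring
    calc (J (g + 1) τ).card ≤ (NC τ).card + (T.biUnion (fun q =>
        (J g (τ * swap q.1 q.2.1 * swap q.2.2.1 q.2.2.2)).image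
          (fun β' => swap q.1 q.2.1 * swap q.2.2.1 q.2.2.2 * β'))).card :=
          (Finset.card_le_card hsub).trans (Finset.card_union_le _ _)
      _ ≤ 3 ^ N + T.card * (3 ^ N * (1 + N ^ 4) ^ g) := by
          apply Nat.add_le_add (NC_card τ hτ)
          apply Finset.card_biUnion_le_card_mul
          intro q hq
          rw [Finset.mem_filter] at hq
          exact Finset.card_image_le.trans (ih _ hq.2)
      _ ≤ 3 ^ N * (1 + N ^ 4) ^ g + N ^ 4 * (3 ^ N * (1 + N ^ 4) ^ g) := by
          apply Nat.add_le_add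
          · exact Nat.le_mul_of_pos_right _ (by positivity)
          · exact Nat.mul_le_mul_right _ hT
      _ = 3 ^ N * (1 + N ^ 4) ^ (g + 1) := by ring

end Pool.Agent.Helper98.Gn
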