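import Mathlib

/-! Cycle counting for permutations of a finite type (fixed points count as cycles). -/

namespace Pool.Agent.Helper98.Gn

open Equiv Equiv.Perm

variable {X : Type*}

/-- The number of cycles of a permutation, fixed points included. -/
noncomputable def cyc (π : Perm X) : ℕ := Nat.card (Quotient (SameCycle.setoid π))

/-- one step relation implies orbit relation -/
theorem sc_induct [Finite X] {π : Perm X} (R : X → X → Prop) (hr : ∀ a, R a a)
    (ht : ∀ a b c, R a b → R b c → R a c) (h : ∀ z, R z (π z)) {a b : X}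
    (hab : SameCycle π a b) : R a b := by
  obtain ⟨n, hn⟩ := hab.exists_nat_pow_eq
  have key : ∀ n : ℕ, R a ((π ^ n) a) := by
    intro n
    induction n with
    | zero => simpa using hr a
    | succ n ih =>
      rw [pow_succ', Perm.mul_apply]
      exact ht _ _ _ ih (h _)
  rw [← hn]
  exact key n

theorem sc_step (π : Perm X) (z : X) : SameCycle π z (π z) :=
  sameCycle_apply_right.2 (SameCycle.refl π z)

theorem mem_of_sc [Finite X] {π : Perm X} {S : Set X} (h : ∀ z ∈ S, π z ∈ S) {a b : X}
    (hab : SameCycle π a b) (ha : a ∈ S) : b ∈ S := by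
  have := sc_induct (π := π) (fun a b => a ∈ S → b ∈ S) (fun _ h => h)
    (fun a b c h1 h2 h => h2 (h1 h)) h hab
  exact this ha

section merge

variable [DecidableEq X] [Finite X]

theorem sc_merge_xy {π : Perm X} {x y : X} (hxy : ¬ SameCycle π x y) :
    SameCycle (π * swap x y) x y := by
  by_contra hcon
  set π' := π * swap x y with hπ'
  have h1 : ∀ k : ℕ, SameCycle π' x ((π ^ (k + 1)) y) := by
    intro k
    induction k with
    | zero =>
      have : π' x = π y := by simp [hπ']
      rw [zero_add, pow_one, ← this]
      exact sc_step _ _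
    | succ k ih =>
      have hx : (π ^ (k + 1)) y ≠ x := by
        intro h
        exact hxy (SameCycle.symm ⟨((k + 1 : ℕ) : ℤ), by rw [zpow_natCast]; exact h⟩)
      have hy : (π ^ (k + 1)) y ≠ y := by
        intro h
        rw [h] at ih
        exact hcon ih
      have h2 : π' ((π ^ (k + 1)) y) = (π ^ (k + 1 + 1)) y := by
        rw [hπ', Perm.mul_apply, swap_apply_of_ne_of_ne hx hy, pow_succ' π (k+1), Perm.mul_apply]
      rw [← h2]
      exact sameCycle_apply_right.2 ih
  obtain ⟨n, hn, hn2⟩ := (SameCycle.refl π y).exists_pow_eq''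
  have := h1 (n - 1)
  have h3 : n - 1 + 1 = n := by omega
  rw [h3, hn2.2] at this
  exact hcon this

theorem sc_merge {π : Perm X} {x y : X} (hxy : ¬ SameCycle π x y) (a b : X) :
    SameCycle (π * swap x y) a b ↔ SameCycle π a b ∨
      ((SameCycle π a x ∨ SameCycle π a y) ∧ (SameCycle π b x ∨ SameCycle π b y)) := by
  have hm := sc_merge_xy hxy
  have hne : x ≠ y := fun h => hxy (h ▸ SameCycle.refl π x)
  constructor
  · intro h
    refine sc_induct (π := π * swap x y) (fun a b => SameCycle π a b ∨
      ((SameCycle π a x ∨ SameCycle π a y) ∧ (SameCycle π b x ∨ SameCycle π b y)))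
      (fun a => Or.inl (SameCycle.refl _ _)) ?_ ?_ h
    · intro a b c h1 h2
      rcases h1 with h1 | ⟨h1, h1'⟩
      · rcases h2 with h2 | ⟨h2, h2'⟩
        · exact Or.inl (h1.trans h2)
        · right
          refine ⟨?_, h2'⟩
          rcases h2 with h2 | h2
          · exact Or.inl (h1.trans h2)
          · exact Or.inr (h1.trans h2)
      · rcases h2 with h2 | ⟨h2, h2'⟩
        · right
          refine ⟨h1, ?_⟩
          rcases h1' with h | h
          · exact Or.inl (h2.symm.trans h)
          · exact Or.inr (h2.symm.trans h)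
        · exact Or.inr ⟨h1, h2'⟩
    · intro z
      by_cases hzx : z = x
      · subst hzx
        right
        refine ⟨Or.inl (SameCycle.refl _ _), Or.inr ?_⟩
        rw [Perm.mul_apply, swap_apply_left]
        exact sameCycle_apply_left.2 (SameCycle.refl _ _)
      by_cases hzy : z = y
      · subst hzy
        right
        refine ⟨Or.inr (SameCycle.refl _ _), Or.inl ?_⟩
        rw [Perm.mul_apply, swap_apply_right]
        exact sameCycle_apply_left.2 (SameCycle.refl _ _)
      left
      rw [Perm.mul_apply, swap_apply_of_ne_of_ne hzx hzy]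
      exact sc_step _ _
  · have key : ∀ a b, SameCycle π a b → SameCycle (π * swap x y) a b := by
      intro a b h
      refine sc_induct (π := π) (fun a b => SameCycle (π * swap x y) a b)
        (fun a => SameCycle.refl _ _) (fun a b c h1 h2 => h1.trans h2) ?_ h
      intro z
      by_cases hzx : z = x
      · subst hzx
        have : π z = (π * swap z y) y := by simp
        rw [this]
        exact hm.trans (sc_step _ _)
      by_cases hzy : z = y
      · subst hzy
        have : π z = (π * swap x z) x := by simp
        rw [this]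
        exact hm.symm.trans (sc_step _ _)
      have : π z = (π * swap x y) z := by
        rw [Perm.mul_apply, swap_apply_of_ne_of_ne hzx hzy]
      rw [this]
      exact sc_step _ _
    rintro (h | ⟨h1, h2⟩)
    · exact key _ _ h
    · have ha : SameCycle (π * swap x y) a x := by
        rcases h1 with h | h
        · exact key _ _ h
        · exact (key _ _ h).trans hm.symm
      have hb : SameCycle (π * swap x y) b x := by
        rcases h2 with h | h
        · exact key _ _ h
        · exact (key _ _ h).trans hm.symm
      exact ha.trans hb.symm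

theorem sc_split {π : Perm X} {x y : X} (hne : x ≠ y) (hxy : SameCycle π x y) :
    ¬ SameCycle (π * swap x y) x y := by
  intro hcon
  obtain ⟨p0, hp0⟩ := hxy.exists_nat_pow_eq
  have hex : ∃ p : ℕ, 0 < p ∧ (π ^ p) x = y := by
    refine ⟨p0, ?_, hp0⟩
    rcases Nat.eq_zero_or_pos p0 with h | h
    · subst h
      simp at hp0
      exact absurd hp0 hne
    · exact h
  classical
  obtain ⟨hp, hpx⟩ := Nat.find_spec hex
  set p := Nat.find hex with hpdef
  have hmin : ∀ q, 0 < q → q < p → (π ^ q) x ≠ y := by
    intro q h1 h2 h3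
    exact Nat.find_min hex h2 ⟨h1, h3⟩
  let S : Set X := {z | ∃ k, 1 ≤ k ∧ k ≤ p ∧ (π ^ k) x = z}
  have hyS : y ∈ S := ⟨p, hp, le_refl _, hpx⟩
  have hxS : x ∉ S := by
    rintro ⟨k, hk1, hk2, hk3⟩
    have h4 : (π ^ (p - k)) x = y := by
      have : (π ^ p) x = (π ^ (p - k)) ((π ^ k) x) := by
        rw [← Perm.mul_apply, ← pow_add]
        congr 2
        omega
      rw [hk3] at this
      rw [← this, hpx]
    rcases Nat.eq_zero_or_pos (p - k) with h | h
    · rw [h] at h4
      simp at h4
      exact hne h4
    · exact hmin (p - k) h (by omega) h4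
  have hinv : ∀ z ∈ S, (π * swap x y) z ∈ S := by
    rintro z ⟨k, hk1, hk2, hk3⟩
    have hzx : z ≠ x := by
      intro h
      apply hxS
      exact ⟨k, hk1, hk2, by rw [hk3, h]⟩
    by_cases hzy : z = y
    · subst hzy
      refine ⟨1, le_refl _, hp, ?_⟩
      simp
    · refine ⟨k + 1, by omega, ?_, ?_⟩
      · rcases Nat.lt_or_ge k p with h | h
        · omega
        · have : k = p := by omega
          subst this
          exact absurd (hk3.symm.trans hpx) hzy
      · rw [pow_succ', Perm.mul_apply, hk3, Perm.mul_apply, swap_apply_of_ne_of_ne hzx hzy]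
  exact hxS (mem_of_sc hinv hcon.symm hyS)

end merge

theorem card_quot_merge [Finite X] (s s' : Setoid X) (x y : X) (hxy : ¬ s x y)
    (h : ∀ a b, s' a b ↔ s a b ∨ ((s a x ∨ s a y) ∧ (s b x ∨ s b y))) :
    Nat.card (Quotient s') + 1 = Nat.card (Quotient s) := by
  classical
  have hle : ∀ a b, s a b → s' a b := fun a b hab => (h a b).2 (Or.inl hab)
  have hx : ∀ a, s a a := fun a => s.refl a
  have : Finite (Quotient s) := Quotient.finite s
  have : Finite (Quotient s') := Quotient.finite s'
  let _ : Fintype (Quotient s) := Fintype.ofFinite _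
  let _ : Fintype (Quotient s') := Fintype.ofFinite _
  let f : Quotient s → Quotient s' := Quotient.map' id hle
  have hf : Function.Bijective (fun q : {q : Quotient s // q ≠ Quotient.mk s y} => f q.1) := by
    constructor
    · rintro ⟨q1, h1⟩ ⟨q2, h2⟩ h12
      induction q1 using Quotient.inductionOn with
      | h a =>
        induction q2 using Quotient.inductionOn with
        | h b =>
          have h3 : s' a b := Quotient.exact h12
          have ha : ¬ s a y := fun h => h1 (Quotient.sound h)
          have hb : ¬ s b y := fun h => h2 (Quotient.sound h)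
          have : s a b := by
            rcases (h a b).1 h3 with h4 | ⟨h4, h5⟩
            · exact h4
            · exact s.trans (h4.resolve_right ha) (s.symm (h5.resolve_right hb))
          exact Subtype.ext (Quotient.sound this)
    · intro q
      induction q using Quotient.inductionOn with
      | h a =>
        by_cases ha : s a y
        · refine ⟨⟨Quotient.mk s x, fun hc => hxy (Quotient.exact hc)⟩, ?_⟩
          apply Quotient.sound
          exact (h x a).2 (Or.inr ⟨Or.inl (hx x), Or.inr ha⟩)
        · exact ⟨⟨Quotient.mk s a, fun hc => ha (Quotient.exact hc)⟩, rfl⟩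
  have h1 : Nat.card {q : Quotient s // q ≠ Quotient.mk s y} = Nat.card (Quotient s') :=
    Nat.card_congr (Equiv.ofBijective _ hf)
  rw [← h1, Nat.card_eq_fintype_card, Nat.card_eq_fintype_card]
  have h2 := Set.card_ne_eq (Quotient.mk s y)
  have h3 : 0 < Fintype.card (Quotient s) := Fintype.card_pos_iff.2 ⟨Quotient.mk s y⟩
  have h4 : Fintype.card {q : Quotient s // q ≠ Quotient.mk s y} =
      Fintype.card (Quotient s) - 1 := by
    rw [← h2]
    apply Fintype.card_congr
    exact Equiv.refl _
  omega

theorem cyc_merge [DecidableEq X] [Finite X] {π : Perm X} {x y : X} (hxy : ¬ SameCycle π x y) :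
    cyc (π * swap x y) + 1 = cyc π := by
  unfold cyc
  exact card_quot_merge (SameCycle.setoid π) (SameCycle.setoid (π * swap x y)) x y hxy
    (sc_merge hxy)

theorem cyc_split [DecidableEq X] [Finite X] {π : Perm X} {x y : X} (hne : x ≠ y)
    (hxy : SameCycle π x y) : cyc (π * swap x y) = cyc π + 1 := by
  have h := cyc_merge (sc_split hne hxy)
  rw [mul_assoc, swap_mul_self, mul_one] at h
  exact h.symm

theorem cyc_swap_le [DecidableEq X] [Finite X] (π : Perm X) (x y : X) :
    cyc (π * swap x y) ≤ cyc π + 1 := by
  by_cases hne : x = y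
  · subst hne
    rw [swap_self]
    have : π * Equiv.refl X = π := mul_one π
    rw [this]
    omega
  by_cases h : SameCycle π x y
  · rw [cyc_split hne h]
  · have := cyc_merge h
    omega

theorem cyc_le_swap [DecidableEq X] [Finite X] (π : Perm X) (x y : X) :
    cyc π ≤ cyc (π * swap x y) + 1 := by
  have := cyc_swap_le (π * swap x y) x y
  rwa [mul_assoc, swap_mul_self, mul_one] at this

theorem cyc_congr {Y : Type*} (e : X ≃ Y) (π : Perm X) (ρ : Perm Y)
    (h : ∀ x, e (π x) = ρ (e x)) : cyc π = cyc ρ := by
  unfold cyc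
  apply Nat.card_congr
  have hz : ∀ (n : ℤ) (x : X), e ((π ^ n) x) = (ρ ^ n) (e x) := by
    intro n
    induction n with
    | zero => simp
    | succ n ih =>
      intro x
      have h1 : (π ^ ((n : ℤ) + 1)) x = (π ^ (n : ℤ)) (π x) := by
        rw [zpow_add_one, Perm.mul_apply]
      have h2 : (ρ ^ ((n : ℤ) + 1)) (e x) = (ρ ^ (n : ℤ)) (ρ (e x)) := by
        rw [zpow_add_one, Perm.mul_apply]
      rw [h1, h2, ih, h]
    | pred n ih =>
      intro x
      have h0 : ∀ x, e (π⁻¹ x) = ρ⁻¹ (e x) := by
        intro x
        rw [Perm.eq_inv_iff_eq, ← h]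
        simp
      have h1 : (π ^ (-(n : ℤ) - 1)) x = (π ^ (-(n : ℤ))) (π⁻¹ x) := by
        rw [zpow_sub_one, Perm.mul_apply]
      have h2 : (ρ ^ (-(n : ℤ) - 1)) (e x) = (ρ ^ (-(n : ℤ))) (ρ⁻¹ (e x)) := by
        rw [zpow_sub_one, Perm.mul_apply]
      rw [h1, h2, ih, h0]
  refine Quotient.congr e ?_
  intro a b
  constructor
  · rintro ⟨n, hn⟩
    exact ⟨n, by rw [← hz, hn]⟩
  · rintro ⟨n, hn⟩
    refine ⟨n, e.injective ?_⟩
    rw [hz]
    exact hn

theorem cyc_one [Finite X] : cyc (1 : Perm X) = Nat.card X := by
  unfold cyc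
  apply Nat.card_congr
  refine Equiv.symm (Equiv.ofBijective (fun x => Quotient.mk _ x) ⟨?_, ?_⟩)
  · intro a b h
    exact sameCycle_one.1 (Quotient.exact h)
  · intro q
    exact Quotient.exists_rep q

theorem cyc_eq_one_iff [Finite X] [Nonempty X] {π : Perm X} :
    cyc π = 1 ↔ ∀ a b, SameCycle π a b := by
  unfold cyc
  rw [Nat.card_eq_one_iff_unique]
  constructor
  · rintro ⟨h1, h2⟩ a b
    exact Quotient.exact (h1.elim (Quotient.mk _ a) (Quotient.mk _ b))
  · intro h
    refine ⟨⟨?_⟩, ⟨Quotient.mk _ (Classical.arbitrary X)⟩⟩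
    intro p q
    induction p using Quotient.inductionOn with
    | h a =>
      induction q using Quotient.inductionOn with
      | h b => exact Quotient.sound (h a b)

theorem cyc_pos [Finite X] [Nonempty X] (π : Perm X) : 0 < cyc π := by
  unfold cyc
  have : Finite (Quotient (SameCycle.setoid π)) := Quotient.finite _
  have : Nonempty (Quotient (SameCycle.setoid π)) := ⟨Quotient.mk _ (Classical.arbitrary X)⟩
  exact Nat.card_pos

end Pool.Agent.Helper98.Gn
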