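import Pool.Agent.Helper98.Gn.SwC

/-! Degree count. -/

namespace Pool.Agent.Helper98.Gn

open Equiv Equiv.Perm SimpleGraph

variable {V : Type*}

theorem two_of_card [Fintype V] [DecidableEq V] {G : SimpleGraph V} [DecidableRel G.Adj]
    {v a b : V} (hv : G.degree v = 2) (ha : G.Adj v a) (hb : G.Adj v b) (hab : a ≠ b) :
    Two G v a b := by
  refine ⟨?_, hab⟩
  have hsub : ({a, b} : Finset V) ⊆ G.neighborFinset v := by
    intro w hw
    rw [Finset.mem_insert, Finset.mem_singleton] at hw
    rw [mem_neighborFinset]
    rcases hw with rfl | rfl
    · exact ha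
    · exact hb
  have hcard : (G.neighborFinset v).card ≤ ({a, b} : Finset V).card := by
    rw [Finset.card_pair hab, card_neighborFinset_eq_degree, hv]
  have heq := Finset.eq_of_subset_of_card_le hsub hcard
  intro w
  rw [← mem_neighborFinset, ← heq, Finset.mem_insert, Finset.mem_singleton]

theorem two_le_deg [Fintype V] [DecidableEq V] {G : SimpleGraph V} [DecidableRel G.Adj]
    {v a b : V} (ha : G.Adj v a) (hb : G.Adj v b) (hab : a ≠ b) : 2 ≤ G.degree v := by
  have hsub : ({a, b} : Finset V) ⊆ G.neighborFinset v := by
    intro w hw
    rw [Finset.mem_insert, Finset.mem_singleton] at hw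
    rw [mem_neighborFinset]
    rcases hw with rfl | rfl
    · exact ha
    · exact hb
  have := Finset.card_le_card hsub
  rwa [Finset.card_pair hab, card_neighborFinset_eq_degree] at this

theorem deg_count [Fintype V] (G : SimpleGraph V) :
    9 * Fintype.card V ≤ (smo G).ncard + (tri G).ncard + 9 * iso G + 5 * (leaf G).ncard +
      8 * G.edgeSet.ncard := by
  classical
  have hsum := G.sum_degrees_eq_twice_card_edges
  have hE : G.edgeSet.ncard = G.edgeFinset.card := by
    rw [← coe_edgeFinset, Set.ncard_coe_finset]
  set A0 := Finset.univ.filter (fun v => G.degree v = 0) with hA0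
  set A1 := Finset.univ.filter (fun v => G.degree v = 1) with hA1
  set A2 := Finset.univ.filter (fun v => G.degree v = 2) with hA2
  set T := Finset.univ.filter (fun v => 3 ≤ G.degree v) with hT
  have h0 : A0.card = iso G := by
    unfold iso
    rw [← Set.ncard_coe_finset]
    congr 1
    ext v
    rw [hA0, Finset.coe_filter, Set.mem_setOf_eq, Set.mem_setOf_eq,
      ← card_neighborFinset_eq_degree, Finset.card_eq_zero, Finset.eq_empty_iff_forall_notMem]
    simp
  have h1 : A1.card = (leaf G).ncard := by
    rw [← Set.ncard_coe_finset]
    congr 1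
    ext v
    rw [hA1, Finset.coe_filter, Set.mem_setOf_eq, leaf, Set.mem_setOf_eq,
      ← card_neighborFinset_eq_degree, Finset.card_eq_one]
    simp only [Finset.mem_univ, true_and]
    apply exists_congr
    intro y
    rw [Finset.ext_iff]
    apply forall_congr'
    intro w
    rw [mem_neighborFinset, Finset.mem_singleton]
  have hV : Fintype.card V = A0.card + A1.card + A2.card + T.card := by
    have : (Finset.univ : Finset V) = (A0 ∪ A1) ∪ (A2 ∪ T) := by
      ext v
      simp only [hA0, hA1, hA2, hT, Finset.mem_union, Finset.mem_filter, Finset.mem_univ,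
        true_and, true_iff]
      omega
    rw [← Finset.card_univ, this, Finset.card_union_of_disjoint, Finset.card_union_of_disjoint,
      Finset.card_union_of_disjoint]
    · ring
    all_goals
      rw [Finset.disjoint_left]
      intro v hv hv'
      simp only [hA0, hA1, hA2, hT, Finset.mem_union, Finset.mem_filter, Finset.mem_univ,
        true_and] at hv hv'
      omega
  have hsumV : ∑ v, G.degree v = A1.card + 2 * A2.card + ∑ v ∈ T, G.degree v := by
    have e1 : ∑ v, G.degree v = ∑ v, ((if G.degree v = 1 then 1 else 0) +
        (if G.degree v = 2 then 2 else 0) + (if 3 ≤ G.degree v then G.degree v else 0)) := by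
      apply Finset.sum_congr rfl
      intro v _
      split_ifs <;> omega
    rw [e1, Finset.sum_add_distrib, Finset.sum_add_distrib, ← Finset.sum_filter,
      ← Finset.sum_filter, ← Finset.sum_filter, Finset.sum_const, Finset.sum_const]
    simp only [smul_eq_mul, mul_one]
    rw [mul_comm 2]
  have hT3 : 3 * T.card ≤ ∑ v ∈ T, G.degree v := by
    rw [mul_comm, ← smul_eq_mul, ← Finset.sum_const]
    apply Finset.sum_le_sum
    intro v hv
    rw [hT, Finset.mem_filter] at hv
    exact hv.2
  have hA2le : A2.card ≤ (smo G).ncard + (tri G).ncard + ∑ v ∈ T, G.degree v := by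
    have hsub : (A2 : Set V) ⊆ (smo G ∪ tri G) ∪ ((T.biUnion (fun u => G.neighborFinset u) :
        Finset V) : Set V) := by
      intro v hv
      rw [hA2, Finset.coe_filter, Set.mem_setOf_eq] at hv
      have hv2 := hv.2
      rw [← card_neighborFinset_eq_degree, Finset.card_eq_two] at hv2
      obtain ⟨y, z, hyz, he⟩ := hv2
      have hy : G.Adj v y := by
        rw [← mem_neighborFinset, he]
        simp
      have hz : G.Adj v z := by
        rw [← mem_neighborFinset, he]
        simp
      have htwo : Two G v y z := two_of_card hv.2 hy hz hyz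
      by_cases hadj : G.Adj y z
      · have h3 := two_le_deg hy.symm hadj hz.ne
        have h4 := two_le_deg hz.symm hadj.symm hy.ne
        by_cases h5 : G.degree y = 2
        · by_cases h6 : G.degree z = 2
          · left; right
            exact ⟨(y, z), htwo, two_of_card h5 hy.symm hadj hz.ne,
              two_of_card h6 hz.symm hadj.symm hy.ne⟩
          · right
            rw [Finset.mem_coe, Finset.mem_biUnion]
            refine ⟨z, ?_, ?_⟩
            · rw [hT, Finset.mem_filter]
              exact ⟨Finset.mem_univ _, by omega⟩
            · rw [mem_neighborFinset]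
              exact hz.symm
        · right
          rw [Finset.mem_coe, Finset.mem_biUnion]
          refine ⟨y, ?_, ?_⟩
          · rw [hT, Finset.mem_filter]
            exact ⟨Finset.mem_univ _, by omega⟩
          · rw [mem_neighborFinset]
            exact hy.symm
      · left; left
        exact ⟨(y, z), htwo, hadj⟩
    have e1 := Set.ncard_le_ncard hsub (Set.toFinite _)
    have e2 := Set.ncard_union_le (smo G ∪ tri G)
      ((T.biUnion (fun u => G.neighborFinset u) : Finset V) : Set V)
    have e3 := Set.ncard_union_le (smo G) (tri G)
    have e4 : (T.biUnion (fun u => G.neighborFinset u)).card ≤ ∑ v ∈ T, G.degree v := by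
      refine Finset.card_biUnion_le.trans ?_
      apply Finset.sum_le_sum
      intro v _
      rw [card_neighborFinset_eq_degree]
    rw [Set.ncard_coe_finset] at e1 e2
    omega
  rw [← h0, ← h1, hE]
  omega

end Pool.Agent.Helper98.Gn
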