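import Pool.Agent.Helper98.Gn.Moves
import Pool.Agent.Helper98.Gn.Chord

/-! Splitting of cycle counts; dummy removal; spanning forests. -/

namespace Pool.Agent.Helper98.Gn

open Equiv Equiv.Perm SimpleGraph

section split

variable {X Y : Type*}

theorem sc_sum_left [Finite X] [Finite Y] {a : Perm X} {b : Perm Y} {x y : X} :
    SameCycle (Equiv.Perm.sumCongr a b) (Sum.inl x) (Sum.inl y) ↔ SameCycle a x y := by
  constructor
  · intro h
    have := sc_induct (π := Equiv.Perm.sumCongr a b)
      (fun p q => ∀ x, p = Sum.inl x → ∃ y, q = Sum.inl y ∧ SameCycle a x y)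
      (fun p x hx => ⟨x, hx, SameCycle.refl _ _⟩)
      (fun p q r h1 h2 x hx => by
        obtain ⟨y, hy, hxy⟩ := h1 x hx
        obtain ⟨z, hz, hyz⟩ := h2 y hy
        exact ⟨z, hz, hxy.trans hyz⟩)
      (fun p x hx => ⟨a x, by rw [hx]; simp, sc_step _ _⟩) h
    obtain ⟨z, hz, hxz⟩ := this x rfl
    rw [Sum.inl.inj hz]
    exact hxz
  · intro h
    refine sc_induct (π := a) (fun x y => SameCycle (Equiv.Perm.sumCongr a b) (Sum.inl x)
      (Sum.inl y)) (fun _ => SameCycle.refl _ _) (fun _ _ _ h1 h2 => h1.trans h2) ?_ h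
    intro z
    have : (Sum.inl (a z) : X ⊕ Y) = (Equiv.Perm.sumCongr a b) (Sum.inl z) := by simp
    rw [this]
    exact sc_step _ _

theorem sc_sum_right [Finite X] [Finite Y] {a : Perm X} {b : Perm Y} {x y : Y} :
    SameCycle (Equiv.Perm.sumCongr a b) (Sum.inr x) (Sum.inr y) ↔ SameCycle b x y := by
  constructor
  · intro h
    have := sc_induct (π := Equiv.Perm.sumCongr a b)
      (fun p q => ∀ x, p = Sum.inr x → ∃ y, q = Sum.inr y ∧ SameCycle b x y)
      (fun p x hx => ⟨x, hx, SameCycle.refl _ _⟩)
      (fun p q r h1 h2 x hx => by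
        obtain ⟨y, hy, hxy⟩ := h1 x hx
        obtain ⟨z, hz, hyz⟩ := h2 y hy
        exact ⟨z, hz, hxy.trans hyz⟩)
      (fun p x hx => ⟨b x, by rw [hx]; simp, sc_step _ _⟩) h
    obtain ⟨z, hz, hxz⟩ := this x rfl
    rw [Sum.inr.inj hz]
    exact hxz
  · intro h
    refine sc_induct (π := b) (fun x y => SameCycle (Equiv.Perm.sumCongr a b) (Sum.inr x)
      (Sum.inr y)) (fun _ => SameCycle.refl _ _) (fun _ _ _ h1 h2 => h1.trans h2) ?_ h
    intro z
    have : (Sum.inr (b z) : X ⊕ Y) = (Equiv.Perm.sumCongr a b) (Sum.inr z) := by simp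
    rw [this]
    exact sc_step _ _

theorem sc_sum_lr [Finite X] [Finite Y] {a : Perm X} {b : Perm Y} {x : X} {y : Y} :
    ¬ SameCycle (Equiv.Perm.sumCongr a b) (Sum.inl x) (Sum.inr y) := by
  intro h
  have := sc_induct (π := Equiv.Perm.sumCongr a b)
    (fun p q => ∀ x, p = Sum.inl x → ∃ y, q = Sum.inl y)
    (fun p x hx => ⟨x, hx⟩)
    (fun p q r h1 h2 x hx => by
      obtain ⟨y, hy⟩ := h1 x hx
      exact h2 y hy)
    (fun p x hx => ⟨a x, by rw [hx]; simp⟩) h
  obtain ⟨z, hz⟩ := this x rfl
  exact absurd hz (by simp)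

theorem cyc_sum [Finite X] [Finite Y] (a : Perm X) (b : Perm Y) :
    cyc (Equiv.Perm.sumCongr a b) = cyc a + cyc b := by
  unfold cyc
  have : Finite (Quotient (SameCycle.setoid a)) := Quotient.finite _
  have : Finite (Quotient (SameCycle.setoid b)) := Quotient.finite _
  rw [← Nat.card_sum]
  symm
  apply Nat.card_congr
  let F : Quotient (SameCycle.setoid a) ⊕ Quotient (SameCycle.setoid b) →
      Quotient (SameCycle.setoid (Equiv.Perm.sumCongr a b)) :=
    Sum.elim (Quotient.map' Sum.inl (fun _ _ h => sc_sum_left.2 h))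
      (Quotient.map' Sum.inr (fun _ _ h => sc_sum_right.2 h))
  refine Equiv.ofBijective F ⟨?_, ?_⟩
  · rintro (p | p) (q | q) h
    · induction p using Quotient.inductionOn with
      | h x =>
        induction q using Quotient.inductionOn with
        | h y =>
          exact congrArg Sum.inl (Quotient.sound (sc_sum_left.1 (Quotient.exact h)))
    · induction p using Quotient.inductionOn with
      | h x =>
        induction q using Quotient.inductionOn with
        | h y =>
          exact absurd (Quotient.exact h) sc_sum_lr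
    · induction p using Quotient.inductionOn with
      | h x =>
        induction q using Quotient.inductionOn with
        | h y =>
          exact absurd (SameCycle.symm (Quotient.exact h)) sc_sum_lr
    · induction p using Quotient.inductionOn with
      | h x =>
        induction q using Quotient.inductionOn with
        | h y =>
          exact congrArg Sum.inr (Quotient.sound (sc_sum_right.1 (Quotient.exact h)))
  · intro q
    obtain ⟨x | x, rfl⟩ := Quotient.exists_rep q
    · exact ⟨Sum.inl (Quotient.mk _ x), rfl⟩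
    · exact ⟨Sum.inr (Quotient.mk _ x), rfl⟩

/-- If `f` preserves the range `D` of an enumeration `e`, the number of cycles of `f` is the
number of cycles of the conjugate on the index set plus a number depending only on `f` outside
of `D`. -/
theorem cyc_out [Finite X] {I : Type*} [Finite I] {e : I → X} (he : Function.Injective e)
    {f f' : Perm X} {h h' : Perm I} (hf : ∀ i, f (e i) = e (h i))
    (hf' : ∀ i, f' (e i) = e (h' i)) (hout : ∀ x, x ∉ Set.range e → f x = f' x) :
    cyc f + cyc h' = cyc f' + cyc h := by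
  classical
  -- complement
  let C := {x : X // x ∉ Set.range e}
  have hfC : ∀ x, x ∉ Set.range e → f x ∉ Set.range e := by
    rintro x hx ⟨i, hi⟩
    apply hx
    refine ⟨h.symm i, ?_⟩
    apply f.injective
    rw [hf, Equiv.apply_symm_apply, hi]
  have hfC' : ∀ x, x ∉ Set.range e → f' x ∉ Set.range e := by
    intro x hx
    rw [← hout x hx]
    exact hfC x hx
  have hinj : Function.Injective (fun x : C => (⟨f x.1, hfC x.1 x.2⟩ : C)) := by
    intro x y hxy
    exact Subtype.ext (f.injective (congrArg Subtype.val hxy))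
  have hbij := Finite.injective_iff_bijective.1 hinj
  let c : Perm C := Equiv.ofBijective _ hbij
  have hc : ∀ x : C, ((c x : C) : X) = f x.1 := fun x => rfl
  have hE : Function.Bijective (Sum.elim e (fun x : C => x.1)) := by
    constructor
    · rintro (i | x) (j | y) hxy
      · exact congrArg Sum.inl (he hxy)
      · exact absurd ⟨i, hxy⟩ y.2
      · exact absurd ⟨j, hxy.symm⟩ x.2
      · exact congrArg Sum.inr (Subtype.ext hxy)
    · intro x
      by_cases hx : x ∈ Set.range e
      · obtain ⟨i, hi⟩ := hx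
        exact ⟨Sum.inl i, hi⟩
      · exact ⟨Sum.inr ⟨x, hx⟩, rfl⟩
  let E : I ⊕ C ≃ X := Equiv.ofBijective _ hE
  have e1 : cyc (Equiv.Perm.sumCongr h c) = cyc f := by
    apply cyc_congr E
    rintro (i | x)
    · exact (hf i).symm
    · exact hc x
  have e2 : cyc (Equiv.Perm.sumCongr h' c) = cyc f' := by
    apply cyc_congr E
    rintro (i | x)
    · exact (hf' i).symm
    · exact (hc x).trans (hout x.1 x.2)
  rw [cyc_sum] at e1 e2
  omega

theorem sc_enum [Finite X] {I : Type*} [Finite I] {e : I → X} (he : Function.Injective e)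
    {f : Perm X} {h : Perm I} (hf : ∀ i, f (e i) = e (h i)) {i j : I} :
    SameCycle h i j ↔ SameCycle f (e i) (e j) := by
  constructor
  · intro hij
    refine sc_induct (π := h) (fun i j => SameCycle f (e i) (e j)) (fun _ => SameCycle.refl _ _)
      (fun _ _ _ h1 h2 => h1.trans h2) ?_ hij
    intro i
    rw [← hf]
    exact sc_step _ _
  · intro hij
    have := sc_induct (π := f) (fun x y => ∀ i, x = e i → ∃ j, y = e j ∧ SameCycle h i j)
      (fun x i hi => ⟨i, hi, SameCycle.refl _ _⟩)
      (fun x y z h1 h2 i hi => by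
        obtain ⟨j, hj, hij⟩ := h1 i hi
        obtain ⟨k, hk, hjk⟩ := h2 j hj
        exact ⟨k, hk, hij.trans hjk⟩)
      (fun x i hi => ⟨h i, by rw [hi, hf], sc_step _ _⟩) hij
    obtain ⟨k, hk, hik⟩ := this i rfl
    rw [he hk]
    exact hik

end split

variable {V : Type*}

/-- relevant darts: the darts of `G` and one marker at every vertex of `W` -/
def Rel (G : SimpleGraph V) (W : Set V) (d : V × V) : Prop := (d.1 ∈ W ∧ d.1 = d.2) ∨ G.Adj d.1 d.2

theorem dummy_remove [Finite V] {ρ : V → Perm V} (hρ : Full ρ) (G : SimpleGraph V) (W : Set V)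
    (Z : Finset (V × V)) (hZ : ∀ d ∈ Z, d.1 ∈ W ∧ ¬ Rel G W d) :
    ∃ ρ' : V → Perm V, (∀ v w, (v, w) ∈ Z → ρ' v w = w) ∧
      (∀ v w w', (v, w) ∉ Z → (v, w') ∉ Z → SameCycle (ρ' v) w w') ∧
      cyc (face ρ' G) = cyc (face ρ G) + Z.card ∧ cyc (sig ρ') = cyc (sig ρ) + Z.card := by
  classical
  induction Z using Finset.induction_on with
  | empty => exact ⟨ρ, by simp, fun v w w' _ _ => hρ v w w', by simp, by simp⟩
  | insert d Z hd ih =>
    obtain ⟨ρ1, h1, h2, h3, h4⟩ := ih (fun d hd => hZ d (Finset.mem_insert_of_mem hd))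
    obtain ⟨v, w⟩ := d
    obtain ⟨hvW, hrel⟩ := hZ (v, w) (Finset.mem_insert_self _ _)
    simp only at hvW
    have hnadj : ¬ G.Adj v w := fun h => hrel (Or.inr h)
    have hvw : w ≠ v := fun h => hrel (Or.inl ⟨hvW, h.symm⟩)
    have hvZ : (v, v) ∉ Z := by
      intro h
      exact (hZ (v, v) (Finset.mem_insert_of_mem h)).2 (Or.inl ⟨hvW, rfl⟩)
    obtain ⟨a, ha⟩ : ∃ a, ρ1 v a = w := (ρ1 v).surjective w
    have haw : a ≠ w := by
      intro h
      subst h
      exact hvw ((h2 v a v hd hvZ).eq_of_left ha)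
    obtain ⟨ρ2, hρ2⟩ : ∃ ρ2, ρ2 = Function.update ρ1 v (ρ1 v * swap a w) := ⟨_, rfl⟩
    have hr2 : ρ2 v = ρ1 v * swap a w := by rw [hρ2, Function.update_self]
    have h2w : ρ2 v w = w := by
      rw [hr2, Perm.mul_apply, swap_apply_right, ha]
    have hfv : flip G (v, w) = (v, w) := flip_not hnadj
    refine ⟨ρ2, ?_, ?_, ?_, ?_⟩
    · intro p q hpq
      rcases Finset.mem_insert.1 hpq with h | h
      · obtain ⟨rfl, rfl⟩ := Prod.mk.inj h
        exact h2w
      · by_cases hp : p = v
        · subst hp
          have hqfix := h1 p q h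
          have hqw : q ≠ w := fun h' => hd (h' ▸ h)
          have hqa : q ≠ a := by
            intro h'
            rw [← h', hqfix] at ha
            exact hqw ha
          rw [hr2, Perm.mul_apply, swap_apply_of_ne_of_ne hqa hqw, hqfix]
        · rw [hρ2, Function.update_of_ne hp]
          exact h1 p q h
    · intro p q q' hq hq'
      have hqZ : (p, q) ∉ Z := fun h => hq (Finset.mem_insert_of_mem h)
      have hqZ' : (p, q') ∉ Z := fun h => hq' (Finset.mem_insert_of_mem h)
      by_cases hp : p = v
      · subst hp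
        have hqw : q ≠ w := fun h => hq (h ▸ Finset.mem_insert_self _ _)
        have hqw' : q' ≠ w := fun h => hq' (h ▸ Finset.mem_insert_self _ _)
        have hns : ¬ SameCycle (ρ2 p) a w := fun h => haw (h.eq_of_right h2w)
        have hback : ρ1 p = ρ2 p * swap a w := by
          rw [hr2, mul_assoc, swap_mul_self, mul_one]
        have h5 := h2 p q q' hqZ hqZ'
        rw [hback, sc_merge hns] at h5
        rcases h5 with h5 | ⟨h5, h6⟩
        · exact h5
        · have h5' : SameCycle (ρ2 p) q a := h5.resolve_right (fun h => hqw (h.eq_of_right h2w))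
          have h6' : SameCycle (ρ2 p) q' a := h6.resolve_right (fun h => hqw' (h.eq_of_right h2w))
          exact h5'.trans h6'.symm
      · rw [hρ2, Function.update_of_ne hp]
        exact h2 p q q' hqZ hqZ'
    · have e1 : cyc (face ρ2 G) = cyc (face ρ1 G) + 1 := by
        rw [hρ2, face_update, hfv]
        apply cyc_split
        · intro h
          have := congrArg (flip G) h
          rw [flip_flip, hfv] at this
          exact haw (Prod.mk.inj this).2
        · have : face ρ1 G (flip G (v, a)) = (v, w) := by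
            rw [face, Perm.mul_apply, flip_flip, sig_apply, ha]
          rw [← this]
          exact sc_step _ _
      rw [e1, h3, Finset.card_insert_of_notMem hd]
      omega
    · have e1 : cyc (sig ρ2) = cyc (sig ρ1) + 1 := by
        rw [hρ2, sig_update]
        apply cyc_split
        · intro h
          exact haw (Prod.mk.inj h).2
        · have : sig ρ1 (v, a) = (v, w) := by rw [sig_apply, ha]
          rw [← this]
          exact sc_step _ _
      rw [e1, h4, Finset.card_insert_of_notMem hd]
      omega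

theorem spanning_forest [Finite V] (ρ' : V → Perm V) (G : SimpleGraph V) (Z : Set (V × V))
    (hZ : ∀ d ∈ Z, ¬ G.Adj d.1 d.2)
    (hrow : ∀ v w w', (v, w) ∉ Z → (v, w') ∉ Z → SameCycle (ρ' v) w w') :
    ∃ T ≤ G, (∀ a b, T.Reachable a b ↔ G.Reachable a b) ∧
      cyc (face ρ' T) + T.edgeSet.ncard = cyc (sig ρ') ∧ kap T + T.edgeSet.ncard = Nat.card V ∧
      ∀ d d' : V × V, d ∉ Z → d' ∉ Z → T.Reachable d.1 d'.1 → SameCycle (face ρ' T) d d' := by
  classical
  refine edge_induct (H := ⊥) (G := G) bot_le
    (fun K => ∃ T ≤ K, (∀ a b, T.Reachable a b ↔ K.Reachable a b) ∧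
      cyc (face ρ' T) + T.edgeSet.ncard = cyc (sig ρ') ∧ kap T + T.edgeSet.ncard = Nat.card V ∧
      ∀ d d' : V × V, d ∉ Z → d' ∉ Z → T.Reachable d.1 d'.1 → SameCycle (face ρ' T) d d') ?_ ?_
  · refine ⟨⊥, le_refl _, fun _ _ => Iff.rfl, ?_, ?_, ?_⟩
    · rw [face_bot]
      simp
    · rw [kap_bot]
      simp
    · rintro ⟨a, b⟩ ⟨a', b'⟩ h1 h2 h3
      have h4 : a = a' := reach_induct (G := (⊥ : SimpleGraph V)) (fun a b => a = b)
        (fun _ => rfl) (fun _ _ _ h1 h2 => h1.trans h2) (fun a b h => absurd h (by simp)) h3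
      subst h4
      rw [face_bot]
      exact sc_sig_of (hrow a b b' h1 h2)
  · rintro K u v _ hKG hK hG ⟨T, hTK, hT1, hT2, hT3, hT4⟩
    by_cases hr : K.Reachable u v
    · refine ⟨T, hTK.trans le_sup_left, ?_, hT2, hT3, hT4⟩
      intro a b
      rw [hT1, reach_add_of hr]
    · have hrT : ¬ T.Reachable u v := fun h => hr ((hT1 u v).1 h)
      have hne : u ≠ v := hG.ne
      have hTadj : ¬ T.Adj u v := fun h => hK (hTK h)
      refine ⟨T ⊔ edge u v, sup_le_sup_right hTK _, ?_, ?_, ?_, ?_⟩
      · intro a b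
        rw [reach_add, reach_add]
        simp only [hT1]
      · rw [ecard_add hTadj hne]
        have : cyc (face ρ' (T ⊔ edge u v)) + 1 = cyc (face ρ' T) := by
          rw [face_add hTadj hne]
          apply cyc_merge
          intro h
          exact hrT (face_reach h)
        omega
      · rw [ecard_add hTadj hne]
        have := kap_add_not hrT
        omega
      · intro d d' hd hd' hdd
        have hns : ¬ SameCycle (face ρ' T) (u, v) (v, u) := fun h => hrT (face_reach h)
        have huv : (u, v) ∉ Z := fun h => hZ _ h hG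
        have hvu : (v, u) ∉ Z := fun h => hZ _ h hG.symm
        rw [face_add hTadj hne, sc_merge hns]
        rw [reach_add] at hdd
        rcases hdd with h | ⟨h1, h2⟩
        · exact Or.inl (hT4 d d' hd hd' h)
        · right
          constructor
          · rcases h1 with h | h
            · exact Or.inl (hT4 d (u, v) hd huv h)
            · exact Or.inr (hT4 d (v, u) hd hvu h)
          · rcases h2 with h | h
            · exact Or.inl (hT4 d' (u, v) hd' huv h)
            · exact Or.inr (hT4 d' (v, u) hd' hvu h)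

theorem dart_ncard [Finite V] (G : SimpleGraph V) :
    {d : V × V | G.Adj d.1 d.2}.ncard = 2 * G.edgeSet.ncard := by
  refine edge_induct (H := ⊥) (G := G) bot_le
    (fun K => {d : V × V | K.Adj d.1 d.2}.ncard = 2 * K.edgeSet.ncard) ?_ ?_
  · simp
  · intro K u v _ _ hK hG ih
    have hne : u ≠ v := hG.ne
    rw [ecard_add hK hne]
    have h1 : {d : V × V | (K ⊔ edge u v).Adj d.1 d.2} =
        insert (u, v) (insert (v, u) {d : V × V | K.Adj d.1 d.2}) := by
      ext ⟨a, b⟩
      simp only [Set.mem_ofPred_eq, sup_adj, edge_adj, Set.mem_insert_iff, Prod.mk.injEq]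
      constructor
      · rintro (h | ⟨⟨rfl, rfl⟩ | ⟨rfl, rfl⟩, _⟩)
        · exact Or.inr (Or.inr h)
        · exact Or.inl ⟨rfl, rfl⟩
        · exact Or.inr (Or.inl ⟨rfl, rfl⟩)
      · rintro (⟨rfl, rfl⟩ | ⟨rfl, rfl⟩ | h)
        · exact Or.inr ⟨Or.inl ⟨rfl, rfl⟩, hne⟩
        · exact Or.inr ⟨Or.inr ⟨rfl, rfl⟩, hne.symm⟩
        · exact Or.inl h
    rw [h1, Set.ncard_insert_of_notMem, Set.ncard_insert_of_notMem, ih]
    · ring
    · simp only [Set.mem_ofPred_eq]
      exact fun h => hK h.symm
    · simp only [Set.mem_insert_iff, Prod.mk.injEq, Set.mem_ofPred_eq]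
      rintro (⟨h, _⟩ | h)
      · exact hne h
      · exact hK h

end Pool.Agent.Helper98.Gn
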