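import Pool.Agent.Helper98.Gn.EncA

/-! The code of an embedded connected graph. -/

namespace Pool.Agent.Helper98.Gn

open Equiv Equiv.Perm SimpleGraph

variable {V : Type*}

/-- the graph described by a code -/
def decode {N : ℕ} (βT βX : Perm (Fin N)) (l : Fin N → V) : SimpleGraph V where
  Adj u v := u ≠ v ∧ ∃ i, βT (βX i) ≠ i ∧
    ((l i = u ∧ l (βT (βX i)) = v) ∨ (l i = v ∧ l (βT (βX i)) = u))
  symm := ⟨fun _ _ h => ⟨h.1.symm, by
    obtain ⟨i, hi, h | h⟩ := h.2
    · exact ⟨i, hi, Or.inr h⟩
    · exact ⟨i, hi, Or.inl h⟩⟩⟩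
  loopless := ⟨fun _ h => h.1 rfl⟩

/-- labellings compatible with the vertex partition -/
def Lab {N : ℕ} (W : Set V) (π : Perm (Fin N)) : Set (Fin N → V) :=
  {l | (∀ i, l i ∈ W) ∧ (∀ i, l (π i) = l i) ∧ ∀ i j, l i = l j → SameCycle π i j}

theorem lab_card [Finite V] {N : ℕ} (W : Set V) (π : Perm (Fin N)) :
    (Lab W π).ncard ≤ (W.ncard).factorial := by
  classical
  have hfinQ : Finite (Quotient (SameCycle.setoid π)) := Quotient.finite _
  have := Fintype.ofFinite (Quotient (SameCycle.setoid π))
  have := Fintype.ofFinite V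
  have := Fintype.ofFinite W
  let F : Lab W π → (Quotient (SameCycle.setoid π) ↪ W) := fun l =>
    ⟨Quotient.lift (fun i => (⟨l.1 i, l.2.1 i⟩ : W)) (fun i j hij => by
      apply Subtype.ext
      exact (sc_induct (π := π) (fun i j => l.1 i = l.1 j) (fun _ => rfl)
        (fun _ _ _ h1 h2 => h1.trans h2) (fun i => (l.2.2.1 i).symm) hij)),
      by
        intro p q hpq
        induction p using Quotient.inductionOn with
        | h i =>
          induction q using Quotient.inductionOn with
          | h j =>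
            exact Quotient.sound (l.2.2.2 i j (congrArg Subtype.val hpq))⟩
  have hF : Function.Injective F := by
    intro l l' h
    apply Subtype.ext
    funext i
    have h1 := congrArg (fun (f : Quotient (SameCycle.setoid π) ↪ W) => (f (Quotient.mk _ i)).1) h
    exact h1
  have h1 : Nat.card (Lab W π) ≤ Nat.card (Quotient (SameCycle.setoid π) ↪ W) :=
    Nat.card_le_card_of_injective F hF
  rw [Nat.card_eq_fintype_card (α := (Quotient (SameCycle.setoid π) ↪ W)),
    Fintype.card_embedding_eq] at h1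
  have h2 : Fintype.card W = W.ncard := by
    rw [← Nat.card_eq_fintype_card]
    rfl
  rw [h2] at h1
  have h3 : (Lab W π).ncard = Nat.card (Lab W π) := rfl
  rw [h3]
  refine h1.trans ?_
  rcases Nat.lt_or_ge W.ncard (Fintype.card (Quotient (SameCycle.setoid π))) with h | h
  · rw [Nat.descFactorial_of_lt h]
    exact Nat.zero_le _
  · rw [Nat.descFactorial_eq_div h]
    exact Nat.div_le_self _ _

theorem conj_exists [Finite V] {N : ℕ} {e : Fin N → V × V} (he : Function.Injective e)
    {D : Set (V × V)} (hD : Set.range e = D) {f : Perm (V × V)} (hf : ∀ d ∈ D, f d ∈ D) :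
    ∃ h : Perm (Fin N), ∀ i, f (e i) = e (h i) := by
  have h1 : ∀ i, ∃ j, f (e i) = e j := by
    intro i
    have : f (e i) ∈ Set.range e := by
      rw [hD]
      apply hf
      rw [← hD]
      exact ⟨i, rfl⟩
    obtain ⟨j, hj⟩ := this
    exact ⟨j, hj.symm⟩
  choose h hh using h1
  have hinj : Function.Injective h := by
    intro i j hij
    apply he
    apply f.injective
    rw [hh, hh, hij]
  exact ⟨Equiv.ofBijective h (Finite.injective_iff_bijective.1 hinj), hh⟩

theorem rel_card [Finite V] {G : SimpleGraph V} {W : Set V} :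
    {d : V × V | Rel G W d}.ncard = W.ncard + 2 * G.edgeSet.ncard := by
  classical
  have h1 : {d : V × V | Rel G W d} = (fun v => (v, v)) '' W ∪ {d : V × V | G.Adj d.1 d.2} := by
    ext ⟨a, b⟩
    simp only [Rel, Set.mem_ofPred_eq, Set.mem_union, Set.mem_image, Prod.mk.injEq]
    constructor
    · rintro (⟨h, h'⟩ | h)
      · exact Or.inl ⟨a, h, rfl, h'⟩
      · exact Or.inr h
    · rintro (⟨c, hc, rfl, rfl⟩ | h)
      · exact Or.inl ⟨hc, rfl⟩
      · exact Or.inr h
  rw [h1, Set.ncard_union_eq, dart_ncard, Set.ncard_image_of_injective]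
  · intro a b h
    exact (Prod.mk.inj h).1
  · rw [Set.disjoint_left]
    rintro d ⟨v, _, rfl⟩ h
    exact h.ne rfl

theorem exists_code [Finite V] {W : Set V} (hWne : W.Nonempty) {g m N : ℕ}
    (hN : N = W.ncard + 2 * m) {G : SimpleGraph V} (hW : ∀ u v, G.Adj u v → u ∈ W ∧ v ∈ W)
    (hconn : ∀ a ∈ W, ∀ b ∈ W, G.Reachable a b) (hm : G.edgeSet.ncard = m) (hG : Emb g G) :
    ∃ βT ∈ J 0 (finRotate N), ∃ βX ∈ J g (finRotate N), ∃ l ∈ Lab W (finRotate N * βT),
      decode βT βX l = G := by
  classical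
  have := Fintype.ofFinite V
  obtain ⟨ρ, hρ, hdf⟩ := hG
  let Z : Finset (V × V) := Finset.univ.filter (fun d => d.1 ∈ W ∧ ¬ Rel G W d)
  obtain ⟨ρ', hz1, hz2, hz3, hz4⟩ := dummy_remove hρ G W Z
    (fun d hd => (Finset.mem_filter.1 hd).2)
  obtain ⟨T, hTG, hT1, hT2, hT3, hT4⟩ := spanning_forest ρ' G (Z : Set (V × V))
    (fun d hd h => (Finset.mem_filter.1 (Finset.mem_coe.1 hd)).2.2 (Or.inr h))
    (fun v w w' h1 h2 => hz2 v w w' (fun h => h1 h) (fun h => h2 h))
  let D : Finset (V × V) := Finset.univ.filter (fun d => Rel G W d)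
  have hDmem : ∀ d, d ∈ D ↔ Rel G W d := fun d => by simp [D]
  have hDW : ∀ d, Rel G W d → d.1 ∈ W := by
    rintro d (h | h)
    · exact h.1
    · exact (hW _ _ h).1
  have hDZ : ∀ d, Rel G W d → d ∉ Z := by
    intro d hd h
    exact (Finset.mem_filter.1 h).2.2 hd
  -- `sig ρ'` preserves `D`
  have hsigD : ∀ d, Rel G W d → Rel G W (sig ρ' d) := by
    rintro ⟨v, w⟩ hd
    by_contra hcon
    have hvW : v ∈ W := hDW _ hd
    rw [sig_apply] at hcon
    have hmem : (v, ρ' v w) ∈ Z := Finset.mem_filter.2 ⟨Finset.mem_univ _, hvW, hcon⟩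
    have h1 := hz1 v _ hmem
    have h2 : ρ' v w = w := (ρ' v).injective h1
    rw [h2] at hcon
    exact hcon hd
  have hflipD : ∀ (H : SimpleGraph V), H ≤ G → ∀ d, Rel G W d → Rel G W (flip H d) := by
    rintro H hH ⟨v, w⟩ hd
    by_cases h : H.Adj v w
    · rw [flip_adj h]
      exact Or.inr (hH h).symm
    · rw [flip_not h]
      exact hd
  have hτD : ∀ d, Rel G W d → Rel G W (face ρ' T d) := by
    intro d hd
    rw [face, Perm.mul_apply]
    exact hsigD _ (hflipD T hTG d hd)
  have hcyc : (face ρ' T).IsCycleOn (D : Set (V × V)) := by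
    constructor
    · have hmaps : Set.MapsTo (face ρ' T) (D : Set (V × V)) (D : Set (V × V)) := by
        intro d hd
        rw [Finset.mem_coe, hDmem] at hd ⊢
        exact hτD d hd
      refine ⟨hmaps, (face ρ' T).injective.injOn, ?_⟩
      have himg : (face ρ' T) '' (D : Set (V × V)) = (D : Set (V × V)) :=
        Set.eq_of_subset_of_ncard_le hmaps.image_subset
          (by rw [Set.ncard_image_of_injective _ (face ρ' T).injective]) (Set.toFinite _)
      exact himg.symm.subset
    · intro d hd d' hd'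
      rw [Finset.mem_coe, hDmem] at hd hd'
      apply hT4 d d' (fun h => hDZ d hd h) (fun h => hDZ d' hd' h)
      rw [hT1]
      exact hconn _ (hDW d hd) _ (hDW d' hd')
  have hDcard : D.card = N := by
    have h1 : ((D : Set (V × V))).ncard = D.card := Set.ncard_coe_finset D
    have h2 : (D : Set (V × V)) = {d : V × V | Rel G W d} := by
      ext d
      rw [Finset.mem_coe, hDmem]
      rfl
    rw [← h1, h2, rel_card, hm, hN]
  have hDne : D.Nonempty := by
    obtain ⟨w, hw⟩ := hWne
    exact ⟨(w, w), (hDmem _).2 (Or.inl ⟨hw, rfl⟩)⟩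
  obtain ⟨e, he, heD, heS, her⟩ : ∃ e : Fin N → V × V, Function.Injective e ∧
      (∀ i, e i ∈ D) ∧ (∀ x ∈ D, ∃ i, e i = x) ∧
      ∀ i, (face ρ' T) (e i) = e (finRotate N i) := by
    rw [← hDcard]
    exact enum_cycle hcyc hDne
  have hrange : Set.range e = (D : Set (V × V)) := by
    ext d
    constructor
    · rintro ⟨i, rfl⟩
      exact heD i
    · intro hd
      exact heS d hd
  have hDc : ∀ d, d ∈ (D : Set (V × V)) ↔ Rel G W d := fun d => by
    rw [Finset.mem_coe, hDmem]
  obtain ⟨βT, hβT⟩ := conj_exists he hrange (f := flip T) (fun d hd => by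
    rw [hDc] at hd ⊢
    exact hflipD T hTG d hd)
  obtain ⟨βX, hβX⟩ := conj_exists he hrange (f := flip T * flip G) (fun d hd => by
    rw [hDc] at hd ⊢
    rw [Perm.mul_apply]
    exact hflipD T hTG _ (hflipD G (le_refl _) d hd))
  have hfx : ∀ d : V × V, (flip T * flip G) d =
      if T.Adj d.1 d.2 then d else if G.Adj d.1 d.2 then (d.2, d.1) else d := by
    rintro ⟨a, b⟩
    rw [Perm.mul_apply]
    by_cases h1 : T.Adj a b
    · rw [flip_adj (hTG h1), flip_adj h1.symm]
      simp [h1]
    · by_cases h2 : G.Adj a b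
      · rw [flip_adj h2, flip_not (fun h => h1 h.symm)]
        simp [h1, h2]
      · rw [flip_not h2, flip_not h1]
        simp [h1, h2]
  have hfx2 : ∀ d, (flip T * flip G) ((flip T * flip G) d) = d := by
    intro d
    rw [hfx d]
    by_cases h1 : T.Adj d.1 d.2
    · rw [if_pos h1, hfx, if_pos h1]
    · rw [if_neg h1]
      by_cases h2 : G.Adj d.1 d.2
      · rw [if_pos h2, hfx]
        simp only
        rw [if_neg (fun h => h1 h.symm), if_pos h2.symm]
      · rw [if_neg h2, hfx, if_neg h1, if_neg h2]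
  have hG1 : ∀ i, e (βT (βX i)) = flip G (e i) := by
    intro i
    rw [← hβT, ← hβX, Perm.mul_apply, flip_flip]
  have hsig : ∀ i, sig ρ' (e i) = e ((finRotate N * βT) i) := by
    intro i
    rw [Perm.mul_apply, ← her, ← hβT, face, Perm.mul_apply, flip_flip]
  have hface : ∀ i, face ρ' G (e i) = e ((finRotate N * βX) i) := by
    intro i
    rw [Perm.mul_apply, ← her, ← hβX, face, face, Perm.mul_apply, Perm.mul_apply,
      Perm.mul_apply, flip_flip]
  have hinvT : βT * βT = 1 := by
    ext1 i
    apply he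
    rw [Perm.mul_apply, ← hβT, ← hβT, flip_flip, Perm.one_apply]
  have hinvX : βX * βX = 1 := by
    ext1 i
    apply he
    rw [Perm.mul_apply, ← hβX, ← hβX, hfx2, Perm.one_apply]
  -- supports
  have hsuppT : βT.support.card = 2 * T.edgeSet.ncard := by
    rw [← dart_ncard, ← Set.ncard_coe_finset, ← Set.ncard_image_of_injective _ he]
    congr 1
    ext d
    simp only [Set.mem_image, Finset.mem_coe, Perm.mem_support, Set.mem_ofPred_eq]
    constructor
    · rintro ⟨i, hi, rfl⟩
      by_contra h
      apply hi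
      apply he
      rw [← hβT]
      exact flip_not (u := (e i).1) (v := (e i).2) h
    · intro h
      obtain ⟨i, rfl⟩ := heS d ((hDmem d).2 (Or.inr (hTG h)))
      refine ⟨i, ?_, rfl⟩
      intro hi
      have h1 := hβT i
      rw [hi] at h1
      have h2 : flip T (e i) = ((e i).2, (e i).1) := flip_adj (u := (e i).1) (v := (e i).2) h
      rw [h2] at h1
      have := congrArg Prod.fst h1
      exact h.ne this.symm
  have hsuppX : βX.support.card + 2 * T.edgeSet.ncard = 2 * m := by
    have h1 : βX.support.card = {d : V × V | G.Adj d.1 d.2 ∧ ¬ T.Adj d.1 d.2}.ncard := by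
      rw [← Set.ncard_coe_finset, ← Set.ncard_image_of_injective _ he]
      congr 1
      ext d
      simp only [Set.mem_image, Finset.mem_coe, Perm.mem_support, Set.mem_ofPred_eq]
      constructor
      · rintro ⟨i, hi, rfl⟩
        by_contra h
        apply hi
        apply he
        rw [← hβX, hfx]
        by_cases h1 : T.Adj (e i).1 (e i).2
        · rw [if_pos h1]
        · have h2 : ¬ G.Adj (e i).1 (e i).2 := fun h2 => h ⟨h2, h1⟩
          rw [if_neg h1, if_neg h2]
      · rintro ⟨h, h'⟩
        obtain ⟨i, rfl⟩ := heS d ((hDmem d).2 (Or.inr h))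
        refine ⟨i, ?_, rfl⟩
        intro hi
        have h1 := hβX i
        rw [hi, hfx, if_neg h', if_pos h] at h1
        have := congrArg Prod.fst h1
        exact h.ne this.symm
    have h2 : {d : V × V | G.Adj d.1 d.2 ∧ ¬ T.Adj d.1 d.2} =
        {d : V × V | G.Adj d.1 d.2} \ {d : V × V | T.Adj d.1 d.2} := rfl
    have h3 : {d : V × V | T.Adj d.1 d.2} ⊆ {d : V × V | G.Adj d.1 d.2} := fun d h => hTG h
    have h4 := Set.ncard_sdiff_add_ncard_of_subset h3 (Set.toFinite _)
    rw [dart_ncard, dart_ncard, hm] at h4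
    rw [h1, h2, h4]
  -- cycle counts
  have hnotrel : ∀ d, d ∉ Set.range e → ¬ Rel G W d := by
    intro d hd h
    apply hd
    rw [hrange, hDc]
    exact h
  have hout1 := cyc_out he hface hsig (fun d hd => by
    have h1 : ¬ G.Adj d.1 d.2 := fun h => hnotrel d hd (Or.inr h)
    rw [face, Perm.mul_apply]
    exact congrArg _ (flip_not (u := d.1) (v := d.2) h1))
  have hout2 := cyc_out he her hsig (fun d hd => by
    have h1 : ¬ T.Adj d.1 d.2 := fun h => hnotrel d hd (Or.inr (hTG h))
    rw [face, Perm.mul_apply]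
    exact congrArg _ (flip_not (u := d.1) (v := d.2) h1))
  have hNpos : 0 < N := by
    rw [← hDcard]
    exact hDne.card_pos
  have hneN : Nonempty (Fin N) := ⟨⟨0, hNpos⟩⟩
  have hrot : cyc (finRotate N) = 1 := by
    rw [cyc_eq_one_iff]
    intro i j
    rw [sc_enum he her]
    exact hcyc.2 (heD i) (heD j)
  have hsigfull : cyc (sig ρ) = Nat.card V := cyc_sig_full hρ
  have hkap : kap G = kap T := kap_congr (fun a b => (hT1 a b).symm)
  unfold df at hdf
  rw [hkap, hm] at hdf
  refine ⟨βT, ?_, βX, ?_, fun i => (e i).1, ?_, ?_⟩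
  · rw [J, Finset.mem_filter]
    refine ⟨Finset.mem_univ _, hinvT, ?_⟩
    omega
  · rw [J, Finset.mem_filter]
    refine ⟨Finset.mem_univ _, hinvX, ?_⟩
    omega
  · refine ⟨fun i => hDW _ ((hDmem _).1 (heD i)), ?_, ?_⟩
    · intro i
      change (e ((finRotate N * βT) i)).1 = (e i).1
      rw [← hsig]
      rfl
    · intro i j hij
      rw [sc_enum he hsig]
      have h1 : e i = ((e i).1, (e i).2) := rfl
      have h2 : e j = ((e i).1, (e j).2) := by
        rw [show (e i).1 = (e j).1 from hij]
      rw [h1, h2]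
      apply sc_sig_of
      apply hz2
      · exact hDZ _ ((hDmem _).1 (heD i))
      · rw [← h2]
        exact hDZ _ ((hDmem _).1 (heD j))
  · ext u v
    constructor
    · rintro ⟨_, i, hi, h⟩
      have h1 : G.Adj (e i).1 (e i).2 := by
        by_contra hcon
        apply hi
        apply he
        rw [hG1]
        exact flip_not (u := (e i).1) (v := (e i).2) hcon
      have h2 : (e (βT (βX i))).1 = (e i).2 := by
        rw [hG1]
        have := flip_adj (u := (e i).1) (v := (e i).2) h1
        rw [show e i = ((e i).1, (e i).2) from rfl, this]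
      rcases h with ⟨h3, h4⟩ | ⟨h3, h4⟩
      · simp only at h3 h4
        rw [h2] at h4
        rw [← h3, ← h4]
        exact h1
      · simp only at h3 h4
        rw [h2] at h4
        rw [← h3, ← h4]
        exact h1.symm
    · intro huv
      obtain ⟨i, hi⟩ := heS (u, v) ((hDmem _).2 (Or.inr huv))
      have h1 : e (βT (βX i)) = (v, u) := by rw [hG1, hi, flip_adj huv]
      refine ⟨huv.ne, i, ?_, Or.inl ⟨?_, ?_⟩⟩
      · intro h
        rw [h, hi] at h1
        exact huv.ne (Prod.mk.inj h1).1
      · simp only [hi]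
      · simp only [h1]

/-- Number of connected graphs on `W` with `m` edges of genus at most `g`. -/
theorem conn_count [Finite V] {W : Set V} (hWne : W.Nonempty) (g m : ℕ) :
    {G : SimpleGraph V | (∀ u v, G.Adj u v → u ∈ W ∧ v ∈ W) ∧
      (∀ a ∈ W, ∀ b ∈ W, G.Reachable a b) ∧ G.edgeSet.ncard = m ∧ Emb g G}.ncard ≤
      3 ^ (W.ncard + 2 * m) * ((3 ^ (W.ncard + 2 * m) * (1 + (W.ncard + 2 * m) ^ 4) ^ g) *
        (W.ncard).factorial) := by
  classical
  obtain ⟨N, hN⟩ : ∃ N, N = W.ncard + 2 * m := ⟨_, rfl⟩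
  rw [← hN]
  have hNpos : 0 < N := by
    have : 0 < W.ncard := (Set.ncard_pos (Set.toFinite _)).2 hWne
    omega
  have hneN : Nonempty (Fin N) := ⟨⟨0, hNpos⟩⟩
  have hrot : cyc (finRotate N) = 1 := by
    obtain ⟨M, rfl⟩ : ∃ M, N = M + 1 := ⟨N - 1, by omega⟩
    rw [cyc_eq_one_iff]
    rcases Nat.eq_zero_or_pos M with h | h
    · subst h
      intro a b
      have : a = b := Fin.ext (by have := a.2; have := b.2; omega)
      rw [this]
    · obtain ⟨K, rfl⟩ : ∃ K, M = K + 1 := ⟨M - 1, by omega⟩
      intro a b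
      apply (isCycle_finRotate (n := K)).sameCycle
      · rw [← Perm.mem_support, support_finRotate]
        exact Finset.mem_univ _
      · rw [← Perm.mem_support, support_finRotate]
        exact Finset.mem_univ _
  let S : Finset (SimpleGraph V) := (J 0 (finRotate N)).biUnion (fun βT =>
    (J g (finRotate N)).biUnion (fun βX =>
      ((Set.toFinite (Lab W (finRotate N * βT))).toFinset).image (decode βT βX)))
  have hsub : {G : SimpleGraph V | (∀ u v, G.Adj u v → u ∈ W ∧ v ∈ W) ∧
      (∀ a ∈ W, ∀ b ∈ W, G.Reachable a b) ∧ G.edgeSet.ncard = m ∧ Emb g G} ⊆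
      (S : Set (SimpleGraph V)) := by
    rintro G ⟨h1, h2, h3, h4⟩
    obtain ⟨βT, hT, βX, hX, l, hl, hd⟩ := exists_code hWne hN h1 h2 h3 h4
    rw [Finset.mem_coe, Finset.mem_biUnion]
    refine ⟨βT, hT, ?_⟩
    rw [Finset.mem_biUnion]
    refine ⟨βX, hX, ?_⟩
    rw [Finset.mem_image]
    exact ⟨l, (Set.Finite.mem_toFinset _).2 hl, hd⟩
  have hS : S.card ≤ 3 ^ N * ((3 ^ N * (1 + N ^ 4) ^ g) * (W.ncard).factorial) := by
    calc S.card ≤ (J 0 (finRotate N)).card *
          ((3 ^ N * (1 + N ^ 4) ^ g) * (W.ncard).factorial) := by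
          apply Finset.card_biUnion_le_card_mul
          intro βT _
          calc _ ≤ (J g (finRotate N)).card * (W.ncard).factorial := by
                apply Finset.card_biUnion_le_card_mul
                intro βX _
                refine Finset.card_image_le.trans ?_
                rw [← Set.ncard_eq_toFinset_card]
                exact lab_card W _
            _ ≤ _ := Nat.mul_le_mul_right _ (J_card g _ hrot)
      _ ≤ _ := by
          apply Nat.mul_le_mul_right
          have := J_card 0 (finRotate N) hrot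
          simpa using this
  calc _ ≤ (S : Set (SimpleGraph V)).ncard := Set.ncard_le_ncard hsub (Set.toFinite _)
    _ = S.card := Set.ncard_coe_finset S
    _ ≤ _ := hS

end Pool.Agent.Helper98.Gn
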