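import Pool.Agent.Helper98.Gn.EncB

/-! Smallness of the class of graphs of genus at most `g`. -/

namespace Pool.Agent.Helper98.Gn

open Equiv Equiv.Perm SimpleGraph

variable {V : Type*}

theorem exists_connected_ext [Finite V] {W : Set V} {g : ℕ} :
    ∀ (k : ℕ) (G : SimpleGraph V), kap G = k → (∀ u v, G.Adj u v → u ∈ W ∧ v ∈ W) → Emb g G →
      ∃ H, G ≤ H ∧ (∀ u v, H.Adj u v → u ∈ W ∧ v ∈ W) ∧ (∀ a ∈ W, ∀ b ∈ W, H.Reachable a b) ∧
        Emb g H ∧ H.edgeSet.ncard + kap H = G.edgeSet.ncard + kap G := by
  intro k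
  induction k with
  | zero =>
    intro G hk hW hG
    refine ⟨G, le_refl _, hW, ?_, hG, rfl⟩
    intro a ha b hb
    exfalso
    unfold kap at hk
    have : Finite G.ConnectedComponent := by
      unfold SimpleGraph.ConnectedComponent
      infer_instance
    have h1 : IsEmpty G.ConnectedComponent := by
      rcases Nat.card_eq_zero.1 hk with h | h
      · exact h
      · exact absurd this (not_finite_iff_infinite.2 h)
    exact h1.elim (G.connectedComponentMk a)
  | succ k ih =>
    intro G hk hW hG
    by_cases hc : ∀ a ∈ W, ∀ b ∈ W, G.Reachable a b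
    · exact ⟨G, le_refl _, hW, hc, hG, rfl⟩
    · push Not at hc
      obtain ⟨a, ha, b, hb, hab⟩ := hc
      have h1 := kap_add_not hab
      have hne : a ≠ b := fun h => hab (h ▸ Reachable.refl a)
      have h2 := ecard_add (fun h => hab (Adj.reachable h)) hne
      obtain ⟨H, hH1, hH2, hH3, hH4, hH5⟩ := ih (G ⊔ edge a b) (by omega) (by
        intro u v huv
        rw [sup_adj, edge_adj] at huv
        rcases huv with h | ⟨⟨rfl, rfl⟩ | ⟨rfl, rfl⟩, _⟩
        · exact hW u v h
        · exact ⟨ha, hb⟩
        · exact ⟨hb, ha⟩) (hG.add_bridge hab)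
      exact ⟨H, le_sup_left.trans hH1, hH2, hH3, hH4, by omega⟩

/-- the exponential factor -/
def Bd (g n : ℕ) : ℕ :=
  (3 * n + 1) * (2 ^ (3 * n) * (3 ^ (7 * n) * (3 ^ (7 * n) * (1 + (7 * n) ^ 4) ^ g)))

theorem Bd_pos (g n : ℕ) : 0 < Bd g n := by
  unfold Bd
  positivity

theorem kap_le [Finite V] (G : SimpleGraph V) : kap G ≤ Nat.card V := by
  unfold kap
  exact Nat.card_le_card_of_surjective (fun v => G.connectedComponentMk v)
    (fun c => c.exists_rep)

theorem subgraph_count [Finite V] (H : SimpleGraph V) :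
    {G : SimpleGraph V | G ≤ H}.ncard ≤ 2 ^ H.edgeSet.ncard := by
  classical
  let S : Finset (Sym2 V) := (Set.toFinite H.edgeSet).toFinset
  have hsub : {G : SimpleGraph V | G ≤ H} ⊆
      ((S.powerset.image (fun s : Finset (Sym2 V) => fromEdgeSet (s : Set (Sym2 V))) :
        Finset (SimpleGraph V)) : Set (SimpleGraph V)) := by
    intro G hG
    rw [Finset.mem_coe, Finset.mem_image]
    refine ⟨(Set.toFinite G.edgeSet).toFinset, ?_, ?_⟩
    · rw [Finset.mem_powerset]
      intro x hx
      rw [Set.Finite.mem_toFinset] at hx ⊢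
      exact edgeSet_subset_edgeSet.2 hG hx
    · rw [Set.Finite.coe_toFinset, fromEdgeSet_edgeSet]
  calc _ ≤ _ := Set.ncard_le_ncard hsub (Set.toFinite _)
    _ = _ := Set.ncard_coe_finset _
    _ ≤ S.powerset.card := Finset.card_image_le
    _ = 2 ^ H.edgeSet.ncard := by
        rw [Finset.card_powerset, Set.ncard_eq_toFinset_card]

theorem small_count [Finite V] {W : Set V} {g m n : ℕ} (hn : Nat.card V = n) (hm : m ≤ 2 * n) :
    {G : SimpleGraph V | (∀ u v, G.Adj u v → u ∈ W ∧ v ∈ W) ∧ G.edgeSet.ncard = m ∧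
      Emb g G}.ncard ≤ Bd g n * (W.ncard).factorial := by
  classical
  have := Fintype.ofFinite V
  rcases Set.eq_empty_or_nonempty W with hW | hW
  · subst hW
    have hsub : {G : SimpleGraph V | (∀ u v, G.Adj u v → u ∈ (∅ : Set V) ∧ v ∈ (∅ : Set V)) ∧
        G.edgeSet.ncard = m ∧ Emb g G} ⊆ {⊥} := by
      rintro G ⟨h, -⟩
      rw [Set.mem_singleton_iff]
      ext u v
      constructor
      · intro h1
        exact absurd (h u v h1).1 (Set.notMem_empty _)
      · intro h1
        exact absurd h1 (by simp)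
    calc _ ≤ ({⊥} : Set (SimpleGraph V)).ncard := Set.ncard_le_ncard hsub (Set.toFinite _)
      _ = 1 := Set.ncard_singleton _
      _ ≤ _ := by
          have := Bd_pos g n
          rw [Set.ncard_empty, Nat.factorial_zero]
          omega
  · let CS : ℕ → Set (SimpleGraph V) := fun M => {G : SimpleGraph V |
      (∀ u v, G.Adj u v → u ∈ W ∧ v ∈ W) ∧
      (∀ a ∈ W, ∀ b ∈ W, G.Reachable a b) ∧ G.edgeSet.ncard = M ∧ Emb g G}
    let S : Finset (SimpleGraph V) := (Finset.range (3 * n + 1)).biUnion (fun M =>
      ((Set.toFinite (CS M)).toFinset).biUnion (fun H =>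
        (Set.toFinite {G : SimpleGraph V | G ≤ H}).toFinset))
    have hsub : {G : SimpleGraph V | (∀ u v, G.Adj u v → u ∈ W ∧ v ∈ W) ∧
        G.edgeSet.ncard = m ∧ Emb g G} ⊆ (S : Set (SimpleGraph V)) := by
      rintro G ⟨h1, h2, h3⟩
      obtain ⟨H, hH1, hH2, hH3, hH4, hH5⟩ := exists_connected_ext _ G rfl h1 h3
      rw [Finset.mem_coe, Finset.mem_biUnion]
      refine ⟨H.edgeSet.ncard, ?_, ?_⟩
      · rw [Finset.mem_range]
        have := kap_le G
        omega
      · rw [Finset.mem_biUnion]
        refine ⟨H, ?_, ?_⟩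
        · rw [Set.Finite.mem_toFinset]
          exact ⟨hH2, hH3, rfl, hH4⟩
        · rw [Set.Finite.mem_toFinset]
          exact hH1
    have hWn : W.ncard ≤ n := by
      rw [← hn]
      exact Set.ncard_le_card W
    have hcount : S.card ≤ (3 * n + 1) * ((3 ^ (7 * n) * ((3 ^ (7 * n) *
        (1 + (7 * n) ^ 4) ^ g) * (W.ncard).factorial)) * 2 ^ (3 * n)) := by
      calc S.card ≤ (Finset.range (3 * n + 1)).card * ((3 ^ (7 * n) * ((3 ^ (7 * n) *
        (1 + (7 * n) ^ 4) ^ g) * (W.ncard).factorial)) * 2 ^ (3 * n)) := by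
            apply Finset.card_biUnion_le_card_mul
            intro M hM
            rw [Finset.mem_range] at hM
            have hM1 : W.ncard + 2 * M ≤ 7 * n := by omega
            calc _ ≤ ((Set.toFinite (CS M)).toFinset).card * 2 ^ (3 * n) := by
                  apply Finset.card_biUnion_le_card_mul
                  intro H hH
                  rw [Set.Finite.mem_toFinset] at hH
                  rw [← Set.ncard_eq_toFinset_card]
                  refine (subgraph_count H).trans ?_
                  apply Nat.pow_le_pow_right (by norm_num)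
                  have := hH.2.2.1
                  omega
              _ ≤ _ := by
                  apply Nat.mul_le_mul_right
                  rw [← Set.ncard_eq_toFinset_card]
                  refine (conn_count hW g M).trans ?_
                  gcongr <;> norm_num
        _ = _ := by rw [Finset.card_range]
    calc _ ≤ (S : Set (SimpleGraph V)).ncard := Set.ncard_le_ncard hsub (Set.toFinite _)
      _ = S.card := Set.ncard_coe_finset S
      _ ≤ _ := hcount
      _ = _ := by
        unfold Bd
        ring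

/-- the number of isolated vertices -/
noncomputable def iso (G : SimpleGraph V) : ℕ := {v | ∀ w, ¬ G.Adj v w}.ncard

theorem iso_count [Finite V] {g m n : ℕ} (hn : Nat.card V = n) (hm : m ≤ 2 * n) (i : ℕ) :
    {G : SimpleGraph V | G.edgeSet.ncard = m ∧ Emb g G ∧ i ≤ iso G}.ncard ≤
      2 ^ n * (Bd g n * (n - i).factorial) := by
  classical
  have := Fintype.ofFinite V
  let T : Finset (Finset V) := (Finset.univ : Finset (Finset V)).filter (fun W => W.card ≤ n - i)
  let S : Finset (SimpleGraph V) := T.biUnion (fun W =>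
    (Set.toFinite {G : SimpleGraph V | (∀ u v, G.Adj u v → u ∈ (W : Set V) ∧ v ∈ (W : Set V)) ∧
      G.edgeSet.ncard = m ∧ Emb g G}).toFinset)
  have hsub : {G : SimpleGraph V | G.edgeSet.ncard = m ∧ Emb g G ∧ i ≤ iso G} ⊆
      (S : Set (SimpleGraph V)) := by
    rintro G ⟨h1, h2, h3⟩
    rw [Finset.mem_coe, Finset.mem_biUnion]
    refine ⟨(Set.toFinite {v | ∀ w, ¬ G.Adj v w}ᶜ).toFinset, ?_, ?_⟩
    · rw [Finset.mem_filter]
      refine ⟨Finset.mem_univ _, ?_⟩
      rw [← Set.ncard_eq_toFinset_card]
      have := Set.ncard_add_ncard_compl {v | ∀ w, ¬ G.Adj v w}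
      unfold iso at h3
      omega
    · rw [Set.Finite.mem_toFinset]
      refine ⟨?_, h1, h2⟩
      intro u v huv
      rw [Set.Finite.coe_toFinset]
      exact ⟨fun h => h v huv, fun h => h u huv.symm⟩
  have hT : T.card ≤ 2 ^ n := by
    calc T.card ≤ (Finset.univ : Finset (Finset V)).card := Finset.card_filter_le _ _
      _ = 2 ^ n := by
          rw [Finset.card_univ, Fintype.card_finset, ← Nat.card_eq_fintype_card, hn]
  calc _ ≤ (S : Set (SimpleGraph V)).ncard := Set.ncard_le_ncard hsub (Set.toFinite _)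
    _ = S.card := Set.ncard_coe_finset S
    _ ≤ T.card * (Bd g n * (n - i).factorial) := by
        apply Finset.card_biUnion_le_card_mul
        intro W hW
        rw [← Set.ncard_eq_toFinset_card]
        refine (small_count hn hm).trans ?_
        apply Nat.mul_le_mul_left
        rw [Set.ncard_coe_finset]
        exact Nat.factorial_le (Finset.mem_filter.1 hW).2
    _ ≤ _ := Nat.mul_le_mul_right _ hT

end Pool.Agent.Helper98.Gn
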