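import Pool.Agent.Helper98.Gn.Rot

/-! Additivity of the Euler defect over closed sets; cut edges. -/

namespace Pool.Agent.Helper98.Gn

open Equiv Equiv.Perm SimpleGraph

variable {V : Type*}

/-- The spanning subgraph of `G` formed by the edges with both ends in `S`. -/
def inside (G : SimpleGraph V) (S : Set V) : SimpleGraph V where
  Adj u v := G.Adj u v ∧ u ∈ S ∧ v ∈ S
  symm := ⟨fun _ _ h => ⟨h.1.symm, h.2.2, h.2.1⟩⟩
  loopless := ⟨fun _ h => h.1.ne rfl⟩

theorem inside_adj {G : SimpleGraph V} {S : Set V} {u v : V} :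
    (inside G S).Adj u v ↔ G.Adj u v ∧ u ∈ S ∧ v ∈ S := Iff.rfl

theorem inside_le (G : SimpleGraph V) (S : Set V) : inside G S ≤ G := fun _ _ h => h.1

theorem inside_mono (G : SimpleGraph V) {S T : Set V} (h : S ⊆ T) : inside G S ≤ inside G T :=
  fun _ _ h1 => ⟨h1.1, h h1.2.1, h h1.2.2⟩

theorem inside_mono_graph {G H : SimpleGraph V} (h : G ≤ H) (S : Set V) :
    inside G S ≤ inside H S :=
  fun _ _ h1 => ⟨h h1.1, h1.2.1, h1.2.2⟩

/-- No edge of `G` leaves `S`. -/
def Closed (G : SimpleGraph V) (S : Set V) : Prop := ∀ u v, G.Adj u v → u ∈ S → v ∈ S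

theorem Closed.compl {G : SimpleGraph V} {S : Set V} (h : Closed G S) : Closed G Sᶜ :=
  fun u v huv hu hv => hu (h v u huv.symm hv)

theorem Closed.reach {G : SimpleGraph V} {S : Set V} (h : Closed G S) {u v : V}
    (hr : G.Reachable u v) (hu : u ∈ S) : v ∈ S :=
  reach_induct (G := G) (fun a b => a ∈ S → b ∈ S) (fun _ h => h)
    (fun _ _ _ h1 h2 h => h2 (h1 h)) h hr hu

theorem inside_sup_compl {G : SimpleGraph V} {S : Set V} (h : Closed G S) :
    inside G Sᶜ ⊔ inside G S = G := by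
  ext u v
  rw [sup_adj, inside_adj, inside_adj]
  constructor
  · rintro (h1 | h1)
    · exact h1.1
    · exact h1.1
  · intro h1
    by_cases hu : u ∈ S
    · exact Or.inr ⟨h1, hu, h u v h1 hu⟩
    · exact Or.inl ⟨h1, hu, h.compl u v h1 hu⟩

theorem sc_agree [Finite V] {f g : Perm (V × V)} {S : Set (V × V)}
    (h : ∀ d ∈ S, f d ∈ S ∧ f d = g d) {a b : V × V} (ha : a ∈ S) (hab : SameCycle f a b) :
    SameCycle g a b := by
  have := sc_induct (π := f) (fun a b => a ∈ S → b ∈ S ∧ SameCycle g a b)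
    (fun a ha => ⟨ha, SameCycle.refl _ _⟩)
    (fun a b c h1 h2 ha => ⟨(h2 (h1 ha).1).1, (h1 ha).2.trans (h2 (h1 ha).1).2⟩)
    (fun z hz => ⟨(h z hz).1, by rw [(h z hz).2]; exact sc_step _ _⟩) hab
  exact (this ha).2

theorem df_glue [Finite V] {ρ ρ' : V → Perm V} (hρ' : Full ρ') {A : Set V}
    (hagree : ∀ v ∈ A, ρ v = ρ' v) {H K : SimpleGraph V} (hH : ∀ u ∈ A, ∀ v, ¬ H.Adj u v)
    (hK : ∀ u v, K.Adj u v → u ∈ A ∧ v ∈ A) : df ρ (H ⊔ K) = df ρ H + df ρ' K := by
  refine edge_induct (H := ⊥) (G := K) bot_le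
    (fun K => df ρ (H ⊔ K) = df ρ H + df ρ' K) ?_ ?_
  · rw [sup_bot_eq, df_bot hρ']
    simp
  · intro L u v _ hLK hL hKuv ih
    obtain ⟨hu, hv⟩ := hK u v hKuv
    have hLA : ∀ u v, L.Adj u v → u ∈ A ∧ v ∈ A := fun u v h => hK u v (hLK h)
    have hne : u ≠ v := hKuv.ne
    have hadj : ¬ (H ⊔ L).Adj u v := by
      rw [sup_adj]
      rintro (h | h)
      · exact hH u hu v h
      · exact hL h
    have hreach : (H ⊔ L).Reachable u v ↔ L.Reachable u v := by
      constructor
      · intro h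
        have := reach_induct (G := H ⊔ L) (fun a b => a ∈ A → b ∈ A ∧ L.Reachable a b)
          (fun a ha => ⟨ha, Reachable.refl _⟩)
          (fun a b c h1 h2 ha => ⟨(h2 (h1 ha).1).1, (h1 ha).2.trans (h2 (h1 ha).1).2⟩)
          (fun a b hab ha => by
            rw [sup_adj] at hab
            rcases hab with h | h
            · exact absurd h (hH a ha b)
            · exact ⟨(hLA a b h).2, h.reachable⟩) h
        exact (this hu).2
      · intro h
        exact h.mono le_sup_right
    have hstep : ∀ d : V × V, d.1 ∈ A → (face ρ (H ⊔ L) d).1 ∈ A ∧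
        face ρ (H ⊔ L) d = face ρ' L d := by
      rintro ⟨a, b⟩ ha
      simp only at ha
      by_cases hab : L.Adj a b
      · have h2 : (H ⊔ L).Adj a b := Or.inr hab
        rw [face_adj hab, face_adj h2]
        have hb := (hLA a b hab).2
        exact ⟨hb, by rw [hagree b hb]⟩
      · have h2 : ¬ (H ⊔ L).Adj a b := by
          rintro (h | h)
          · exact hH a ha b h
          · exact hab h
        rw [face_not hab, face_not h2]
        exact ⟨ha, by rw [hagree a ha]⟩
    have hsc : SameCycle (face ρ (H ⊔ L)) (u, v) (v, u) ↔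
        SameCycle (face ρ' L) (u, v) (v, u) := by
      constructor
      · exact sc_agree (S := {d | d.1 ∈ A}) (fun d hd => hstep d hd) hu
      · exact sc_agree (S := {d | d.1 ∈ A})
          (fun d hd => ⟨by rw [← (hstep d hd).2]; exact (hstep d hd).1, (hstep d hd).2.symm⟩) hu
    rw [← sup_assoc]
    by_cases hr : L.Reachable u v
    · by_cases hs : SameCycle (face ρ' L) (u, v) (v, u)
      · rw [df_add_split hadj hne (hsc.2 hs), df_add_split hL hne hs, ih]
      · rw [df_add_merge hadj hne (hreach.2 hr) (fun h => hs (hsc.1 h)),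
          df_add_merge hL hne hr hs, ih]
        ring
    · rw [df_add_not (fun h => hr (hreach.1 h)), df_add_not hr, ih]

theorem Emb.glue [Finite V] {a b : ℕ} {G : SimpleGraph V} {S : Set V} (hS : Closed G S)
    (h1 : Emb a (inside G S)) (h2 : Emb b (inside G Sᶜ)) : Emb (a + b) G := by
  classical
  obtain ⟨ρ1, hρ1, h1⟩ := h1
  obtain ⟨ρ2, hρ2, h2⟩ := h2
  let ρ : V → Perm V := fun v => if v ∈ S then ρ1 v else ρ2 v
  have hρ : Full ρ := by
    intro v a b
    by_cases hv : v ∈ S
    · simp only [ρ, hv, if_true]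
      exact hρ1 v a b
    · simp only [ρ, hv, if_false]
      exact hρ2 v a b
  refine ⟨ρ, hρ, ?_⟩
  have e1 : df ρ (inside G Sᶜ ⊔ inside G S) = df ρ (inside G Sᶜ) + df ρ1 (inside G S) := by
    apply df_glue hρ1 (A := S)
    · intro v hv
      simp [ρ, hv]
    · intro u hu v h
      exact h.2.1 hu
    · intro u v h
      exact h.2
  have e2 : df ρ (⊥ ⊔ inside G Sᶜ) = df ρ ⊥ + df ρ2 (inside G Sᶜ) := by
    apply df_glue hρ2 (A := Sᶜ)
    · intro v hv
      have : v ∉ S := hv
      simp [ρ, this]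
    · intro u _ v h
      simp at h
    · intro u v h
      exact h.2
  rw [inside_sup_compl hS] at e1
  rw [bot_sup_eq, df_bot hρ] at e2
  rw [e1, e2]
  push_cast
  linarith

theorem disjoint_nonplanar_le [Finite V] {g : ℕ} {G : SimpleGraph V} (hG : Emb g G)
    (T : Finset (Set V)) (hd : ∀ Q ∈ T, ∀ Q' ∈ T, Q ≠ Q' → Disjoint Q Q')
    (hn : ∀ Q ∈ T, ¬ Emb 0 (inside G Q)) : T.card ≤ 2 * g := by
  classical
  obtain ⟨ρ, hρ, hg⟩ := hG
  have key : ∀ T : Finset (Set V), (∀ Q ∈ T, ∀ Q' ∈ T, Q ≠ Q' → Disjoint Q Q') →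
      (∀ Q ∈ T, ¬ Emb 0 (inside G Q)) → ∃ H ≤ G, (∀ u v, H.Adj u v → ∃ Q ∈ T, u ∈ Q ∧ v ∈ Q) ∧
        (T.card : ℤ) ≤ df ρ H := by
    intro T
    induction T using Finset.induction_on with
    | empty =>
      intro _ _
      refine ⟨⊥, bot_le, fun u v h => absurd h (by simp), ?_⟩
      rw [df_bot hρ]
      simp
    | insert Q T hQ ih =>
      intro hd hn
      obtain ⟨H, hHG, hH1, hH2⟩ := ih
        (fun Q hQ Q' hQ' => hd Q (Finset.mem_insert_of_mem hQ) Q' (Finset.mem_insert_of_mem hQ'))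
        (fun Q hQ => hn Q (Finset.mem_insert_of_mem hQ))
      refine ⟨H ⊔ inside G Q, sup_le hHG (inside_le G Q), ?_, ?_⟩
      · intro u v h
        rcases h with h | h
        · obtain ⟨Q', hQ', h'⟩ := hH1 u v h
          exact ⟨Q', Finset.mem_insert_of_mem hQ', h'⟩
        · exact ⟨Q, Finset.mem_insert_self _ _, h.2⟩
      · have e1 : df ρ (H ⊔ inside G Q) = df ρ H + df ρ (inside G Q) := by
          apply df_glue hρ (A := Q)
          · intro _ _
            rfl
          · intro u hu v h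
            obtain ⟨Q', hQ', h1, h2⟩ := hH1 u v h
            have hne : Q ≠ Q' := fun h => hQ (h ▸ hQ')
            have := hd Q (Finset.mem_insert_self _ _) Q' (Finset.mem_insert_of_mem hQ') hne
            exact Set.disjoint_left.1 this hu h1
          · intro u v h
            exact h.2
        have e2 : 0 < df ρ (inside G Q) := by
          by_contra hcon
          apply hn Q (Finset.mem_insert_self _ _)
          exact ⟨ρ, hρ, by push_cast; omega⟩
        rw [Finset.card_insert_of_notMem hQ, e1]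
        push_cast
        omega
  obtain ⟨H, hHG, _, hH⟩ := key T hd hn
  have := df_mono ρ hHG
  omega

/-- `a b` is the only edge entering some set `K` with `a ∉ K`, `b ∈ K`. -/
def IsCut (G : SimpleGraph V) (a b : V) : Prop :=
  ∃ K : Set V, a ∉ K ∧ b ∈ K ∧ ∀ u v, G.Adj u v → u ∉ K → v ∈ K → (u = a ∧ v = b)

theorem IsCut.mono {G H : SimpleGraph V} (h : H ≤ G) {a b : V} (hc : IsCut G a b) :
    IsCut H a b := by
  obtain ⟨K, h1, h2, h3⟩ := hc
  exact ⟨K, h1, h2, fun u v huv => h3 u v (h huv)⟩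

theorem IsCut.symm {G : SimpleGraph V} {a b : V} (hc : IsCut G a b) : IsCut G b a := by
  obtain ⟨K, h1, h2, h3⟩ := hc
  refine ⟨Kᶜ, fun h => h h2, h1, fun u v huv hu hv => ?_⟩
  have hu' : u ∈ K := by
    by_contra h
    exact hu h
  have := h3 v u huv.symm hv hu'
  exact ⟨this.2, this.1⟩

theorem IsCut.not_reach {G H : SimpleGraph V} (h : H ≤ G) {a b : V} (hc : IsCut G a b)
    (hab : ¬ H.Adj a b) : ¬ H.Reachable a b := by
  obtain ⟨K, h1, h2, h3⟩ := hc
  intro hr
  have hcl : Closed H Kᶜ := by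
    intro u v huv hu hv
    have := h3 u v (h huv) hu hv
    rw [this.1, this.2] at huv
    exact hab huv
  exact hcl.reach hr h1 h2

theorem Emb.of_cut [Finite V] {g : ℕ} {H G : SimpleGraph V} (hHG : H ≤ G) (hH : Emb g H)
    (hc : ∀ u v, G.Adj u v → ¬ H.Adj u v → IsCut G u v ∨ IsCut G v u) : Emb g G := by
  refine edge_induct hHG (fun K => Emb g K) hH ?_
  intro K u v hHK hKG hK hG hE
  apply hE.add_bridge
  rcases hc u v hG (fun h => hK (hHK h)) with h | h
  · exact h.not_reach hKG hK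
  · exact fun h1 => h.not_reach hKG (fun h2 => hK h2.symm) h1.symm

end Pool.Agent.Helper98.Gn
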