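import Pool.Agent.Helper98.Gn.Std

/-! Embeddability of induced subgraphs. -/

namespace Pool.Agent.Helper98.Gn

open Equiv Equiv.Perm SimpleGraph

theorem embedsOn_transfer {V W : Type*} [Finite V] [Finite W] {H : SimpleGraph V}
    {K : SimpleGraph W} (E : K.Dart ≃ H.Dart) (h1 : ∀ d, E d.symm = (E d).symm)
    (h2 : ∀ d e : K.Dart, d.fst = e.fst ↔ (E d).fst = (E e).fst)
    (h3 : 2 * (kap H : ℤ) + H.edgeSet.ncard - Nat.card V - iso H =
      2 * (kap K : ℤ) + K.edgeSet.ncard - Nat.card W - iso K) {h : ℕ} (hK : EmbedsOn h K) :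
    EmbedsOn h H := by
  have := finite_dart H
  have := finite_dart K
  obtain ⟨σ, hr, hle⟩ := hK
  obtain ⟨σ', hσ'⟩ : ∃ σ' : Perm H.Dart, σ' = E.permCongr σ := ⟨_, rfl⟩
  have hE : ∀ d, σ' (E d) = E (σ d) := by
    intro d
    rw [hσ', Equiv.permCongr_apply, Equiv.symm_apply_apply]
  refine ⟨σ', ?_, ?_⟩
  · intro d e
    obtain ⟨d, rfl⟩ := E.surjective d
    obtain ⟨e, rfl⟩ := E.surjective e
    rw [← sc_enum E.injective hE, ← h2]
    exact hr d e
  · have e1 : cyc (σ * rev K) = cyc (σ' * rev H) := by
      apply cyc_congr E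
      intro d
      change E (σ d.symm) = σ' (E d).symm
      rw [← h1, hE]
    have e2 : faceCount K σ = cyc (σ * rev K) + iso K := rfl
    have e3 : faceCount H σ' = cyc (σ' * rev H) + iso H := rfl
    rw [e2] at hle
    rw [e3]
    unfold kap at h3
    push_cast at hle ⊢
    omega

variable {V : Type*}

theorem card_dart [Finite V] (G : SimpleGraph V) : Nat.card G.Dart = 2 * G.edgeSet.ncard := by
  rw [← dart_ncard]
  change _ = Nat.card _
  apply Nat.card_congr
  exact { toFun := fun d => ⟨d.toProd, d.adj⟩
          invFun := fun d => ⟨d.1, d.2⟩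
          left_inv := fun d => rfl
          right_inv := fun d => rfl }

/-- darts of an induced subgraph -/
def dartE (G : SimpleGraph V) (S : Set V) : (G.induce S).Dart ≃ (inside G S).Dart where
  toFun d := ⟨(d.fst.1, d.snd.1), ⟨d.adj, d.fst.2, d.snd.2⟩⟩
  invFun d := ⟨(⟨d.fst, d.adj.2.1⟩, ⟨d.snd, d.adj.2.2⟩), d.adj.1⟩
  left_inv _ := rfl
  right_inv _ := rfl

theorem reach_inside {G : SimpleGraph V} {S : Set V} {a b : V} (h : (inside G S).Reachable a b)
    (ha : a ∈ S) : ∃ hb : b ∈ S, (G.induce S).Reachable ⟨a, ha⟩ ⟨b, hb⟩ := by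
  have := reach_induct (G := inside G S)
    (fun x y => ∀ hx : x ∈ S, ∃ hy : y ∈ S, (G.induce S).Reachable ⟨x, hx⟩ ⟨y, hy⟩)
    (fun x hx => ⟨hx, Reachable.refl _⟩)
    (fun x y z h1 h2 hx => by
      obtain ⟨hy, h3⟩ := h1 hx
      obtain ⟨hz, h4⟩ := h2 hy
      exact ⟨hz, h3.trans h4⟩)
    (fun x y hxy hx => ⟨hxy.2.2, Adj.reachable (show (G.induce S).Adj ⟨x, hx⟩ ⟨y, hxy.2.2⟩ from
      hxy.1)⟩) h
  exact this ha

theorem reach_outside {G : SimpleGraph V} {S : Set V} {a b : V}
    (h : (inside G S).Reachable a b) (ha : a ∉ S) : a = b := by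
  have := reach_induct (G := inside G S)
    (fun x y => x ∉ S → x = y)
    (fun x _ => rfl)
    (fun x y z h1 h2 hx => by
      have h3 := h1 hx
      subst h3
      exact h2 hx)
    (fun x y hxy hx => absurd hxy.2.1 hx) h
  exact this ha

theorem kap_inside [Finite V] (G : SimpleGraph V) (S : Set V) :
    kap (inside G S) = kap (G.induce S) + Sᶜ.ncard := by
  unfold kap
  change _ = _ + Nat.card _
  have : Finite (G.induce S).ConnectedComponent := Quot.finite _
  rw [← Nat.card_sum]
  symm
  apply Nat.card_congr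
  let φ : G.induce S →g inside G S := ⟨Subtype.val, fun {a b} h => ⟨h, a.2, b.2⟩⟩
  let F : (G.induce S).ConnectedComponent ⊕ (Sᶜ : Set V) → (inside G S).ConnectedComponent :=
    Sum.elim (fun c => c.map φ) (fun v => (inside G S).connectedComponentMk v.1)
  refine Equiv.ofBijective F ⟨?_, ?_⟩
  · rintro (p | p) (q | q) h
    · induction p using ConnectedComponent.ind with
      | h a =>
        induction q using ConnectedComponent.ind with
        | h b =>
          have h1 : (inside G S).connectedComponentMk a.1 =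
            (inside G S).connectedComponentMk b.1 := h
          obtain ⟨_, h3⟩ := reach_inside (ConnectedComponent.exact h1) a.2
          exact congrArg Sum.inl (ConnectedComponent.sound h3)
    · induction p using ConnectedComponent.ind with
      | h a =>
        have h1 : (inside G S).connectedComponentMk a.1 =
            (inside G S).connectedComponentMk q.1 := h
        obtain ⟨h2, _⟩ := reach_inside (ConnectedComponent.exact h1) a.2
        exact absurd h2 q.2
    · induction q using ConnectedComponent.ind with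
      | h a =>
        have h1 : (inside G S).connectedComponentMk p.1 =
            (inside G S).connectedComponentMk a.1 := h
        obtain ⟨h2, _⟩ := reach_inside (ConnectedComponent.exact h1.symm) a.2
        exact absurd h2 p.2
    · have h1 : (inside G S).connectedComponentMk p.1 =
            (inside G S).connectedComponentMk q.1 := h
      exact congrArg Sum.inr (Subtype.ext (reach_outside (ConnectedComponent.exact h1) p.2))
  · intro c
    induction c using ConnectedComponent.ind with
    | h v =>
      by_cases hv : v ∈ S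
      · exact ⟨Sum.inl ((G.induce S).connectedComponentMk ⟨v, hv⟩), rfl⟩
      · exact ⟨Sum.inr ⟨v, hv⟩, rfl⟩

theorem iso_inside [Finite V] (G : SimpleGraph V) (S : Set V) :
    iso (inside G S) = iso (G.induce S) + Sᶜ.ncard := by
  unfold iso
  have h1 : {v | ∀ w, ¬ (inside G S).Adj v w} =
      (Subtype.val '' {v : S | ∀ w, ¬ (G.induce S).Adj v w}) ∪ Sᶜ := by
    ext v
    constructor
    · intro hv
      by_cases h : v ∈ S
      · left
        exact ⟨⟨v, h⟩, fun w hw => hv w.1 ⟨hw, h, w.2⟩, rfl⟩
      · exact Or.inr h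
    · rintro (⟨⟨v, hv⟩, h, rfl⟩ | h)
      · intro w hw
        exact h ⟨w, hw.2.2⟩ hw.1
      · intro w hw
        exact h hw.2.1
  rw [h1, Set.ncard_union_eq _ (Set.toFinite _) (Set.toFinite _),
    Set.ncard_image_of_injective _ Subtype.val_injective]
  rw [Set.disjoint_left]
  rintro _ ⟨⟨v, hv⟩, _, rfl⟩ h
  exact h hv

theorem embedsOn_induce [Finite V] {G : SimpleGraph V} {S : Set V} {h : ℕ} :
    EmbedsOn h (G.induce S) ↔ Emb h (inside G S) := by
  rw [← embedsOn_iff]
  have e1 : (inside G S).edgeSet.ncard = (G.induce S).edgeSet.ncard := by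
    have h1 := card_dart (inside G S)
    have h2 := card_dart (G.induce S)
    rw [Nat.card_congr (dartE G S)] at h2
    omega
  have e2 := kap_inside G S
  have e3 := iso_inside G S
  have e4 : S.ncard + Sᶜ.ncard = Nat.card V := Set.ncard_add_ncard_compl S
  have e5 : Nat.card S = S.ncard := rfl
  constructor
  · intro hE
    refine embedsOn_transfer (dartE G S) (fun _ => rfl) ?_ ?_ hE
    · intro d e
      exact ⟨fun h => congrArg Subtype.val h, fun h => Subtype.ext h⟩
    · rw [e1, e2, e3, ← e4, e5]
      push_cast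
      ring
  · intro hE
    refine embedsOn_transfer (dartE G S).symm (fun _ => rfl) ?_ ?_ hE
    · intro d e
      exact ⟨fun h => Subtype.ext h, fun h => congrArg Subtype.val h⟩
    · rw [e1, e2, e3, ← e4, e5]
      push_cast
      ring

end Pool.Agent.Helper98.Gn
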