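import Pool.Agent.Helper98.Gn.Moves

/-! A crude lower bound for the number of planar graphs with a given number of edges. -/

namespace Pool.Agent.Helper98.Gn

open Equiv Equiv.Perm SimpleGraph

/-- planar graphs with `a` edges, all among the first `k` vertices -/
def PB (n k a : ℕ) : Set (SimpleGraph (Fin n)) :=
  {G | (∀ u v, G.Adj u v → (u : ℕ) < k ∧ (v : ℕ) < k) ∧ G.edgeSet.ncard = a ∧ Emb 0 G}

theorem gadget {n : ℕ} : ∀ t : ℕ, 2 * t + 1 ≤ n → (PB n (2 * t + 1) (3 * t)).Nonempty := by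
  intro t
  induction t with
  | zero =>
    intro _
    refine ⟨⊥, fun u v h => absurd h (by simp), by simp, ?_⟩
    obtain ⟨ρ, hρ⟩ := exists_full (V := Fin n)
    exact ⟨ρ, hρ, by rw [df_bot hρ]; simp⟩
  | succ t ih =>
    intro ht
    obtain ⟨G, h1, h2, h3⟩ := ih (by omega)
    obtain ⟨u, hu⟩ : ∃ u : Fin n, (u : ℕ) = 2 * t := ⟨⟨2 * t, by omega⟩, rfl⟩
    obtain ⟨x, hx⟩ : ∃ u : Fin n, (u : ℕ) = 2 * t + 1 := ⟨⟨2 * t + 1, by omega⟩, rfl⟩
    obtain ⟨y, hy⟩ : ∃ u : Fin n, (u : ℕ) = 2 * t + 2 := ⟨⟨2 * t + 2, by omega⟩, rfl⟩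
    have hux : u ≠ x := by
      intro h
      have := congrArg Fin.val h
      omega
    have huy : u ≠ y := by
      intro h
      have := congrArg Fin.val h
      omega
    have hxy : x ≠ y := by
      intro h
      have := congrArg Fin.val h
      omega
    have hxi : ∀ w, ¬ G.Adj x w := fun w h => by
      have := (h1 x w h).1
      omega
    have hyi : ∀ w, ¬ G.Adj y w := fun w h => by
      have := (h1 y w h).1
      omega
    have hE := h3.add_triangle hux huy hxy hxi hyi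
    refine ⟨_, ?_, ?_, hE⟩
    · intro a b hab
      rw [sup_adj, sup_adj, sup_adj, edge_adj, edge_adj, edge_adj] at hab
      rcases hab with ((h | ⟨⟨rfl, rfl⟩ | ⟨rfl, rfl⟩, _⟩) | ⟨⟨rfl, rfl⟩ | ⟨rfl, rfl⟩, _⟩) |
        ⟨⟨rfl, rfl⟩ | ⟨rfl, rfl⟩, _⟩
      · have := h1 a b h
        omega
      all_goals omega
    · rw [ecard_add, ecard_add, ecard_add, h2]
      · ring
      · exact fun h => hxi u h.symm
      · exact hux
      · rw [sup_adj, edge_adj]
        rintro (h | ⟨⟨_, h⟩ | ⟨h, _⟩, _⟩)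
        · exact hyi u h.symm
        · exact hxy h.symm
        · exact hux h
      · exact huy
      · rw [sup_adj, sup_adj, edge_adj, edge_adj]
        rintro ((h | ⟨⟨h, _⟩ | ⟨_, h⟩, _⟩) | ⟨⟨h, _⟩ | ⟨h, _⟩, _⟩)
        · exact hxi y h
        · exact hux h.symm
        · exact huy h.symm
        · exact hux h.symm
        · exact hxy h
      · exact hxy

theorem gadget_sub {n t a : ℕ} (ht : 2 * t + 1 ≤ n) (ha : a ≤ 3 * t) :
    (PB n (2 * t + 1) a).Nonempty := by
  obtain ⟨G, h1, h2, h3⟩ := gadget t ht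
  obtain ⟨s, hs1, hs2⟩ := Set.exists_subset_card_eq (s := G.edgeSet) (n := a)
    (by rw [h2]; exact ha)
  have hle : fromEdgeSet s ≤ G := by
    calc fromEdgeSet s ≤ fromEdgeSet G.edgeSet := fromEdgeSet_mono hs1
      _ = G := fromEdgeSet_edgeSet G
  refine ⟨fromEdgeSet s, fun u v h => h1 u v (hle h), ?_, h3.mono_graph hle⟩
  rw [edgeSet_fromEdgeSet, ← hs2]
  congr 1
  ext e
  constructor
  · exact fun h => h.1
  · intro he
    refine ⟨he, ?_⟩
    have := hs1 he
    intro hd
    exact G.not_isDiag_of_mem_edgeSet this hd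

theorem PB_succ {n k a : ℕ} (hk : k < n) : (PB n k a).ncard * k ≤ (PB n (k + 1) (a + 1)).ncard := by
  classical
  have hkk : {j : Fin n | (j : ℕ) < k}.ncard = k := by
    have h1 : {j : Fin n | (j : ℕ) < k} = Set.range (Fin.castLE hk.le) := by
      ext j
      constructor
      · intro hj
        exact ⟨⟨j, hj⟩, rfl⟩
      · rintro ⟨i, rfl⟩
        exact i.2
    rw [h1, ← Set.image_univ, Set.ncard_image_of_injective _ (Fin.castLE_injective hk.le),
      Set.ncard_univ, Nat.card_eq_fintype_card, Fintype.card_fin]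
  obtain ⟨x, hx⟩ : ∃ x : Fin n, (x : ℕ) = k := ⟨⟨k, hk⟩, rfl⟩
  have h2 : (PB n k a).ncard * k = (PB n k a ×ˢ {j : Fin n | (j : ℕ) < k}).ncard := by
    rw [Set.ncard_prod, hkk]
  rw [h2]
  apply Set.ncard_le_ncard_of_injOn (fun p => p.1 ⊔ edge p.2 x)
  · rintro ⟨G, j⟩ ⟨⟨h3, h4, h5⟩, hj⟩
    simp only [Set.mem_ofPred_eq] at hj
    have hxi : ∀ w, ¬ G.Adj x w := fun w h => by
      have := (h3 x w h).1
      omega
    have hjx : j ≠ x := by
      intro h
      have := congrArg Fin.val h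
      omega
    refine ⟨?_, ?_, ?_⟩
    · intro u v huv
      simp only [sup_adj, edge_adj] at huv
      rcases huv with h | ⟨⟨rfl, rfl⟩ | ⟨rfl, rfl⟩, _⟩
      · have := h3 u v h
        omega
      · omega
      · omega
    · simp only
      rw [ecard_add (fun h => hxi j h.symm) hjx, h4]
    · exact h5.add_bridge (not_reach_of_isolated hxi hjx)
  · rintro ⟨G, j⟩ ⟨⟨h3, h4, h5⟩, hj⟩ ⟨G', j'⟩ ⟨⟨h3', h4', h5'⟩, hj'⟩ h
    simp only [Set.mem_ofPred_eq] at hj hj' h
    have hGk : ∀ u, ¬ G.Adj u x := fun u h => by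
      have := (h3 u x h).2
      omega
    have hGk' : ∀ u, ¬ G'.Adj u x := fun u h => by
      have := (h3' u x h).2
      omega
    have hjx : j ≠ x := by
      intro h
      have := congrArg Fin.val h
      omega
    have hjx' : j' ≠ x := by
      intro h
      have := congrArg Fin.val h
      omega
    have e1 : j = j' := by
      have h6 : (G' ⊔ edge j' x).Adj j x := by
        rw [← h, sup_adj, edge_adj]
        exact Or.inr ⟨Or.inl ⟨rfl, rfl⟩, hjx⟩
      rw [sup_adj, edge_adj] at h6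
      rcases h6 with h6 | ⟨⟨h6, _⟩ | ⟨h6, _⟩, _⟩
      · exact absurd h6 (hGk' j)
      · exact h6
      · exact absurd h6 hjx
    subst e1
    have e2 : G = G' := by
      ext u v
      have h6 : (G ⊔ edge j x).Adj u v ↔ (G' ⊔ edge j x).Adj u v := by rw [h]
      rw [sup_adj, sup_adj, edge_adj] at h6
      constructor
      · intro h7
        rcases h6.1 (Or.inl h7) with h8 | ⟨⟨rfl, rfl⟩ | ⟨rfl, rfl⟩, _⟩
        · exact h8
        · exact absurd h7 (hGk _)
        · exact absurd h7.symm (hGk _)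
      · intro h7
        rcases h6.2 (Or.inl h7) with h8 | ⟨⟨rfl, rfl⟩ | ⟨rfl, rfl⟩, _⟩
        · exact h8
        · exact absurd h7 (hGk' _)
        · exact absurd h7.symm (hGk' _)
    rw [e2]

theorem PB_lower {n K a : ℕ} (hK : 1 ≤ K) (hne : (PB n K a).Nonempty) :
    ∀ d : ℕ, K + d ≤ n → d.factorial ≤ (PB n (K + d) (a + d)).ncard := by
  intro d
  induction d with
  | zero =>
    intro _
    rw [Nat.factorial_zero]
    exact (Set.ncard_pos (Set.toFinite _)).2 hne
  | succ d ih =>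
    intro hd
    have h1 := ih (by omega)
    have h2 := PB_succ (n := n) (k := K + d) (a := a + d) (by omega)
    rw [Nat.factorial_succ]
    calc (d + 1) * d.factorial ≤ (K + d) * (PB n (K + d) (a + d)).ncard :=
          Nat.mul_le_mul (by omega) h1
      _ = (PB n (K + d) (a + d)).ncard * (K + d) := by ring
      _ ≤ _ := h2

/-- the class of graphs with `m` edges of genus at most `g` -/
def Cl (g n m : ℕ) : Set (SimpleGraph (Fin n)) := {G | G.edgeSet.ncard = m ∧ Emb g G}

theorem class_lower {g n m t : ℕ} (ht : 2 * t + 1 ≤ n) (h1 : n ≤ m + (2 * t + 1))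
    (h2 : m + (2 * t + 1) ≤ n + 3 * t) : (n - (2 * t + 1)).factorial ≤ (Cl g n m).ncard := by
  obtain ⟨d, hd⟩ : ∃ d, n = 2 * t + 1 + d := ⟨n - (2 * t + 1), by omega⟩
  obtain ⟨a, ha⟩ : ∃ a, m = a + d := ⟨m - d, by omega⟩
  have h3 := PB_lower (n := n) (by omega) (gadget_sub (n := n) (t := t) (a := a) ht (by omega)) d
    (by omega)
  have h4 : n - (2 * t + 1) = d := by omega
  rw [h4]
  refine h3.trans ?_
  apply Set.ncard_le_ncard _ (Set.toFinite _)
  rintro G ⟨_, h5, h6⟩
  exact ⟨by rw [h5, ha], h6.mono_genus (Nat.zero_le _)⟩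

end Pool.Agent.Helper98.Gn
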