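import Pool.Agent.Helper98.Gn.Piece

/-! Moving dummy darts; attaching triangles; smoothing a vertex of degree two. -/

namespace Pool.Agent.Helper98.Gn

open Equiv Equiv.Perm SimpleGraph

variable {V : Type*}

theorem sig_update [DecidableEq V] (ρ : V → Perm V) (v a w : V) :
    sig (Function.update ρ v (ρ v * swap a w)) = sig ρ * swap (v, a) (v, w) := by
  ext1 ⟨p, q⟩
  rw [Perm.mul_apply, sig_apply]
  by_cases hp : p = v
  · subst hp
    rw [Function.update_self, Perm.mul_apply]
    by_cases h1 : q = a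
    · subst h1
      rw [swap_apply_left, swap_apply_left, sig_apply]
    by_cases h2 : q = w
    · subst h2
      rw [swap_apply_right, swap_apply_right, sig_apply]
    rw [swap_apply_of_ne_of_ne h1 h2, swap_apply_of_ne_of_ne, sig_apply]
    · intro h
      exact h1 (Prod.mk.inj h).2
    · intro h
      exact h2 (Prod.mk.inj h).2
  · rw [Function.update_of_ne hp, swap_apply_of_ne_of_ne, sig_apply]
    · intro h
      exact hp (Prod.mk.inj h).1
    · intro h
      exact hp (Prod.mk.inj h).1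

theorem face_update [DecidableEq V] (ρ : V → Perm V) (G : SimpleGraph V) (v a w : V) :
    face (Function.update ρ v (ρ v * swap a w)) G =
      face ρ G * swap (flip G (v, a)) (flip G (v, w)) := by
  have h1 : (flip G)⁻¹ = flip G := by
    rw [inv_eq_iff_mul_eq_one]
    exact flip_mul_self G
  rw [face, sig_update, mul_assoc, swap_mul_eq_mul_swap, h1, face, mul_assoc]

theorem dummy_move [Finite V] {ρ : V → Perm V} (hρ : Full ρ) {G : SimpleGraph V} {v b w : V}
    (hbw : b ≠ w) (hvw : ¬ G.Adj v w) : ∃ ρ' : V → Perm V, Full ρ' ∧ ρ' v b = w ∧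
      (∀ u, u ≠ v → ρ' u = ρ u) ∧ cyc (face ρ' G) = cyc (face ρ G) := by
  classical
  have : Nonempty V := ⟨v⟩
  obtain ⟨a, ha⟩ : ∃ a, ρ v a = w := (ρ v).surjective w
  have haw : a ≠ w := by
    intro h
    subst h
    exact hbw ((hρ v a b).eq_of_left ha).symm
  obtain ⟨ρ1, hρ1⟩ : ∃ ρ1, ρ1 = Function.update ρ v (ρ v * swap a w) := ⟨_, rfl⟩
  obtain ⟨ρ2, hρ2⟩ : ∃ ρ2, ρ2 = Function.update ρ1 v (ρ1 v * swap b w) := ⟨_, rfl⟩
  have hr1 : ρ1 v = ρ v * swap a w := by rw [hρ1, Function.update_self]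
  have hr2 : ρ2 v = ρ1 v * swap b w := by rw [hρ2, Function.update_self]
  have h1w : ρ1 v w = w := by
    rw [hr1, Perm.mul_apply, swap_apply_right, ha]
  have hfv : flip G (v, w) = (v, w) := flip_not hvw
  refine ⟨ρ2, ?_, ?_, ?_, ?_⟩
  · intro u
    by_cases hu : u = v
    · subst hu
      rw [← cyc_eq_one_iff, hr2]
      have e1 : cyc (ρ u) = 1 := cyc_eq_one_iff.2 (hρ u)
      have e2 : cyc (ρ1 u) = 2 := by
        rw [hr1, cyc_split haw (hρ u a w), e1]
      have e3 : cyc (ρ1 u * swap b w) + 1 = cyc (ρ1 u) := by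
        apply cyc_merge
        intro h
        exact hbw (h.eq_of_right h1w)
      omega
    · rw [hρ2, Function.update_of_ne hu, hρ1, Function.update_of_ne hu]
      exact hρ u
  · rw [hr2, Perm.mul_apply, swap_apply_left, h1w]
  · intro u hu
    rw [hρ2, Function.update_of_ne hu, hρ1, Function.update_of_ne hu]
  · have e1 : cyc (face ρ1 G) = cyc (face ρ G) + 1 := by
      rw [hρ1, face_update, hfv]
      apply cyc_split
      · intro h
        have := congrArg (flip G) h
        rw [flip_flip, hfv] at this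
        exact haw (Prod.mk.inj this).2
      · have : face ρ G (flip G (v, a)) = (v, w) := by
          rw [face, Perm.mul_apply, flip_flip, sig_apply, ha]
        rw [← this]
        exact sc_step _ _
    have e2 : cyc (face ρ2 G) + 1 = cyc (face ρ1 G) := by
      rw [hρ2, face_update, hfv]
      apply cyc_merge
      intro h
      have hfix : face ρ1 G (v, w) = (v, w) := by
        rw [face_not hvw, h1w]
      have := h.eq_of_right hfix
      have := congrArg (flip G) this
      rw [flip_flip, hfv] at this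
      exact hbw (Prod.mk.inj this).2
    omega

theorem leaf_row [Finite V] {ρ : V → Perm V} (hρ : Full ρ) {G : SimpleGraph V} {v u : V}
    (hu : ∀ w, G.Adj v w → w = u) (w w' : V) : SameCycle (face ρ G) (v, w) (v, w') := by
  have key : ∀ k : ℕ, ∀ w, (ρ v ^ k) w = u → SameCycle (face ρ G) (v, w) (v, u) := by
    intro k
    induction k with
    | zero =>
      intro w hw
      have : w = u := by simpa using hw
      rw [this]
    | succ k ih =>
      intro w hw
      by_cases h : w = u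
      · rw [h]
      · have hadj : ¬ G.Adj v w := fun h1 => h (hu w h1)
        have h1 : face ρ G (v, w) = (v, ρ v w) := face_not hadj
        have h2 : (ρ v ^ k) (ρ v w) = u := by
          rw [← Perm.mul_apply, ← pow_succ]
          exact hw
        have h3 := ih (ρ v w) h2
        rw [← h1] at h3
        exact (sc_step _ _).trans h3
  obtain ⟨k, hk⟩ := (hρ v w u).exists_nat_pow_eq
  obtain ⟨k', hk'⟩ := (hρ v w' u).exists_nat_pow_eq
  exact (key k w hk).trans (key k' w' hk').symm

theorem not_reach_of_isolated {G : SimpleGraph V} {u x : V} (hx : ∀ w, ¬ G.Adj x w)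
    (hux : u ≠ x) : ¬ G.Reachable u x := by
  intro h
  have hcl : Closed G {x} := by
    intro a b hab ha
    rw [Set.mem_singleton_iff] at ha
    rw [ha] at hab
    exact absurd hab (hx b)
  have := hcl.reach h.symm rfl
  exact hux this

theorem Emb.add_triangle [Finite V] {g : ℕ} {G : SimpleGraph V} (hG : Emb g G) {u x y : V}
    (hux : u ≠ x) (huy : u ≠ y) (hxy : x ≠ y) (hx : ∀ w, ¬ G.Adj x w)
    (hy : ∀ w, ¬ G.Adj y w) : Emb g (G ⊔ edge u x ⊔ edge u y ⊔ edge x y) := by
  obtain ⟨ρ, hρ, hg⟩ := hG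
  obtain ⟨ρ', hρ', h1, _, h2⟩ := dummy_move hρ (G := G) (v := u) (b := x) (w := y) hxy
    (fun h => hy u h.symm)
  refine ⟨ρ', hρ', ?_⟩
  have e0 : df ρ' G = df ρ G := by
    unfold df
    rw [h2]
  have e1 : df ρ' (G ⊔ edge u x) = df ρ' G := df_add_not (not_reach_of_isolated hx hux)
  have hy1 : ∀ w, ¬ (G ⊔ edge u x).Adj y w := by
    intro w h
    rw [sup_adj, edge_adj] at h
    rcases h with h | ⟨⟨h, _⟩ | ⟨h, _⟩, _⟩
    · exact hy w h
    · exact huy h.symm
    · exact hxy h.symm
  have e2 : df ρ' (G ⊔ edge u x ⊔ edge u y) = df ρ' (G ⊔ edge u x) :=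
    df_add_not (not_reach_of_isolated hy1 huy)
  obtain ⟨G2, hG2⟩ : ∃ G2, G2 = G ⊔ edge u x ⊔ edge u y := ⟨_, rfl⟩
  have hxn : ∀ w, G2.Adj x w → w = u := by
    intro w h
    rw [hG2, sup_adj, sup_adj, edge_adj, edge_adj] at h
    rcases h with (h | ⟨⟨h, _⟩ | ⟨_, h⟩, _⟩) | ⟨⟨h, _⟩ | ⟨h, _⟩, _⟩
    · exact absurd h (hx w)
    · exact absurd h.symm hux
    · exact h
    · exact absurd h.symm hux
    · exact absurd h hxy
  have hyn : ∀ w, G2.Adj y w → w = u := by
    intro w h
    rw [hG2, sup_adj, sup_adj, edge_adj, edge_adj] at h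
    rcases h with (h | ⟨⟨h, _⟩ | ⟨h, _⟩, _⟩) | ⟨⟨h, _⟩ | ⟨_, h⟩, _⟩
    · exact absurd h (hy w)
    · exact absurd h.symm huy
    · exact absurd h.symm hxy
    · exact absurd h.symm huy
    · exact h
  have hxu : G2.Adj x u := by
    rw [hG2, sup_adj, sup_adj, edge_adj]
    exact Or.inl (Or.inr ⟨Or.inr ⟨rfl, rfl⟩, hux.symm⟩)
  have huy' : G2.Adj u y := by
    rw [hG2, sup_adj, edge_adj]
    exact Or.inr ⟨Or.inl ⟨rfl, rfl⟩, huy⟩
  have hxy' : ¬ G2.Adj x y := fun h => huy (hxn y h).symm
  have hsc : SameCycle (face ρ' G2) (x, y) (y, x) := by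
    have s1 := leaf_row hρ' hxn y u
    have s2 : face ρ' G2 (x, u) = (u, y) := by rw [face_adj hxu, h1]
    have s3 : face ρ' G2 (u, y) = (y, ρ' y u) := face_adj huy'
    have s4 := leaf_row hρ' hyn (ρ' y u) x
    have s5 : SameCycle (face ρ' G2) (x, u) (u, y) := by
      rw [← s2]
      exact sc_step _ _
    have s6 : SameCycle (face ρ' G2) (u, y) (y, ρ' y u) := by
      rw [← s3]
      exact sc_step _ _
    exact ((s1.trans s5).trans s6).trans s4
  rw [← hG2] at e2 ⊢
  rw [df_add_split hxy' hxy hsc, e2, e1, e0]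
  exact hg

theorem Emb.smooth [Finite V] {g : ℕ} {G : SimpleGraph V} (hG : Emb g G) {x y z : V}
    (hx : ∀ w, G.Adj x w ↔ (w = y ∨ w = z)) (hyz : y ≠ z) (hnyz : ¬ G.Adj y z) :
    Emb g (inside G {x}ᶜ ⊔ edge y z) := by
  classical
  have hxy : G.Adj x y := (hx y).2 (Or.inl rfl)
  have hxz : G.Adj x z := (hx z).2 (Or.inr rfl)
  obtain ⟨ρ, hρ, hg⟩ := hG
  obtain ⟨ρ1, hρ1, h1, _, h2⟩ := dummy_move hρ (G := G) (v := y) (b := x) (w := z) hxz.ne hnyz
  obtain ⟨ρ2, hρ2, h3, h4, h5⟩ := dummy_move hρ1 (G := G) (v := z) (b := x) (w := y) hxy.ne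
    (fun h => hnyz h.symm)
  have h6 : ρ2 y x = z := by rw [h4 y hyz, h1]
  have e0 : df ρ2 G ≤ 2 * g := by
    have : df ρ2 G = df ρ G := by
      unfold df
      rw [h5, h2]
    rw [this]
    exact hg
  refine ⟨ρ2, hρ2, ?_⟩
  obtain ⟨G0, hG0⟩ : ∃ G0, G0 = inside G {x}ᶜ := ⟨_, rfl⟩
  rw [← hG0]
  have hG0le : G0 ≤ G := by
    rw [hG0]
    exact inside_le _ _
  have hx0 : ∀ w, ¬ G0.Adj x w := by
    intro w h
    rw [hG0] at h
    exact h.2.1 rfl
  have hyz0 : ¬ G0.Adj y z := fun h => hnyz (hG0le h)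
  have hdec : G = G0 ⊔ edge y x ⊔ edge x z := by
    ext a b
    rw [sup_adj, sup_adj, edge_adj, edge_adj, hG0, inside_adj]
    constructor
    · intro h
      by_cases ha : a = x
      · subst ha
        rcases (hx b).1 h with hb | hb
        · subst hb
          exact Or.inl (Or.inr ⟨Or.inr ⟨rfl, rfl⟩, h.ne⟩)
        · subst hb
          exact Or.inr ⟨Or.inl ⟨rfl, rfl⟩, h.ne⟩
      by_cases hb : b = x
      · subst hb
        rcases (hx a).1 h.symm with ha | ha
        · subst ha
          exact Or.inl (Or.inr ⟨Or.inl ⟨rfl, rfl⟩, h.ne⟩)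
        · subst ha
          exact Or.inr ⟨Or.inr ⟨rfl, rfl⟩, h.ne⟩
      · exact Or.inl (Or.inl ⟨h, ha, hb⟩)
    · rintro ((h | ⟨⟨rfl, rfl⟩ | ⟨rfl, rfl⟩, _⟩) | ⟨⟨rfl, rfl⟩ | ⟨rfl, rfl⟩, _⟩)
      · exact h.1
      · exact hxy.symm
      · exact hxy
      · exact hxz
      · exact hxz.symm
  by_cases hr : G0.Reachable y z
  · by_cases hs : SameCycle (face ρ2 G0) (y, z) (z, y)
    · rw [df_add_split hyz0 hyz hs]
      exact (df_mono ρ2 hG0le).trans e0
    · rw [df_add_merge hyz0 hyz hr hs]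
      have hnr : ¬ G0.Reachable y x := not_reach_of_isolated hx0 hxy.symm.ne
      have hnrz : ¬ G0.Reachable z x := not_reach_of_isolated hx0 hxz.symm.ne
      have c1 : df ρ2 (G0 ⊔ edge y x) = df ρ2 G0 := df_add_not hnr
      have c2 : ¬ (G0 ⊔ edge y x).Adj x z := by
        rw [sup_adj, edge_adj]
        rintro (h | ⟨⟨h, _⟩ | ⟨_, h⟩, _⟩)
        · exact hx0 z h
        · exact hxy.ne h
        · exact hyz h.symm
      have c3 : (G0 ⊔ edge y x).Reachable x z := by
        rw [reach_add]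
        exact Or.inr ⟨Or.inr (Reachable.refl _), Or.inl hr.symm⟩
      have hnsc : ¬ SameCycle (face ρ2 G0) (y, x) (x, y) := fun h => hnr (face_reach h)
      have c4 : ¬ SameCycle (face ρ2 (G0 ⊔ edge y x)) (x, z) (z, x) := by
        rw [face_add (fun h => hx0 y h.symm) hxy.symm.ne, sc_merge hnsc]
        rintro (h | ⟨_, h | h⟩)
        · exact hnrz (face_reach h).symm
        · apply hs
          have t1 : face ρ2 G0 (y, x) = (y, z) := by
            rw [face_not (fun h => hx0 y h.symm), h6]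
          have t2 : face ρ2 G0 (z, x) = (z, y) := by
            rw [face_not (fun h => hx0 z h.symm), h3]
          have t3 : SameCycle (face ρ2 G0) (y, x) (y, z) := by
            rw [← t1]
            exact sc_step _ _
          have t4 : SameCycle (face ρ2 G0) (z, x) (z, y) := by
            rw [← t2]
            exact sc_step _ _
          exact (t3.symm.trans h.symm).trans t4
        · exact hnrz (face_reach h)
      have c5 := df_add_merge c2 hxz.ne c3 c4
      rw [← hdec] at c5
      rw [c5, c1] at e0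
      exact e0
  · rw [df_add_not hr]
    exact (df_mono ρ2 hG0le).trans e0

end Pool.Agent.Helper98.Gn
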