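import Pool.Agent.Helper98.Gn.Glue

/-! Nonplanar 2-edge-connected pieces. -/

namespace Pool.Agent.Helper98.Gn

open Equiv Equiv.Perm SimpleGraph

variable {V : Type*}

/-- A nonplanar connected bridgeless piece all of whose leaving edges are cut edges. -/
structure Piece (G : SimpleGraph V) (Q : Set V) : Prop where
  nonplanar : ¬ Emb 0 (inside G Q)
  conn : ∀ a ∈ Q, ∀ b ∈ Q, (inside G Q).Reachable a b
  leave : ∀ a ∈ Q, ∀ b ∉ Q, G.Adj a b → IsCut G a b
  bridgeless : ∀ a b, (inside G Q).Adj a b → ¬ IsCut (inside G Q) a b

theorem inside_inside {G : SimpleGraph V} {S T : Set V} :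
    inside (inside G S) T = inside G (S ∩ T) := by
  ext u v
  simp only [inside_adj, Set.mem_inter_iff]
  tauto

/-- A cut set of an edge leaving a connected set avoids the set. -/
theorem cut_avoid {G : SimpleGraph V} {Q K : Set V} {q b : V}
    (hconn : ∀ a ∈ Q, ∀ b ∈ Q, (inside G Q).Reachable a b) (hq : q ∈ Q) (hb : b ∉ Q)
    (h1 : q ∉ K) (h3 : ∀ u v, G.Adj u v → u ∉ K → v ∈ K → (u = q ∧ v = b)) :
    ∀ a ∈ Q, a ∉ K := by
  intro a ha
  have hcl : Closed (inside G Q) Kᶜ := by
    intro u v huv hu hv
    have := h3 u v huv.1 hu hv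
    rw [this.2] at huv
    exact hb huv.2.2
  exact hcl.reach (hconn q hq a ha) h1

theorem exists_piece [Finite V] {G : SimpleGraph V} {S : Set V} (hS : Closed G S)
    (hn : ¬ Emb 0 (inside G S)) : ∃ Q ⊆ S, Piece G Q := by
  have key : ∀ n : ℕ, ∀ Q : Set V, Q.ncard = n → ¬ Emb 0 (inside G Q) →
      (∀ a ∈ Q, ∀ b ∉ Q, G.Adj a b → IsCut G a b) → ∃ Q' ⊆ Q, Piece G Q' := by
    intro n
    induction n using Nat.strong_induction_on with
    | _ n ih =>
      intro Q hQn hQ1 hQ2
      by_cases hconn : ∀ a ∈ Q, ∀ b ∈ Q, (inside G Q).Reachable a b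
      · by_cases hbr : ∀ a b, (inside G Q).Adj a b → ¬ IsCut (inside G Q) a b
        · exact ⟨Q, le_refl _, hQ1, hconn, hQ2, hbr⟩
        · push Not at hbr
          obtain ⟨a, b, hab, K, haK, hbK, hK⟩ := hbr
          have haQ : a ∈ Q := hab.2.1
          have hbQ : b ∈ Q := hab.2.2
          have hcutG : IsCut G a b := by
            refine ⟨(Q ∩ K) ∪ {v | ∃ q ∈ Q ∩ K, ∃ b' ∉ Q, G.Adj q b' ∧ ∃ K' : Set V, q ∉ K' ∧
              b' ∈ K' ∧ (∀ u v, G.Adj u v → u ∉ K' → v ∈ K' → (u = q ∧ v = b')) ∧ v ∈ K'},
              ?_, ?_, ?_⟩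
            · rintro (h | ⟨q, hq, b', hb', _, K', hqK', _, hK', haK'⟩)
              · exact haK h.2
              · exact cut_avoid hconn hq.1 hb' hqK' hK' a haQ haK'
            · exact Or.inl ⟨hbQ, hbK⟩
            · intro u v huv hu hv
              rcases hv with hv | ⟨q, hq, b', hb', hqb', K', hqK', hbK', hK', hvK'⟩
              · by_cases huQ : u ∈ Q
                · have huK : u ∉ K := fun h => hu (Or.inl ⟨huQ, h⟩)
                  exact hK u v ⟨huv, huQ, hv.1⟩ huK hv.2
                · exfalso
                  obtain ⟨K', h1, h2, h3⟩ := hQ2 v hv.1 u huQ huv.symm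
                  exact hu (Or.inr ⟨v, hv, u, huQ, huv.symm, K', h1, h2, h3, h2⟩)
              · exfalso
                have huK' : u ∉ K' := fun h => hu
                  (Or.inr ⟨q, hq, b', hb', hqb', K', hqK', hbK', hK', h⟩)
                have := hK' u v huv huK' hvK'
                rw [this.1] at hu
                exact hu (Or.inl hq)
          -- the two sides
          have hA : (Q \ K).ncard < n := by
            rw [← hQn]
            apply Set.ncard_lt_ncard _ (Set.toFinite _)
            refine ⟨fun x hx => hx.1, fun h => ?_⟩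
            exact (h hbQ).2 hbK
          have hB : (Q ∩ K).ncard < n := by
            rw [← hQn]
            apply Set.ncard_lt_ncard _ (Set.toFinite _)
            refine ⟨fun x hx => hx.1, fun h => ?_⟩
            exact haK (h haQ).2
          have hnp : ¬ Emb 0 (inside G (Q \ K)) ∨ ¬ Emb 0 (inside G (Q ∩ K)) := by
            by_contra hcon
            push Not at hcon
            apply hQ1
            let H := inside G (Q \ K) ⊔ inside G (Q ∩ K)
            have hcl : Closed H (Q \ K) := by
              intro u v huv hu
              rcases huv with h | h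
              · exact h.2.2
              · exact absurd h.2.1.2 hu.2
            have e1 : inside H (Q \ K) = inside G (Q \ K) := by
              ext u v
              constructor
              · rintro ⟨h | h, h2, h3⟩
                · exact h
                · exact absurd h.2.1.2 h2.2
              · intro h
                exact ⟨Or.inl h, h.2⟩
            have e2 : inside H (Q \ K)ᶜ = inside G (Q ∩ K) := by
              ext u v
              constructor
              · rintro ⟨h | h, h2, h3⟩
                · exact absurd h.2.1 h2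
                · exact h
              · intro h
                exact ⟨Or.inr h, fun h' => h'.2 h.2.1.2, fun h' => h'.2 h.2.2.2⟩
            have hH : Emb 0 H := by
              have := Emb.glue (a := 0) (b := 0) hcl (by rw [e1]; exact hcon.1)
                (by rw [e2]; exact hcon.2)
              simpa using this
            have hnr : ¬ H.Reachable a b := fun h => (hcl.reach h ⟨haQ, haK⟩).2 hbK
            have h2 := hH.add_bridge hnr
            apply h2.mono_graph
            intro u v huv
            by_cases hu : u ∈ K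
            · by_cases hv : v ∈ K
              · exact Or.inl (Or.inr ⟨huv.1, ⟨huv.2.1, hu⟩, ⟨huv.2.2, hv⟩⟩)
              · have := hK v u huv.symm hv hu
                right
                rw [edge_adj]
                exact ⟨Or.inr ⟨this.2, this.1⟩, huv.ne⟩
            · by_cases hv : v ∈ K
              · have := hK u v huv hu hv
                right
                rw [edge_adj]
                exact ⟨Or.inl this, huv.ne⟩
              · exact Or.inl (Or.inl ⟨huv.1, ⟨huv.2.1, hu⟩, ⟨huv.2.2, hv⟩⟩)
          rcases hnp with hnp | hnp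
          · obtain ⟨Q', h1, h2⟩ := ih _ hA (Q \ K) rfl hnp (by
              intro p hp q hq hpq
              by_cases hqQ : q ∈ Q
              · have hqK : q ∈ K := by
                  by_contra h
                  exact hq ⟨hqQ, h⟩
                have := hK p q ⟨hpq, hp.1, hqQ⟩ hp.2 hqK
                rw [this.1, this.2]
                exact hcutG
              · exact hQ2 p hp.1 q hqQ hpq)
            exact ⟨Q', h1.trans (fun x hx => hx.1), h2⟩
          · obtain ⟨Q', h1, h2⟩ := ih _ hB (Q ∩ K) rfl hnp (by
              intro p hp q hq hpq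
              by_cases hqQ : q ∈ Q
              · have hqK : q ∉ K := fun h => hq ⟨hqQ, h⟩
                have := hK q p ⟨hpq.symm, hqQ, hp.1⟩ hqK hp.2
                rw [this.1, this.2]
                exact hcutG.symm
              · exact hQ2 p hp.1 q hqQ hpq)
            exact ⟨Q', h1.trans (fun x hx => hx.1), h2⟩
      · push Not at hconn
        obtain ⟨a, haQ, b, hbQ, hab⟩ := hconn
        let A : Set V := {v | (inside G Q).Reachable a v}
        have hcl : Closed (inside G Q) A := fun u v huv hu => hu.trans huv.reachable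
        have hA : (Q ∩ A).ncard < n := by
          rw [← hQn]
          apply Set.ncard_lt_ncard _ (Set.toFinite _)
          refine ⟨fun x hx => hx.1, fun h => ?_⟩
          exact hab (h hbQ).2
        have hB : (Q ∩ Aᶜ).ncard < n := by
          rw [← hQn]
          apply Set.ncard_lt_ncard _ (Set.toFinite _)
          refine ⟨fun x hx => hx.1, fun h => ?_⟩
          exact (h haQ).2 (Reachable.refl a)
        have hnp : ¬ Emb 0 (inside G (Q ∩ A)) ∨ ¬ Emb 0 (inside G (Q ∩ Aᶜ)) := by
          by_contra hcon
          push Not at hcon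
          apply hQ1
          have := Emb.glue (a := 0) (b := 0) hcl (by rw [inside_inside]; exact hcon.1)
            (by rw [inside_inside]; exact hcon.2)
          simpa using this
        rcases hnp with hnp | hnp
        · obtain ⟨Q', h1, h2⟩ := ih _ hA (Q ∩ A) rfl hnp (by
            intro p hp q hq hpq
            by_cases hqQ : q ∈ Q
            · exact absurd ⟨hqQ, hcl p q ⟨hpq, hp.1, hqQ⟩ hp.2⟩ hq
            · exact hQ2 p hp.1 q hqQ hpq)
          exact ⟨Q', h1.trans (fun x hx => hx.1), h2⟩
        · obtain ⟨Q', h1, h2⟩ := ih _ hB (Q ∩ Aᶜ) rfl hnp (by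
            intro p hp q hq hpq
            by_cases hqQ : q ∈ Q
            · exact absurd ⟨hqQ, hcl.compl p q ⟨hpq, hp.1, hqQ⟩ hp.2⟩ hq
            · exact hQ2 p hp.1 q hqQ hpq)
          exact ⟨Q', h1.trans (fun x hx => hx.1), h2⟩
  exact key _ S rfl hn (fun a ha b hb hab => absurd (hS a b hab ha) hb)

theorem Piece.subset {G : SimpleGraph V} {Q Q' : Set V} (h : Piece G Q) (h' : Piece G Q')
    {v : V} (hv : v ∈ Q) (hv' : v ∈ Q') : Q' ⊆ Q := by
  intro w hw
  have hcl : Closed (inside G Q') Q := by
    intro a b hab ha
    by_contra hb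
    have h1 := h.leave a ha b hb hab.1
    exact h'.bridgeless a b hab (h1.mono (inside_le G Q'))
  exact hcl.reach (h'.conn v hv' w hw) hv

theorem Piece.eq {G : SimpleGraph V} {Q Q' : Set V} (h : Piece G Q) (h' : Piece G Q')
    {v : V} (hv : v ∈ Q) (hv' : v ∈ Q') : Q = Q' :=
  Set.Subset.antisymm (h'.subset h hv' hv) (h.subset h' hv hv')

theorem exists_full [Finite V] : ∃ ρ : V → Perm V, Full ρ := by
  classical
  have := Fintype.ofFinite V
  obtain ⟨f, hf, -⟩ := Finset.exists_cycleOn (Finset.univ : Finset V)
  exact ⟨fun _ => f, fun _ a b => hf.2 (by simp) (by simp)⟩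

theorem Piece.nonempty [Finite V] {G : SimpleGraph V} {Q : Set V} (h : Piece G Q) :
    Q.Nonempty := by
  rw [Set.nonempty_iff_ne_empty]
  intro h0
  apply h.nonplanar
  subst h0
  have : inside G (∅ : Set V) = ⊥ := by
    ext u v
    simp [inside_adj]
  rw [this]
  obtain ⟨ρ, hρ⟩ := exists_full (V := V)
  exact ⟨ρ, hρ, by rw [df_bot hρ]; simp⟩

/-- The set of pieces. -/
def pieces (G : SimpleGraph V) : Set (Set V) := {Q | Piece G Q}

theorem pieces_ncard [Finite V] {g : ℕ} {G : SimpleGraph V} (hG : Emb g G) :
    (pieces G).ncard ≤ 2 * g := by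
  have hfin : (pieces G).Finite := Set.toFinite _
  rw [Set.ncard_eq_toFinset_card _ hfin]
  apply disjoint_nonplanar_le hG
  · intro Q hQ Q' hQ' hne
    rw [Set.Finite.mem_toFinset] at hQ hQ'
    rw [Set.disjoint_left]
    intro v hv hv'
    exact hne (Piece.eq hQ hQ' hv hv')
  · intro Q hQ
    rw [Set.Finite.mem_toFinset] at hQ
    exact hQ.nonplanar

end Pool.Agent.Helper98.Gn
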