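import Pool.Agent.Helper98.Gn.Cyc

/-! Rotation systems on all of `V` and the Euler defect of a graph. -/

namespace Pool.Agent.Helper98.Gn

open Equiv Equiv.Perm SimpleGraph

variable {V : Type*}

/-- The rotation: `(u, v) ↦ (u, ρ u v)`. -/
def sig (ρ : V → Perm V) : Perm (V × V) where
  toFun d := (d.1, ρ d.1 d.2)
  invFun d := (d.1, (ρ d.1).symm d.2)
  left_inv d := by simp
  right_inv d := by simp

open Classical in
/-- The flip map on pairs: reverse the darts of `G`, fix all other pairs. -/
noncomputable def flipFun (G : SimpleGraph V) (d : V × V) : V × V :=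
  if G.Adj d.1 d.2 then (d.2, d.1) else d

theorem flipFun_flipFun (G : SimpleGraph V) (d : V × V) : flipFun G (flipFun G d) = d := by
  unfold flipFun
  by_cases h : G.Adj d.1 d.2
  · simp [h, h.symm]
  · simp [h]

/-- The flip: reverse the darts of `G`, fix all other pairs. -/
noncomputable def flip (G : SimpleGraph V) : Perm (V × V) :=
  ⟨flipFun G, flipFun G, flipFun_flipFun G, flipFun_flipFun G⟩

/-- The face-tracing permutation. -/
noncomputable def face (ρ : V → Perm V) (G : SimpleGraph V) : Perm (V × V) := sig ρ * flip G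

theorem flip_adj {G : SimpleGraph V} {u v : V} (h : G.Adj u v) : flip G (u, v) = (v, u) := by
  change flipFun G (u, v) = (v, u)
  unfold flipFun
  exact if_pos h

theorem flip_not {G : SimpleGraph V} {u v : V} (h : ¬ G.Adj u v) : flip G (u, v) = (u, v) := by
  change flipFun G (u, v) = (u, v)
  unfold flipFun
  exact if_neg h

theorem flip_flip (G : SimpleGraph V) (d : V × V) : flip G (flip G d) = d := by
  by_cases h : G.Adj d.1 d.2
  · rw [show d = (d.1, d.2) from rfl, flip_adj h, flip_adj h.symm]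
  · rw [show d = (d.1, d.2) from rfl, flip_not h, flip_not h]

theorem flip_mul_self (G : SimpleGraph V) : flip G * flip G = 1 := by
  ext1 d
  simp [flip_flip]

theorem sig_apply (ρ : V → Perm V) (u v : V) : sig ρ (u, v) = (u, ρ u v) := rfl

theorem face_adj {ρ : V → Perm V} {G : SimpleGraph V} {u v : V} (h : G.Adj u v) :
    face ρ G (u, v) = (v, ρ v u) := by
  rw [face, Perm.mul_apply, flip_adj h, sig_apply]

theorem face_not {ρ : V → Perm V} {G : SimpleGraph V} {u v : V} (h : ¬ G.Adj u v) :
    face ρ G (u, v) = (u, ρ u v) := by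
  rw [face, Perm.mul_apply, flip_not h, sig_apply]

theorem flip_add [DecidableEq V] {G : SimpleGraph V} {u v : V} (h : ¬ G.Adj u v) (hne : u ≠ v) :
    flip (G ⊔ edge u v) = flip G * swap (u, v) (v, u) := by
  have h' : ¬ G.Adj v u := fun h1 => h h1.symm
  ext1 ⟨a, b⟩
  rw [Perm.mul_apply]
  by_cases h1 : (a, b) = (u, v)
  · obtain ⟨rfl, rfl⟩ := Prod.mk.inj h1
    rw [swap_apply_left, flip_not h', flip_adj]
    rw [sup_adj, edge_adj]
    exact Or.inr ⟨Or.inl ⟨rfl, rfl⟩, hne⟩
  by_cases h2 : (a, b) = (v, u)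
  · obtain ⟨rfl, rfl⟩ := Prod.mk.inj h2
    rw [swap_apply_right, flip_not h, flip_adj]
    rw [sup_adj, edge_adj]
    exact Or.inr ⟨Or.inr ⟨rfl, rfl⟩, hne.symm⟩
  rw [swap_apply_of_ne_of_ne h1 h2]
  by_cases h3 : G.Adj a b
  · rw [flip_adj h3, flip_adj]
    exact Or.inl h3
  · rw [flip_not h3, flip_not]
    rw [sup_adj, edge_adj]
    rintro (h4 | ⟨⟨rfl, rfl⟩ | ⟨rfl, rfl⟩, _⟩)
    · exact h3 h4
    · exact h1 rfl
    · exact h2 rfl

theorem face_add [DecidableEq V] {ρ : V → Perm V} {G : SimpleGraph V} {u v : V}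
    (h : ¬ G.Adj u v) (hne : u ≠ v) :
    face ρ (G ⊔ edge u v) = face ρ G * swap (u, v) (v, u) := by
  rw [face, face, flip_add h hne, mul_assoc]

theorem face_reach [Finite V] {ρ : V → Perm V} {G : SimpleGraph V} {d d' : V × V}
    (h : SameCycle (face ρ G) d d') : G.Reachable d.1 d'.1 := by
  refine sc_induct (π := face ρ G) (fun d d' => G.Reachable d.1 d'.1)
    (fun _ => Reachable.refl _) (fun _ _ _ h1 h2 => h1.trans h2) ?_ h
  rintro ⟨u, v⟩
  by_cases h : G.Adj u v
  · rw [face_adj h]
    exact h.reachable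
  · rw [face_not h]

/-- The number of connected components. -/
noncomputable def kap (G : SimpleGraph V) : ℕ := Nat.card G.ConnectedComponent

theorem reach_induct {G : SimpleGraph V} (R : V → V → Prop) (hr : ∀ a, R a a)
    (ht : ∀ a b c, R a b → R b c → R a c) (h : ∀ a b, G.Adj a b → R a b) {a b : V}
    (hab : G.Reachable a b) : R a b := by
  obtain ⟨w⟩ := hab
  induction w with
  | nil => exact hr _
  | cons h1 _ ih => exact ht _ _ _ (h _ _ h1) ih

theorem reach_add {G : SimpleGraph V} {u v : V} (a b : V) :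
    (G ⊔ edge u v).Reachable a b ↔ G.Reachable a b ∨
      ((G.Reachable a u ∨ G.Reachable a v) ∧ (G.Reachable b u ∨ G.Reachable b v)) := by
  constructor
  · intro h
    refine reach_induct (G := G ⊔ edge u v) (fun a b => G.Reachable a b ∨
      ((G.Reachable a u ∨ G.Reachable a v) ∧ (G.Reachable b u ∨ G.Reachable b v)))
      (fun a => Or.inl (Reachable.refl _)) ?_ ?_ h
    · intro a b c h1 h2
      rcases h1 with h1 | ⟨h1, h1'⟩
      · rcases h2 with h2 | ⟨h2, h2'⟩
        · exact Or.inl (h1.trans h2)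
        · right
          refine ⟨?_, h2'⟩
          rcases h2 with h2 | h2
          · exact Or.inl (h1.trans h2)
          · exact Or.inr (h1.trans h2)
      · rcases h2 with h2 | ⟨h2, h2'⟩
        · right
          refine ⟨h1, ?_⟩
          rcases h1' with h | h
          · exact Or.inl (h2.symm.trans h)
          · exact Or.inr (h2.symm.trans h)
        · exact Or.inr ⟨h1, h2'⟩
    · intro a b hab
      rw [sup_adj, edge_adj] at hab
      rcases hab with h | ⟨⟨rfl, rfl⟩ | ⟨rfl, rfl⟩, _⟩
      · exact Or.inl h.reachable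
      · exact Or.inr ⟨Or.inl (Reachable.refl _), Or.inr (Reachable.refl _)⟩
      · exact Or.inr ⟨Or.inr (Reachable.refl _), Or.inl (Reachable.refl _)⟩
  · have hle : G ≤ G ⊔ edge u v := le_sup_left
    have huv : (G ⊔ edge u v).Reachable u v := by
      by_cases h : u = v
      · subst h
        exact Reachable.refl _
      · apply Adj.reachable
        rw [sup_adj, edge_adj]
        exact Or.inr ⟨Or.inl ⟨rfl, rfl⟩, h⟩
    rintro (h | ⟨h1, h2⟩)
    · exact h.mono hle
    · have ha : (G ⊔ edge u v).Reachable a u := by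
        rcases h1 with h | h
        · exact h.mono hle
        · exact (h.mono hle).trans huv.symm
      have hb : (G ⊔ edge u v).Reachable b u := by
        rcases h2 with h | h
        · exact h.mono hle
        · exact (h.mono hle).trans huv.symm
      exact ha.trans hb.symm

theorem kap_add_not [Finite V] {G : SimpleGraph V} {u v : V} (h : ¬ G.Reachable u v) :
    kap (G ⊔ edge u v) + 1 = kap G :=
  card_quot_merge G.reachableSetoid (G ⊔ edge u v).reachableSetoid u v h
    (fun a b => reach_add a b)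

theorem kap_congr {G H : SimpleGraph V} (h : ∀ a b, G.Reachable a b ↔ H.Reachable a b) :
    kap G = kap H := by
  unfold kap
  apply Nat.card_congr
  exact Quot.congr (Equiv.refl V) h

theorem reach_add_of {G : SimpleGraph V} {u v : V} (h : G.Reachable u v) (a b : V) :
    (G ⊔ edge u v).Reachable a b ↔ G.Reachable a b := by
  rw [reach_add]
  constructor
  · rintro (h1 | ⟨h1, h2⟩)
    · exact h1
    · have ha : G.Reachable a u := by
        rcases h1 with h1 | h1
        · exact h1
        · exact h1.trans h.symm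
      have hb : G.Reachable b u := by
        rcases h2 with h1 | h1
        · exact h1
        · exact h1.trans h.symm
      exact ha.trans hb.symm
  · exact Or.inl

theorem kap_add_reach {G : SimpleGraph V} {u v : V} (h : G.Reachable u v) :
    kap (G ⊔ edge u v) = kap G :=
  kap_congr (fun a b => reach_add_of h a b)

theorem ecard_add [Finite V] {G : SimpleGraph V} {u v : V} (h : ¬ G.Adj u v) (hne : u ≠ v) :
    (G ⊔ edge u v).edgeSet.ncard = G.edgeSet.ncard + 1 := by
  rw [edgeSet_sup, edgeSet_edge_of_ne hne, Set.union_singleton]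
  exact Set.ncard_insert_of_notMem (by simpa using h) (Set.toFinite _)

theorem kap_bot [Finite V] : kap (⊥ : SimpleGraph V) = Nat.card V := by
  unfold kap
  apply Nat.card_congr
  refine Equiv.symm (Equiv.ofBijective (fun x => SimpleGraph.connectedComponentMk _ x) ⟨?_, ?_⟩)
  · intro a b h
    have h1 : (⊥ : SimpleGraph V).Reachable a b := ConnectedComponent.exact h
    exact reach_induct (G := (⊥ : SimpleGraph V)) (fun a b => a = b) (fun _ => rfl)
      (fun _ _ _ h1 h2 => h1.trans h2) (fun a b h => absurd h (by simp)) h1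
  · intro q
    exact q.exists_rep

theorem flip_bot : flip (⊥ : SimpleGraph V) = 1 := by
  ext1 ⟨a, b⟩
  rw [flip_not (by simp)]
  rfl

theorem face_bot (ρ : V → Perm V) : face ρ ⊥ = sig ρ := by
  rw [face, flip_bot, mul_one]

/-- Euler defect: twice the genus of the embedding given by `ρ`. -/
noncomputable def df (ρ : V → Perm V) (G : SimpleGraph V) : ℤ :=
  2 * (kap G : ℤ) + G.edgeSet.ncard - Nat.card V - cyc (face ρ G)

/-- `ρ` is a full rotation: each `ρ v` is a single cyclic permutation of `V`. -/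
def Full (ρ : V → Perm V) : Prop := ∀ v a b, SameCycle (ρ v) a b

theorem sig_pow (ρ : V → Perm V) (u v : V) (n : ℕ) : (sig ρ ^ n) (u, v) = (u, (ρ u ^ n) v) := by
  induction n with
  | zero => simp
  | succ n ih =>
    rw [pow_succ', Perm.mul_apply, ih, sig_apply, pow_succ', Perm.mul_apply]

theorem sc_sig_of [Finite V] {ρ : V → Perm V} {u a b : V} (h : SameCycle (ρ u) a b) :
    SameCycle (sig ρ) (u, a) (u, b) := by
  obtain ⟨n, hn⟩ := h.exists_nat_pow_eq
  refine ⟨(n : ℤ), ?_⟩
  rw [zpow_natCast, sig_pow, hn]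

theorem sc_sig_fst [Finite V] {ρ : V → Perm V} {d d' : V × V} (h : SameCycle (sig ρ) d d') :
    d.1 = d'.1 :=
  sc_induct (π := sig ρ) (fun d d' => d.1 = d'.1) (fun _ => rfl)
    (fun _ _ _ h1 h2 => h1.trans h2) (fun _ => rfl) h

theorem cyc_sig_full [Finite V] {ρ : V → Perm V} (h : Full ρ) : cyc (sig ρ) = Nat.card V := by
  unfold cyc
  apply Nat.card_congr
  refine Equiv.symm (Equiv.ofBijective (fun v => Quotient.mk _ (v, v)) ⟨?_, ?_⟩)
  · intro a b hab
    exact sc_sig_fst (Quotient.exact hab)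
  · intro q
    obtain ⟨⟨a, b⟩, rfl⟩ := Quotient.exists_rep q
    exact ⟨a, Quotient.sound (sc_sig_of (h a a b))⟩

theorem df_bot [Finite V] {ρ : V → Perm V} (h : Full ρ) : df ρ ⊥ = 0 := by
  unfold df
  rw [kap_bot, face_bot, cyc_sig_full h]
  simp
  ring

theorem df_add_not [Finite V] {ρ : V → Perm V} {G : SimpleGraph V} {u v : V}
    (h : ¬ G.Reachable u v) : df ρ (G ⊔ edge u v) = df ρ G := by
  classical
  have hne : u ≠ v := fun h1 => h (h1 ▸ Reachable.refl u)
  have hadj : ¬ G.Adj u v := fun h1 => h h1.reachable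
  have h1 := kap_add_not h
  have h2 := ecard_add hadj hne
  have h3 : cyc (face ρ (G ⊔ edge u v)) + 1 = cyc (face ρ G) := by
    rw [face_add hadj hne]
    apply cyc_merge
    intro h4
    exact h (face_reach h4)
  unfold df
  push_cast [h2]
  omega

theorem df_add_split [Finite V] {ρ : V → Perm V} {G : SimpleGraph V} {u v : V}
    (hadj : ¬ G.Adj u v) (hne : u ≠ v) (hs : SameCycle (face ρ G) (u, v) (v, u)) :
    df ρ (G ⊔ edge u v) = df ρ G := by
  classical
  have h1 := kap_add_reach (face_reach hs)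
  have h2 := ecard_add hadj hne
  have h3 : cyc (face ρ (G ⊔ edge u v)) = cyc (face ρ G) + 1 := by
    rw [face_add hadj hne]
    apply cyc_split _ hs
    intro h
    exact hne (Prod.mk.inj h).1
  simp only at h1
  unfold df
  rw [h1, h2, h3]
  push_cast
  ring

theorem df_add_merge [Finite V] {ρ : V → Perm V} {G : SimpleGraph V} {u v : V}
    (hadj : ¬ G.Adj u v) (hne : u ≠ v) (hr : G.Reachable u v)
    (hs : ¬ SameCycle (face ρ G) (u, v) (v, u)) :
    df ρ (G ⊔ edge u v) = df ρ G + 2 := by
  classical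
  have h1 := kap_add_reach hr
  have h2 := ecard_add hadj hne
  have h3 : cyc (face ρ (G ⊔ edge u v)) + 1 = cyc (face ρ G) := by
    rw [face_add hadj hne]
    exact cyc_merge hs
  unfold df
  rw [h1, h2]
  push_cast
  omega

theorem df_add_le [Finite V] (ρ : V → Perm V) (G : SimpleGraph V) (u v : V) :
    df ρ G ≤ df ρ (G ⊔ edge u v) ∧ df ρ (G ⊔ edge u v) ≤ df ρ G + 2 := by
  by_cases hne : u = v
  · subst hne
    simp
  by_cases hadj : G.Adj u v
  · rw [sup_edge_of_adj _ hadj]
    omega
  by_cases hr : G.Reachable u v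
  · by_cases hs : SameCycle (face ρ G) (u, v) (v, u)
    · rw [df_add_split hadj hne hs]
      omega
    · rw [df_add_merge hadj hne hr hs]
      omega
  · rw [df_add_not hr]
    omega

/-- Induction by adding edges, starting from a subgraph `H`. -/
theorem edge_induct [Finite V] {H G : SimpleGraph V} (hHG : H ≤ G) (P : SimpleGraph V → Prop)
    (h0 : P H) (h1 : ∀ K u v, H ≤ K → K ≤ G → ¬ K.Adj u v → G.Adj u v → P K →
      P (K ⊔ edge u v)) : P G := by
  have key : ∀ n : ℕ, ∀ K, H ≤ K → K ≤ G → (G.edgeSet \ K.edgeSet).ncard = n → P K → P G := by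
    intro n
    induction n with
    | zero =>
      intro K hK1 hK2 hn hP
      have h2 : G.edgeSet \ K.edgeSet = ∅ := by
        rwa [Set.ncard_eq_zero (Set.toFinite _)] at hn
      have h3 : G.edgeSet ⊆ K.edgeSet := Set.sdiff_eq_empty.1 h2
      have h4 : G = K := le_antisymm (edgeSet_subset_edgeSet.1 h3) hK2
      rwa [h4]
    | succ n ih =>
      intro K hK1 hK2 hn hP
      have h2 : (G.edgeSet \ K.edgeSet).Nonempty := by
        rw [Set.nonempty_iff_ne_empty]
        intro h
        rw [h] at hn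
        simp at hn
      obtain ⟨e, he1, he2⟩ := h2
      induction e using Sym2.inductionOn with
      | hf u v =>
        rw [mem_edgeSet] at he1 he2
        have h3 := h1 K u v hK1 hK2 he2 he1 hP
        refine ih (K ⊔ edge u v) (hK1.trans le_sup_left) (sup_le hK2 ?_) ?_ h3
        · rw [edge_le_iff]
          exact Or.inr he1
        · have hne : u ≠ v := he1.ne
          rw [edgeSet_sup, edgeSet_edge_of_ne hne, ← Set.sdiff_sdiff,
            Set.ncard_sdiff_singleton_of_mem (by simp [he1, he2])]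
          omega
  exact key _ H (le_refl _) hHG rfl h0

theorem df_mono [Finite V] (ρ : V → Perm V) {H G : SimpleGraph V} (h : H ≤ G) :
    df ρ H ≤ df ρ G := by
  refine edge_induct h (fun K => df ρ H ≤ df ρ K) (le_refl _) ?_
  intro K u v _ _ _ _ hK
  exact hK.trans (df_add_le ρ K u v).1

theorem df_nonneg [Finite V] {ρ : V → Perm V} (hρ : Full ρ) (G : SimpleGraph V) : 0 ≤ df ρ G := by
  rw [← df_bot hρ]
  exact df_mono ρ bot_le

/-- `G` embeds on the orientable surface of genus `g`. -/
def Emb (g : ℕ) (G : SimpleGraph V) : Prop := ∃ ρ : V → Perm V, Full ρ ∧ df ρ G ≤ 2 * g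

theorem Emb.mono_graph [Finite V] {g : ℕ} {H G : SimpleGraph V} (h : Emb g G) (hHG : H ≤ G) :
    Emb g H := by
  obtain ⟨ρ, hρ, h1⟩ := h
  exact ⟨ρ, hρ, (df_mono ρ hHG).trans h1⟩

theorem Emb.mono_genus {g g' : ℕ} {G : SimpleGraph V} (h : Emb g G) (hg : g ≤ g') :
    Emb g' G := by
  obtain ⟨ρ, hρ, h1⟩ := h
  refine ⟨ρ, hρ, h1.trans ?_⟩
  omega

theorem Emb.add_bridge [Finite V] {g : ℕ} {G : SimpleGraph V} (h : Emb g G) {u v : V}
    (hr : ¬ G.Reachable u v) : Emb g (G ⊔ edge u v) := by
  obtain ⟨ρ, hρ, h1⟩ := h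
  exact ⟨ρ, hρ, by rwa [df_add_not hr]⟩

theorem Emb.add_any [Finite V] {g : ℕ} {G : SimpleGraph V} (h : Emb g G) (u v : V) :
    Emb (g + 1) (G ⊔ edge u v) := by
  obtain ⟨ρ, hρ, h1⟩ := h
  refine ⟨ρ, hρ, (df_add_le ρ G u v).2.trans ?_⟩
  push_cast
  omega

end Pool.Agent.Helper98.Gn
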