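import Pool.Agent.Helper98.Gn.EncC

/-! The standard definition of embeddability through rotation systems on darts, and its
equivalence with the definition with dummies. -/

namespace Pool.Agent.Helper98.Gn

open Equiv Equiv.Perm SimpleGraph

/-- Reversal of darts. -/
def rev {V : Type*} (G : SimpleGraph V) : Equiv.Perm G.Dart :=
  Function.Involutive.toPerm SimpleGraph.Dart.symm SimpleGraph.Dart.symm_involutive

/-- A rotation system of `G`: a permutation of the darts (oriented edges) of `G` whose cycles are
exactly the sets of all darts leaving a given vertex. -/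
def IsRotation {V : Type*} (G : SimpleGraph V) (σ : Equiv.Perm G.Dart) : Prop :=
  ∀ d e : G.Dart, σ.SameCycle d e ↔ d.fst = e.fst

/-- The number of faces of the rotation system `σ`: the orbits of `σ ∘ rev`, plus one face for
every isolated vertex (a component with no dart). -/
noncomputable def faceCount {V : Type*} (G : SimpleGraph V) (σ : Equiv.Perm G.Dart) : ℕ :=
  Nat.card (Quotient (Equiv.Perm.SameCycle.setoid (σ * rev G))) + {v | ∀ w, ¬ G.Adj v w}.ncard

/-- `G` can be drawn without crossings on the orientable surface of genus `h`: it has a rotation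
system whose total genus (the sum over the components, by Euler's formula
`2 c - 2 genus = v - e + f`) is at most `h`. -/
def EmbedsOn {V : Type*} (h : ℕ) (G : SimpleGraph V) : Prop :=
  ∃ σ : Equiv.Perm G.Dart, IsRotation G σ ∧
    2 * (Nat.card G.ConnectedComponent : ℤ) - 2 * (h : ℤ) ≤
      (Nat.card V : ℤ) - (G.edgeSet.ncard : ℤ) + (faceCount G σ : ℤ)

variable {V : Type*}

theorem finite_dart [Finite V] (G : SimpleGraph V) : Finite G.Dart :=
  Finite.of_injective (fun d : G.Dart => d.toProd) Dart.toProd_injective

/-- all neighbours of `v` are in one cycle of `ρ v` -/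
def Nb (G : SimpleGraph V) (ρ : V → Perm V) : Prop :=
  ∀ v a b, G.Adj v a → G.Adj v b → SameCycle (ρ v) a b

theorem sc_sig_snd [Finite V] {ρ : V → Perm V} {v a b : V}
    (h : SameCycle (sig ρ) (v, a) (v, b)) : SameCycle (ρ v) a b := by
  have := sc_induct (π := sig ρ) (fun d d' => d.1 = d'.1 ∧ SameCycle (ρ d.1) d.2 d'.2)
    (fun d => ⟨rfl, SameCycle.refl _ _⟩)
    (fun d d' d'' h1 h2 => ⟨h1.1.trans h2.1, h1.2.trans (by rw [h1.1]; exact h2.2)⟩)
    (fun d => ⟨rfl, sc_step _ _⟩) h
  exact this.2

theorem fill [Finite V] {G : SimpleGraph V} : ∀ (k : ℕ) (ρ : V → Perm V), Nb G ρ →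
    cyc (sig ρ) = k → ∃ ρ' : V → Perm V, Full ρ' ∧
      cyc (face ρ' G) + cyc (sig ρ) = cyc (face ρ G) + Nat.card V := by
  classical
  intro k
  induction k using Nat.strong_induction_on with
  | _ k ih =>
    intro ρ hN hk
    by_cases hfull : Full ρ
    · exact ⟨ρ, hfull, by rw [cyc_sig_full hfull]⟩
    · obtain ⟨v, a, b, hab, hb⟩ : ∃ v a b, ¬ SameCycle (ρ v) a b ∧
          ∀ c, SameCycle (ρ v) b c → ¬ G.Adj v c := by
        unfold Full at hfull
        push Not at hfull
        obtain ⟨v, a, b, hab⟩ := hfull
        by_cases h : ∃ c, SameCycle (ρ v) b c ∧ G.Adj v c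
        · obtain ⟨c, hc1, hc2⟩ := h
          refine ⟨v, b, a, fun h => hab h.symm, ?_⟩
          intro c' h1 h2
          exact hab (h1.trans ((hN v c' c h2 hc2).trans hc1.symm))
        · push Not at h
          exact ⟨v, a, b, hab, h⟩
      have hnb : ¬ G.Adj v b := hb b (SameCycle.refl _ _)
      obtain ⟨ρ1, hρ1⟩ : ∃ ρ1, ρ1 = Function.update ρ v (ρ v * swap a b) := ⟨_, rfl⟩
      have e1 : cyc (sig ρ1) + 1 = cyc (sig ρ) := by
        rw [hρ1, sig_update]
        exact cyc_merge (fun h => hab (sc_sig_snd h))
      have e2 : cyc (face ρ1 G) + 1 = cyc (face ρ G) := by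
        rw [hρ1, face_update, flip_not hnb]
        apply cyc_merge
        intro h
        have h1 := mem_of_sc (π := face ρ G) (S := {d | d.1 = v ∧ SameCycle (ρ v) b d.2}) (by
          rintro ⟨p, q⟩ ⟨hp, hq⟩
          simp only at hp hq
          subst hp
          rw [face_not (hb q hq)]
          exact ⟨rfl, hq.trans (sc_step _ _)⟩) h.symm ⟨rfl, SameCycle.refl _ _⟩
        obtain ⟨h2, h3⟩ := h1
        by_cases ha : G.Adj v a
        · rw [flip_adj ha] at h2
          exact ha.ne h2.symm
        · rw [flip_not ha] at h3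
          exact hab h3.symm
      have hN1 : Nb G ρ1 := by
        intro p c c' hc hc'
        by_cases hp : p = v
        · subst hp
          rw [hρ1, Function.update_self, sc_merge hab]
          exact Or.inl (hN p c c' hc hc')
        · rw [hρ1, Function.update_of_ne hp]
          exact hN p c c' hc hc'
      obtain ⟨ρ', h1, h2⟩ := ih (cyc (sig ρ1)) (by omega) ρ1 hN1 rfl
      exact ⟨ρ', h1, by omega⟩

theorem drain [Finite V] {G : SimpleGraph V} : ∀ (k : ℕ) (ρ : V → Perm V), Nb G ρ →
    {d : V × V | ¬ G.Adj d.1 d.2 ∧ ρ d.1 d.2 ≠ d.2}.ncard = k → ∃ s : V → Perm V, Nb G s ∧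
      (∀ v w, ¬ G.Adj v w → s v w = w) ∧
      cyc (face s G) + cyc (sig ρ) = cyc (face ρ G) + cyc (sig s) := by
  classical
  intro k
  induction k using Nat.strong_induction_on with
  | _ k ih =>
    intro ρ hN hk
    by_cases hfix : ∀ v w, ¬ G.Adj v w → ρ v w = w
    · exact ⟨ρ, hN, hfix, rfl⟩
    · push Not at hfix
      obtain ⟨v, w, hvw, hw⟩ := hfix
      obtain ⟨a, ha⟩ : ∃ a, ρ v a = w := (ρ v).surjective w
      have haw : a ≠ w := by
        intro h
        rw [h] at ha
        exact hw ha
      have hfv : flip G (v, w) = (v, w) := flip_not hvw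
      obtain ⟨ρ1, hρ1⟩ : ∃ ρ1, ρ1 = Function.update ρ v (ρ v * swap a w) := ⟨_, rfl⟩
      have hr2 : ρ1 v = ρ v * swap a w := by rw [hρ1, Function.update_self]
      have h2w : ρ1 v w = w := by
        rw [hr2, Perm.mul_apply, swap_apply_right, ha]
      have e1 : cyc (face ρ1 G) = cyc (face ρ G) + 1 := by
        rw [hρ1, face_update, hfv]
        apply cyc_split
        · intro h
          have := congrArg (flip G) h
          rw [flip_flip, hfv] at this
          exact haw (Prod.mk.inj this).2
        · have : face ρ G (flip G (v, a)) = (v, w) := by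
            rw [face, Perm.mul_apply, flip_flip, sig_apply, ha]
          rw [← this]
          exact sc_step _ _
      have e2 : cyc (sig ρ1) = cyc (sig ρ) + 1 := by
        rw [hρ1, sig_update]
        apply cyc_split
        · intro h
          exact haw (Prod.mk.inj h).2
        · have : sig ρ (v, a) = (v, w) := by rw [sig_apply, ha]
          rw [← this]
          exact sc_step _ _
      have hN1 : Nb G ρ1 := by
        intro p c c' hc hc'
        by_cases hp : p = v
        · subst hp
          have hcw : c ≠ w := fun h => hvw (h ▸ hc)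
          have hcw' : c' ≠ w := fun h => hvw (h ▸ hc')
          have hns : ¬ SameCycle (ρ1 p) a w := fun h => haw (h.eq_of_right h2w)
          have hback : ρ p = ρ1 p * swap a w := by
            rw [hr2, mul_assoc, swap_mul_self, mul_one]
          have h5 := hN p c c' hc hc'
          rw [hback, sc_merge hns] at h5
          rcases h5 with h5 | ⟨h5, h6⟩
          · exact h5
          · have h5' : SameCycle (ρ1 p) c a := h5.resolve_right (fun h => hcw (h.eq_of_right h2w))
            have h6' : SameCycle (ρ1 p) c' a :=
              h6.resolve_right (fun h => hcw' (h.eq_of_right h2w))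
            exact h5'.trans h6'.symm
        · rw [hρ1, Function.update_of_ne hp]
          exact hN p c c' hc hc'
      have hlt : {d : V × V | ¬ G.Adj d.1 d.2 ∧ ρ1 d.1 d.2 ≠ d.2}.ncard < k := by
        rw [← hk]
        apply Set.ncard_lt_ncard _ (Set.toFinite _)
        rw [Set.ssubset_iff_subset_ne]
        constructor
        · rintro ⟨p, q⟩ ⟨h1, h2⟩
          simp only at h1 h2
          refine ⟨h1, ?_⟩
          simp only
          by_cases hp : p = v
          · subst hp
            intro h3
            have hqw : q ≠ w := by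
              intro h
              rw [h] at h2
              exact h2 h2w
            have hqa : q ≠ a := by
              intro h
              rw [h, ha] at h3
              exact haw h3.symm
            rw [hr2, Perm.mul_apply, swap_apply_of_ne_of_ne hqa hqw] at h2
            exact h2 h3
          · rwa [hρ1, Function.update_of_ne hp] at h2
        · intro h
          have h3 : (v, w) ∈ {d : V × V | ¬ G.Adj d.1 d.2 ∧ ρ d.1 d.2 ≠ d.2} := ⟨hvw, hw⟩
          rw [← h] at h3
          exact h3.2 h2w
      obtain ⟨s, h1, h2, h3⟩ := ih _ hlt ρ1 hN1 rfl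
      exact ⟨s, h1, h2, by omega⟩

/-- `σ` is the restriction of the family `s`, which fixes the dummies -/
structure Link (G : SimpleGraph V) (s : V → Perm V) (σ : Perm G.Dart) : Prop where
  fix : ∀ v w, ¬ G.Adj v w → s v w = w
  app : ∀ d : G.Dart, (σ d).toProd = (d.fst, s d.fst d.snd)

theorem Link.count [Finite V] {G : SimpleGraph V} {s : V → Perm V} {σ : Perm G.Dart}
    (h : Link G s σ) : cyc (face s G) + cyc σ = cyc (sig s) + cyc (σ * rev G) := by
  have := finite_dart G
  have hinj : Function.Injective (fun d : G.Dart => d.toProd) := Dart.toProd_injective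
  have hnot : ∀ x : V × V, x ∉ Set.range (fun d : G.Dart => d.toProd) → ¬ G.Adj x.1 x.2 := by
    intro x hx hadj
    exact hx ⟨⟨x, hadj⟩, rfl⟩
  have e1 := cyc_out hinj (f := sig s) (f' := 1) (h := σ) (h' := 1)
    (fun d => (h.app d).symm) (fun d => rfl) (by
      rintro ⟨v, w⟩ hx
      change (v, s v w) = (v, w)
      rw [h.fix v w (hnot _ hx)])
  have e2 := cyc_out hinj (f := face s G) (f' := 1) (h := σ * rev G) (h' := 1)
    (fun d => by
      have h1 : ((σ * rev G) d).toProd = (d.symm.fst, s d.symm.fst d.symm.snd) := h.app d.symm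
      rw [h1]
      exact face_adj d.adj) (fun d => rfl) (by
      rintro ⟨v, w⟩ hx
      rw [face_not (hnot _ hx), h.fix v w (hnot _ hx)]
      rfl)
  omega

theorem Link.rot_of_nb [Finite V] {G : SimpleGraph V} {s : V → Perm V} {σ : Perm G.Dart}
    (h : Link G s σ) (hN : Nb G s) : IsRotation G σ := by
  have := finite_dart G
  have hinj : Function.Injective (fun d : G.Dart => d.toProd) := Dart.toProd_injective
  intro d e
  rw [sc_enum hinj (f := sig s) (fun d => (h.app d).symm)]
  constructor
  · intro h1
    exact sc_sig_fst h1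
  · intro h1
    have h2 : e.toProd = (d.fst, e.snd) := by
      rw [h1]
    change SameCycle (sig s) d.toProd e.toProd
    rw [h2]
    have h3 : G.Adj d.fst e.snd := by
      rw [h1]
      exact e.adj
    exact sc_sig_of (hN d.fst d.snd e.snd d.adj h3)

theorem Link.nb_of_rot [Finite V] {G : SimpleGraph V} {s : V → Perm V} {σ : Perm G.Dart}
    (h : Link G s σ) (hr : IsRotation G σ) : Nb G s := by
  have := finite_dart G
  have hinj : Function.Injective (fun d : G.Dart => d.toProd) := Dart.toProd_injective
  intro v a b ha hb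
  have h1 : SameCycle σ ⟨(v, a), ha⟩ ⟨(v, b), hb⟩ := (hr _ _).2 rfl
  rw [sc_enum hinj (f := sig s) (fun d => (h.app d).symm)] at h1
  exact sc_sig_snd h1

/-- the number of cycles of a rotation system -/
theorem cyc_rot [Finite V] {G : SimpleGraph V} {σ : Perm G.Dart} (hr : IsRotation G σ) :
    cyc σ + iso G = Nat.card V := by
  have := finite_dart G
  have h1 : cyc σ = {v | ∀ w, ¬ G.Adj v w}ᶜ.ncard := by
    unfold cyc
    change _ = Nat.card _
    have key : ∀ d : G.Dart, d.fst ∈ {v | ∀ w, ¬ G.Adj v w}ᶜ := fun d h => h d.snd d.adj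
    apply Nat.card_congr
    refine Equiv.ofBijective
      (Quotient.lift (fun d : G.Dart => (⟨d.fst, key d⟩ : ({v | ∀ w, ¬ G.Adj v w}ᶜ : Set V)))
        (fun d e h => Subtype.ext ((hr d e).1 h))) ⟨?_, ?_⟩
    · intro p q
      induction p using Quotient.inductionOn with
      | h d =>
        induction q using Quotient.inductionOn with
        | h e =>
          intro h
          exact Quotient.sound ((hr d e).2 (congrArg Subtype.val h))
    · rintro ⟨v, hv⟩
      have : ∃ w, G.Adj v w := by
        by_contra h
        push Not at h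
        exact hv h
      obtain ⟨w, hw⟩ := this
      exact ⟨Quotient.mk _ ⟨(v, w), hw⟩, rfl⟩
  rw [h1]
  unfold iso
  have := Set.ncard_add_ncard_compl {v | ∀ w, ¬ G.Adj v w}
  omega

theorem exists_link_of_rot [Finite V] {G : SimpleGraph V} {σ : Perm G.Dart}
    (hr : IsRotation G σ) : ∃ s, Link G s σ := by
  classical
  have hf : ∀ d : G.Dart, (σ d).fst = d.fst := fun d => ((hr d (σ d)).1 (sc_step _ _)).symm
  have hf' : ∀ d : G.Dart, (σ.symm d).fst = d.fst := by
    intro d
    have := hf (σ.symm d)
    rw [Equiv.apply_symm_apply] at this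
    exact this.symm
  let s : V → Perm V := fun v =>
    { toFun := fun w => if h : G.Adj v w then (σ ⟨(v, w), h⟩).snd else w
      invFun := fun w => if h : G.Adj v w then (σ.symm ⟨(v, w), h⟩).snd else w
      left_inv := by
        intro w
        beta_reduce
        by_cases h : G.Adj v w
        · have h1 := hf ⟨(v, w), h⟩
          have h2 : σ ⟨(v, w), h⟩ = ⟨(v, (σ ⟨(v, w), h⟩).snd), by
              have := (σ ⟨(v, w), h⟩).adj
              rw [h1] at this
              exact this⟩ := by
            apply Dart.ext
            exact Prod.ext h1 rfl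
          have h3 : G.Adj v (σ ⟨(v, w), h⟩).snd := by
            have := (σ ⟨(v, w), h⟩).adj
            rw [h1] at this
            exact this
          rw [dif_pos h, dif_pos h3, ← h2, Equiv.symm_apply_apply]
        · rw [dif_neg h, dif_neg h]
      right_inv := by
        intro w
        beta_reduce
        by_cases h : G.Adj v w
        · have h1 := hf' ⟨(v, w), h⟩
          have h2 : σ.symm ⟨(v, w), h⟩ = ⟨(v, (σ.symm ⟨(v, w), h⟩).snd), by
              have := (σ.symm ⟨(v, w), h⟩).adj
              rw [h1] at this
              exact this⟩ := by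
            apply Dart.ext
            exact Prod.ext h1 rfl
          have h3 : G.Adj v (σ.symm ⟨(v, w), h⟩).snd := by
            have := (σ.symm ⟨(v, w), h⟩).adj
            rw [h1] at this
            exact this
          rw [dif_pos h, dif_pos h3, ← h2, Equiv.apply_symm_apply]
        · rw [dif_neg h, dif_neg h] }
  refine ⟨s, ?_, ?_⟩
  · intro v w h
    change (if h : G.Adj v w then (σ ⟨(v, w), h⟩).snd else w) = w
    rw [dif_neg h]
  · intro d
    have h1 : s d.fst d.snd = (σ d).snd := by
      change (if h : G.Adj d.fst d.snd then (σ ⟨(d.fst, d.snd), h⟩).snd else d.snd) = _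
      rw [dif_pos d.adj]
    rw [h1]
    exact Prod.ext (hf d) rfl

theorem exists_link_of_fix [Finite V] {G : SimpleGraph V} {s : V → Perm V}
    (hfix : ∀ v w, ¬ G.Adj v w → s v w = w) : ∃ σ : Perm G.Dart, Link G s σ := by
  have h1 : ∀ v w, G.Adj v w → G.Adj v (s v w) := by
    intro v w h
    by_contra h2
    have h3 := hfix v (s v w) h2
    have h4 := (s v).injective h3
    rw [h4] at h2
    exact h2 h
  have h1' : ∀ v w, G.Adj v w → G.Adj v ((s v).symm w) := by
    intro v w h
    by_contra h2
    have h3 := hfix v ((s v).symm w) h2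
    rw [Equiv.apply_symm_apply] at h3
    rw [← h3] at h2
    exact h2 h
  refine ⟨{ toFun := fun d => ⟨(d.fst, s d.fst d.snd), h1 _ _ d.adj⟩
            invFun := fun d => ⟨(d.fst, (s d.fst).symm d.snd), h1' _ _ d.adj⟩
            left_inv := ?_
            right_inv := ?_ }, hfix, ?_⟩
  · intro d
    apply Dart.ext
    simp
  · intro d
    apply Dart.ext
    simp
  · intro d
    rfl

theorem embedsOn_iff [Finite V] {G : SimpleGraph V} {h : ℕ} : EmbedsOn h G ↔ Emb h G := by
  constructor
  · rintro ⟨σ, hr, hle⟩
    obtain ⟨s, hs⟩ := exists_link_of_rot hr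
    obtain ⟨ρ, hρ, h1⟩ := fill _ s (hs.nb_of_rot hr) rfl
    refine ⟨ρ, hρ, ?_⟩
    have h2 := hs.count
    have h3 := cyc_rot hr
    have h4 : faceCount G σ = cyc (σ * rev G) + iso G := rfl
    unfold df kap
    rw [h4] at hle
    push_cast at hle
    omega
  · rintro ⟨ρ, hρ, hle⟩
    obtain ⟨s, hs1, hs2, hs3⟩ := drain (G := G) _ ρ (fun v a b _ _ => hρ v a b) rfl
    obtain ⟨σ, hσ⟩ := exists_link_of_fix hs2
    have hr := hσ.rot_of_nb hs1
    refine ⟨σ, hr, ?_⟩
    have h2 := hσ.count
    have h3 := cyc_rot hr
    have h4 : faceCount G σ = cyc (σ * rev G) + iso G := rfl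
    have h5 := cyc_sig_full hρ
    unfold df kap at hle
    rw [h4]
    push_cast
    omega

end Pool.Agent.Helper98.Gn
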