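import Pool.Agent.Helper98.Gn.EncC
import Pool.Agent.Helper98.Gn.Lower

/-! Switching lemmas I: cutting a leaf and adding an edge. -/

namespace Pool.Agent.Helper98.Gn

open Equiv Equiv.Perm SimpleGraph

theorem double_count {α β γ δ : Type*} [DecidableEq β] [DecidableEq δ] (A : Finset α)
    (B : Finset β) (X : α → Finset γ) (Y : β → Finset δ) (F : α → γ → β) (H : α → γ → δ)
    (hF : ∀ a ∈ A, ∀ c ∈ X a, F a c ∈ B ∧ H a c ∈ Y (F a c))
    (hinj : ∀ a ∈ A, ∀ c ∈ X a, ∀ a' ∈ A, ∀ c' ∈ X a', F a c = F a' c' → H a c = H a' c' →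
      a = a' ∧ c = c') : ∑ a ∈ A, (X a).card ≤ ∑ b ∈ B, (Y b).card := by
  classical
  rw [← Finset.card_sigma, ← Finset.card_sigma]
  apply Finset.card_le_card_of_injOn (fun p : (Σ _ : α, γ) => (⟨F p.1 p.2, H p.1 p.2⟩ : Σ _ : β, δ))
  · rintro ⟨a, c⟩ hp
    rw [Finset.mem_coe, Finset.mem_sigma] at hp ⊢
    exact hF a hp.1 c hp.2
  · rintro ⟨a, c⟩ hp ⟨a', c'⟩ hp' h
    rw [Finset.mem_coe, Finset.mem_sigma] at hp hp'
    have h1 := Sigma.mk.inj h
    have h2 := hinj a hp.1 c hp.2 a' hp'.1 c' hp'.2 h1.1 (eq_of_heq h1.2)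
    obtain ⟨rfl, rfl⟩ := h2
    rfl

variable {V : Type*}

/-- the leaves of `G` -/
def leaf (G : SimpleGraph V) : Set V := {x | ∃ y, ∀ w, G.Adj x w ↔ w = y}

theorem leaf_decomp {G : SimpleGraph V} {x y : V} (h : ∀ w, G.Adj x w ↔ w = y) :
    G = inside G {x}ᶜ ⊔ edge x y := by
  ext a b
  rw [sup_adj, edge_adj, inside_adj]
  simp only [Set.mem_compl_iff, Set.mem_singleton_iff]
  constructor
  · intro hab
    by_cases ha : a = x
    · subst ha
      exact Or.inr ⟨Or.inl ⟨rfl, (h b).1 hab⟩, hab.ne⟩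
    by_cases hb : b = x
    · subst hb
      exact Or.inr ⟨Or.inr ⟨(h a).1 hab.symm, rfl⟩, hab.ne⟩
    · exact Or.inl ⟨hab, ha, hb⟩
  · rintro (h1 | ⟨⟨rfl, rfl⟩ | ⟨rfl, rfl⟩, _⟩)
    · exact h1.1
    · exact (h _).2 rfl
    · exact ((h _).2 rfl).symm

theorem inside_compl_iso (G : SimpleGraph V) (x w : V) : ¬ (inside G {x}ᶜ).Adj x w :=
  fun h => h.2.1 rfl

theorem leaf_ecard [Finite V] {G : SimpleGraph V} {x y : V} (h : ∀ w, G.Adj x w ↔ w = y) :
    (inside G {x}ᶜ).edgeSet.ncard + 1 = G.edgeSet.ncard := by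
  have hxy : x ≠ y := ((h y).2 rfl).ne
  conv_rhs => rw [leaf_decomp h]
  rw [ecard_add (inside_compl_iso G x y) hxy]

theorem inside_sup_edge_ne {G : SimpleGraph V} {x u v : V} (hu : u ≠ x) (hv : v ≠ x)
    (hG : ∀ w, ¬ G.Adj x w) : inside (G ⊔ edge u v) {x}ᶜ = G ⊔ edge u v := by
  ext a b
  rw [inside_adj]
  constructor
  · exact fun h => h.1
  · intro h
    refine ⟨h, ?_, ?_⟩
    · intro ha
      rw [Set.mem_singleton_iff] at ha
      rw [sup_adj, edge_adj] at h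
      subst ha
      rcases h with h | ⟨⟨h, _⟩ | ⟨h, _⟩, _⟩
      · exact hG b h
      · exact hu h.symm
      · exact hv h.symm
    · intro hb
      rw [Set.mem_singleton_iff] at hb
      rw [sup_adj, edge_adj] at h
      subst hb
      rcases h with h | ⟨⟨_, h⟩ | ⟨_, h⟩, _⟩
      · exact hG a h.symm
      · exact hv h.symm
      · exact hu h.symm

theorem sup_edge_cancel {G H : SimpleGraph V} {u v : V} (hG : ¬ G.Adj u v) (hH : ¬ H.Adj u v)
    (h : G ⊔ edge u v = H ⊔ edge u v) : G = H := by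
  ext a b
  have h6 : (G ⊔ edge u v).Adj a b ↔ (H ⊔ edge u v).Adj a b := by rw [h]
  rw [sup_adj, sup_adj, edge_adj] at h6
  constructor
  · intro h7
    rcases h6.1 (Or.inl h7) with h8 | ⟨⟨rfl, rfl⟩ | ⟨rfl, rfl⟩, _⟩
    · exact h8
    · exact absurd h7 hG
    · exact absurd h7.symm hG
  · intro h7
    rcases h6.2 (Or.inl h7) with h8 | ⟨⟨rfl, rfl⟩ | ⟨rfl, rfl⟩, _⟩
    · exact h8
    · exact absurd h7 hH
    · exact absurd h7.symm hH

/-- neighbour of a leaf (junk otherwise) -/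
noncomputable def nbr [Nonempty V] (G : SimpleGraph V) (x : V) : V :=
  Classical.epsilon (fun y => ∀ w, G.Adj x w ↔ w = y)

theorem nbr_spec [Nonempty V] {G : SimpleGraph V} {x : V} (h : x ∈ leaf G) :
    ∀ w, G.Adj x w ↔ w = nbr G x := by
  exact Classical.epsilon_spec h

open Classical in
/-- the class as a finset -/
noncomputable def ClF (V : Type*) [Finite V] (g m : ℕ) : Finset (SimpleGraph V) :=
  (Set.toFinite {G : SimpleGraph V | G.edgeSet.ncard = m ∧ Emb g G}).toFinset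

theorem mem_ClF [Finite V] {g m : ℕ} {G : SimpleGraph V} :
    G ∈ ClF V g m ↔ G.edgeSet.ncard = m ∧ Emb g G := by
  unfold ClF
  rw [Set.Finite.mem_toFinset]
  rfl

/-- Cutting a leaf `x` and adding an edge `u v`. -/
theorem leaf_cut [Fintype V] [DecidableEq V] [Nonempty V] {g m : ℕ}
    (S : Finset (SimpleGraph V)) (X : SimpleGraph V → Finset ((V × V) × V))
    (hS : ∀ G ∈ S, G.edgeSet.ncard = m)
    (hX : ∀ G ∈ S, ∀ p ∈ X G, p.2 ∈ leaf G ∧ p.1.1 ≠ p.2 ∧ p.1.2 ≠ p.2 ∧ p.1.1 ≠ p.1.2 ∧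
      ¬ G.Adj p.1.1 p.1.2 ∧ Emb g (inside G {p.2}ᶜ ⊔ edge p.1.1 p.1.2)) :
    ∑ G ∈ S, (X G).card ≤ ∑ G ∈ ClF V g m, 2 * m * iso G * Fintype.card V := by
  classical
  let Y : SimpleGraph V → Finset ((V × V) × (V × V)) := fun G =>
    ((Finset.univ.filter (fun d : V × V => G.Adj d.1 d.2)) ×ˢ
      ((Finset.univ.filter (fun v : V => ∀ w, ¬ G.Adj v w)) ×ˢ (Finset.univ : Finset V)))
  have hY : ∀ G ∈ ClF V g m, (Y G).card = 2 * m * iso G * Fintype.card V := by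
    intro G hG
    rw [mem_ClF] at hG
    simp only [Y]
    rw [Finset.card_product, Finset.card_product, Finset.card_univ]
    have h1 : (Finset.univ.filter (fun d : V × V => G.Adj d.1 d.2)).card = 2 * m := by
      rw [← hG.1, ← dart_ncard, ← Set.ncard_coe_finset]
      congr 1
      ext d
      simp
    have h2 : (Finset.univ.filter (fun v : V => ∀ w, ¬ G.Adj v w)).card = iso G := by
      unfold iso
      rw [← Set.ncard_coe_finset]
      congr 1
      ext d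
      simp
    rw [h1, h2]
    ring
  rw [← Finset.sum_congr rfl hY]
  apply double_count S (ClF V g m) X Y (fun G p => inside G {p.2}ᶜ ⊔ edge p.1.1 p.1.2)
    (fun G p => ((p.1, (p.2, nbr G p.2))))
  · rintro G hG ⟨⟨u, v⟩, x⟩ hp
    obtain ⟨h1, h2, h3, h4, h5, h6⟩ := hX G hG _ hp
    simp only at h1 h2 h3 h4 h5 h6 ⊢
    have hi : ¬ (inside G {x}ᶜ).Adj u v := fun h => h5 h.1
    constructor
    · rw [mem_ClF]
      refine ⟨?_, h6⟩
      rw [ecard_add hi h4, leaf_ecard (nbr_spec h1), hS G hG]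
    · simp only [Y, Finset.mem_product, Finset.mem_filter, Finset.mem_univ, true_and, and_true]
      constructor
      · rw [sup_adj, edge_adj]
        exact Or.inr ⟨Or.inl ⟨rfl, rfl⟩, h4⟩
      · intro w h
        rw [sup_adj, edge_adj] at h
        rcases h with h | ⟨⟨h, _⟩ | ⟨h, _⟩, _⟩
        · exact h.2.1 rfl
        · exact h2 h.symm
        · exact h3 h.symm
  · rintro G hG ⟨⟨u, v⟩, x⟩ hp G' hG' ⟨⟨u', v'⟩, x'⟩ hp' hF hH
    obtain ⟨h1, h2, h3, h4, h5, h6⟩ := hX G hG _ hp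
    obtain ⟨h1', h2', h3', h4', h5', h6'⟩ := hX G' hG' _ hp'
    simp only [Prod.mk.injEq] at h1 h2 h3 h4 h5 h6 h1' h2' h3' h4' h5' h6' hF hH
    obtain ⟨⟨rfl, rfl⟩, rfl, hn⟩ := hH
    have hi : ¬ (inside G {x}ᶜ).Adj u v := fun h => h5 h.1
    have hi' : ¬ (inside G' {x}ᶜ).Adj u v := fun h => h5' h.1
    have h7 := sup_edge_cancel hi hi' hF
    refine ⟨?_, rfl⟩
    rw [leaf_decomp (nbr_spec h1), leaf_decomp (nbr_spec h1'), h7, hn]

end Pool.Agent.Helper98.Gn
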