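import Pool.Agent.Helper98.Gn.SwA

/-! Switching lemmas II: smoothing vertices of degree two; breaking triangles. -/

namespace Pool.Agent.Helper98.Gn

open Equiv Equiv.Perm SimpleGraph

variable {V : Type*}

/-- `x` has exactly the neighbours `y ≠ z`. -/
def Two (G : SimpleGraph V) (x y z : V) : Prop := (∀ w, G.Adj x w ↔ (w = y ∨ w = z)) ∧ y ≠ z

/-- smoothable vertices -/
def smo (G : SimpleGraph V) : Set V := {x | ∃ p : V × V, Two G x p.1 p.2 ∧ ¬ G.Adj p.1 p.2}

/-- vertices of triangle components -/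
def tri (G : SimpleGraph V) : Set V :=
  {x | ∃ p : V × V, Two G x p.1 p.2 ∧ Two G p.1 x p.2 ∧ Two G p.2 x p.1}

theorem two_decomp {G : SimpleGraph V} {x y z : V} (h : Two G x y z) :
    G = inside G {x}ᶜ ⊔ edge x y ⊔ edge x z := by
  ext a b
  rw [sup_adj, sup_adj, edge_adj, edge_adj, inside_adj]
  simp only [Set.mem_compl_iff, Set.mem_singleton_iff]
  constructor
  · intro hab
    by_cases ha : a = x
    · subst ha
      rcases (h.1 b).1 hab with rfl | rfl
      · exact Or.inl (Or.inr ⟨Or.inl ⟨rfl, rfl⟩, hab.ne⟩)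
      · exact Or.inr ⟨Or.inl ⟨rfl, rfl⟩, hab.ne⟩
    by_cases hb : b = x
    · subst hb
      rcases (h.1 a).1 hab.symm with rfl | rfl
      · exact Or.inl (Or.inr ⟨Or.inr ⟨rfl, rfl⟩, hab.ne⟩)
      · exact Or.inr ⟨Or.inr ⟨rfl, rfl⟩, hab.ne⟩
    · exact Or.inl (Or.inl ⟨hab, ha, hb⟩)
  · rintro ((h1 | ⟨⟨rfl, rfl⟩ | ⟨rfl, rfl⟩, _⟩) | ⟨⟨rfl, rfl⟩ | ⟨rfl, rfl⟩, _⟩)
    · exact h1.1
    · exact (h.1 _).2 (Or.inl rfl)
    · exact ((h.1 _).2 (Or.inl rfl)).symm
    · exact (h.1 _).2 (Or.inr rfl)
    · exact ((h.1 _).2 (Or.inr rfl)).symm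

theorem two_ecard [Finite V] {G : SimpleGraph V} {x y z : V} (h : Two G x y z) :
    (inside G {x}ᶜ).edgeSet.ncard + 2 = G.edgeSet.ncard := by
  have hxy : x ≠ y := ((h.1 y).2 (Or.inl rfl)).ne
  have hxz : x ≠ z := ((h.1 z).2 (Or.inr rfl)).ne
  conv_rhs => rw [two_decomp h]
  rw [ecard_add _ hxz, ecard_add (inside_compl_iso G x y) hxy]
  rw [sup_adj, edge_adj]
  rintro (h1 | ⟨⟨_, h1⟩ | ⟨h1, _⟩, _⟩)
  · exact inside_compl_iso G x z h1
  · exact h.2 h1.symm
  · exact hxy h1

theorem smooth_switch [Fintype V] [DecidableEq V] [Nonempty V] {g m j : ℕ}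
    (S : Finset (SimpleGraph V)) (hS : ∀ G ∈ S, G ∈ ClF V g m ∧ (leaf G).ncard ≤ j) {P : ℕ}
    (hP : ∀ G ∈ S, P ≤ (smo G).ncard) :
    S.card * (P * (Fintype.card V - 1)) ≤
      ((ClF V g m).filter (fun G => (leaf G).ncard ≤ j + 2)).card * ((j + 2) * (2 * m)) := by
  classical
  let nb2 : SimpleGraph V → V → V × V := fun G x =>
    Classical.epsilon (fun p : V × V => Two G x p.1 p.2 ∧ ¬ G.Adj p.1 p.2)
  have hnb2 : ∀ G x, x ∈ smo G → Two G x (nb2 G x).1 (nb2 G x).2 ∧
      ¬ G.Adj (nb2 G x).1 (nb2 G x).2 := fun G x hx => Classical.epsilon_spec hx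
  let X : SimpleGraph V → Finset (V × V) := fun G =>
    (Finset.univ.filter (fun x => x ∈ smo G)).biUnion
      (fun x => ((Finset.univ.erase x).image (fun w => (x, w))))
  have hXmem : ∀ G p, p ∈ X G ↔ p.1 ∈ smo G ∧ p.2 ≠ p.1 := by
    rintro G ⟨a, b⟩
    simp only [X, Finset.mem_biUnion, Finset.mem_filter, Finset.mem_univ, true_and,
      Finset.mem_image, Finset.mem_erase, and_true, Prod.mk.injEq]
    constructor
    · rintro ⟨x, hx, w, hw, rfl, rfl⟩
      exact ⟨hx, hw⟩
    · rintro ⟨h1, h2⟩
      exact ⟨a, h1, b, h2, rfl, rfl⟩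
  have hXcard : ∀ G, (X G).card = (smo G).ncard * (Fintype.card V - 1) := by
    intro G
    simp only [X]
    rw [Finset.card_biUnion]
    · rw [Finset.sum_const_nat (m := Fintype.card V - 1)]
      · congr 1
        rw [← Set.ncard_coe_finset]
        congr 1
        ext d
        simp
      · intro x _
        rw [Finset.card_image_of_injective _ (fun a b h => (Prod.mk.inj h).2),
          Finset.card_erase_of_mem (Finset.mem_univ _), Finset.card_univ]
    · intro x _ y _ hxy
      change _root_.Disjoint _ _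
      rw [Finset.disjoint_left]
      intro p hp hp'
      rw [Finset.mem_image] at hp hp'
      obtain ⟨w, _, rfl⟩ := hp
      obtain ⟨w', _, h⟩ := hp'
      exact hxy (Prod.mk.inj h).1.symm
  let Y : SimpleGraph V → Finset (V × (V × V)) := fun G =>
    ((Finset.univ.filter (fun x => x ∈ leaf G)) ×ˢ
      (Finset.univ.filter (fun d : V × V => G.Adj d.1 d.2)))
  have hY : ∀ G ∈ (ClF V g m).filter (fun G => (leaf G).ncard ≤ j + 2),
      (Y G).card ≤ (j + 2) * (2 * m) := by
    intro G hG
    rw [Finset.mem_filter, mem_ClF] at hG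
    simp only [Y]
    rw [Finset.card_product]
    have h1 : (Finset.univ.filter (fun d : V × V => G.Adj d.1 d.2)).card = 2 * m := by
      rw [← hG.1.1, ← dart_ncard, ← Set.ncard_coe_finset]
      congr 1
      ext d
      simp
    have h2 : (Finset.univ.filter (fun x => x ∈ leaf G)).card = (leaf G).ncard := by
      rw [← Set.ncard_coe_finset]
      congr 1
      ext d
      simp
    rw [h1, h2]
    exact Nat.mul_le_mul_right _ hG.2
  have key : ∑ G ∈ S, (X G).card ≤
      ∑ G ∈ (ClF V g m).filter (fun G => (leaf G).ncard ≤ j + 2), (Y G).card := by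
    apply double_count S _ X Y
      (fun G p => inside G {p.1}ᶜ ⊔ edge (nb2 G p.1).1 (nb2 G p.1).2 ⊔ edge p.1 p.2)
      (fun G p => (p.1, nb2 G p.1))
    · rintro G hG ⟨x, w⟩ hp
      rw [hXmem] at hp
      obtain ⟨hGc, hGl⟩ := hS G hG
      rw [mem_ClF] at hGc
      simp only at hp ⊢
      obtain ⟨hx, hw⟩ := hp
      rcases hyz : nb2 G x with ⟨y, z⟩
      have h0 := hnb2 G x hx
      rw [hyz] at h0
      obtain ⟨h1, h2⟩ := h0
      simp only at h1 h2 ⊢
      have hxy : G.Adj x y := (h1.1 y).2 (Or.inl rfl)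
      have hxz : G.Adj x z := (h1.1 z).2 (Or.inr rfl)
      have hiso : ∀ w, ¬ (inside G {x}ᶜ ⊔ edge y z).Adj x w := by
        intro w h
        rw [sup_adj, edge_adj] at h
        rcases h with h | ⟨⟨h, _⟩ | ⟨h, _⟩, _⟩
        · exact h.2.1 rfl
        · exact hxy.ne h
        · exact hxz.ne h
      have hE1 : Emb g (inside G {x}ᶜ ⊔ edge y z) := hGc.2.smooth h1.1 h1.2 h2
      have hE2 : Emb g (inside G {x}ᶜ ⊔ edge y z ⊔ edge x w) := by
        rw [edge_comm x w]
        exact hE1.add_bridge (not_reach_of_isolated hiso hw)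
      have hni : ¬ (inside G {x}ᶜ).Adj y z := fun h => h2 h.1
      have hcard : (inside G {x}ᶜ ⊔ edge y z ⊔ edge x w).edgeSet.ncard = m := by
        rw [ecard_add (hiso w) hw.symm, ecard_add hni h1.2, ← hGc.1, ← two_ecard h1]
      have hleaf : (leaf (inside G {x}ᶜ ⊔ edge y z ⊔ edge x w)).ncard ≤ j + 2 := by
        have hsub : leaf (inside G {x}ᶜ ⊔ edge y z ⊔ edge x w) ⊆ insert x (insert w (leaf G)) := by
          rintro v ⟨u, hu⟩
          by_cases hvx : v = x
          · exact Or.inl hvx
          by_cases hvw : v = w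
          · exact Or.inr (Or.inl hvw)
          right; right
          have hadj : ∀ b, (inside G {x}ᶜ ⊔ edge y z ⊔ edge x w).Adj v b ↔
              (G.Adj v b ∧ b ≠ x) ∨ (v = y ∧ b = z) ∨ (v = z ∧ b = y) := by
            intro b
            rw [sup_adj, sup_adj, edge_adj, edge_adj, inside_adj]
            simp only [Set.mem_compl_iff, Set.mem_singleton_iff]
            constructor
            · rintro ((⟨h, _, h'⟩ | ⟨h, _⟩) | ⟨⟨h, _⟩ | ⟨h, _⟩, _⟩)
              · exact Or.inl ⟨h, h'⟩
              · exact Or.inr h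
              · exact absurd h hvx
              · exact absurd h hvw
            · rintro (⟨h, h'⟩ | h | h)
              · exact Or.inl (Or.inl ⟨h, hvx, h'⟩)
              · refine Or.inl (Or.inr ⟨Or.inl h, ?_⟩)
                rw [h.1, h.2]
                exact h1.2
              · refine Or.inl (Or.inr ⟨Or.inr h, ?_⟩)
                rw [h.1, h.2]
                exact h1.2.symm
          by_cases hvy : v = y
          · subst hvy
            refine ⟨x, fun b => ?_⟩
            have hz : z = u := (hu z).1 ((hadj z).2 (Or.inr (Or.inl ⟨rfl, rfl⟩)))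
            constructor
            · intro hb
              by_contra hbx
              have : b = u := (hu b).1 ((hadj b).2 (Or.inl ⟨hb, hbx⟩))
              rw [this, ← hz] at hb
              exact h2 hb
            · rintro rfl
              exact hxy.symm
          by_cases hvz : v = z
          · subst hvz
            refine ⟨x, fun b => ?_⟩
            have hz : y = u := (hu y).1 ((hadj y).2 (Or.inr (Or.inr ⟨rfl, rfl⟩)))
            constructor
            · intro hb
              by_contra hbx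
              have : b = u := (hu b).1 ((hadj b).2 (Or.inl ⟨hb, hbx⟩))
              rw [this, ← hz] at hb
              exact h2 hb.symm
            · rintro rfl
              exact hxz.symm
          refine ⟨u, fun b => ?_⟩
          rw [← hu b, hadj b]
          constructor
          · intro hb
            left
            refine ⟨hb, ?_⟩
            rintro rfl
            rcases (h1.1 v).1 hb.symm with h | h
            · exact hvy h
            · exact hvz h
          · rintro (⟨h, _⟩ | ⟨h, _⟩ | ⟨h, _⟩)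
            · exact h
            · exact absurd h hvy
            · exact absurd h hvz
        calc _ ≤ (insert x (insert w (leaf G))).ncard := Set.ncard_le_ncard hsub (Set.toFinite _)
          _ ≤ (insert w (leaf G)).ncard + 1 := Set.ncard_insert_le _ _
          _ ≤ (leaf G).ncard + 1 + 1 := Nat.add_le_add_right (Set.ncard_insert_le _ _) 1
          _ ≤ j + 2 := by omega
      constructor
      · rw [Finset.mem_filter, mem_ClF]
        exact ⟨⟨hcard, hE2⟩, hleaf⟩
      · simp only [Y, Finset.mem_product, Finset.mem_filter, Finset.mem_univ, true_and]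
        constructor
        · refine ⟨w, fun b => ?_⟩
          rw [sup_adj, edge_adj]
          constructor
          · rintro (h | ⟨⟨_, h⟩ | ⟨h, h'⟩, _⟩)
            · exact absurd h (hiso b)
            · exact h
            · exact absurd h hw.symm
          · rintro rfl
            exact Or.inr ⟨Or.inl ⟨rfl, rfl⟩, hw.symm⟩
        · rw [sup_adj, sup_adj, edge_adj]
          exact Or.inl (Or.inr ⟨Or.inl ⟨rfl, rfl⟩, h1.2⟩)
    · rintro G hG ⟨x, w⟩ hp G' hG' ⟨x', w'⟩ hp' hF hH
      rw [hXmem] at hp hp'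
      simp only [Prod.mk.injEq] at hp hp' hF hH
      obtain ⟨rfl, hH⟩ := hH
      obtain ⟨hx, hw⟩ := hp
      obtain ⟨hx', hw'⟩ := hp'
      have h0' := hnb2 G' x hx'
      have h0 := hnb2 G x hx
      rw [← hH] at hF h0'
      rcases hyz : nb2 G x with ⟨y, z⟩
      rw [hyz] at h0 h0' hF
      obtain ⟨h1, h2⟩ := h0
      obtain ⟨h1', h2'⟩ := h0'
      simp only at h1 h2 h1' h2' hF
      have hxy : G.Adj x y := (h1.1 y).2 (Or.inl rfl)
      have hxz : G.Adj x z := (h1.1 z).2 (Or.inr rfl)
      have hiso : ∀ (K : SimpleGraph V) w, ¬ (inside K {x}ᶜ ⊔ edge y z).Adj x w := by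
        intro K w h
        rw [sup_adj, edge_adj] at h
        rcases h with h | ⟨⟨h, _⟩ | ⟨h, _⟩, _⟩
        · exact h.2.1 rfl
        · exact hxy.ne h
        · exact hxz.ne h
      have hww : w = w' := by
        have h3 : (inside G' {x}ᶜ ⊔ edge y z ⊔ edge x w').Adj x w := by
          rw [← hF, sup_adj, edge_adj]
          exact Or.inr ⟨Or.inl ⟨rfl, rfl⟩, hw.symm⟩
        rw [sup_adj, edge_adj] at h3
        rcases h3 with h3 | ⟨⟨_, h3⟩ | ⟨h3, _⟩, _⟩
        · exact absurd h3 (hiso G' w)
        · exact h3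
        · exact absurd h3 hw'.symm
      subst hww
      have h4 := sup_edge_cancel (hiso G w) (hiso G' w) hF
      have hi : ¬ (inside G {x}ᶜ).Adj y z := fun h => h2 h.1
      have hi' : ¬ (inside G' {x}ᶜ).Adj y z := fun h => h2' h.1
      have h5 := sup_edge_cancel hi hi' h4
      refine ⟨?_, rfl⟩
      rw [two_decomp h1, two_decomp h1', h5]
  calc S.card * (P * (Fintype.card V - 1)) ≤ ∑ G ∈ S, (X G).card := by
        rw [← smul_eq_mul, ← Finset.sum_const]
        apply Finset.sum_le_sum
        intro G hG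
        rw [hXcard]
        exact Nat.mul_le_mul_right _ (hP G hG)
    _ ≤ _ := key
    _ ≤ _ := by
        rw [← smul_eq_mul (Finset.card _), ← Finset.sum_const]
        exact Finset.sum_le_sum hY

end Pool.Agent.Helper98.Gn
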