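import Pool.Agent.Helper98.Gn.SwB

/-! Switching lemmas III: breaking triangle components. -/

namespace Pool.Agent.Helper98.Gn

open Equiv Equiv.Perm SimpleGraph

variable {V : Type*}

/-- remove `x y` and add `x w` -/
def brk (G : SimpleGraph V) (x y w : V) : SimpleGraph V := (G \ edge x y) ⊔ edge x w

theorem brk_adj {G : SimpleGraph V} {x y w a b : V} : (brk G x y w).Adj a b ↔
    (G.Adj a b ∧ ¬ ((x = a ∧ y = b) ∨ (x = b ∧ y = a))) ∨
      (((x = a ∧ w = b) ∨ (x = b ∧ w = a)) ∧ a ≠ b) := by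
  unfold brk
  rw [sup_adj, sdiff_adj, edge_adj, edge_adj]
  constructor
  · rintro (⟨h1, h2⟩ | h)
    · left
      refine ⟨h1, fun h3 => h2 ⟨?_, h1.ne⟩⟩
      rcases h3 with ⟨h, h'⟩ | ⟨h, h'⟩
      · exact Or.inl ⟨h.symm, h'.symm⟩
      · exact Or.inr ⟨h'.symm, h.symm⟩
    · right
      refine ⟨?_, h.2⟩
      rcases h.1 with ⟨h, h'⟩ | ⟨h, h'⟩
      · exact Or.inl ⟨h.symm, h'.symm⟩
      · exact Or.inr ⟨h'.symm, h.symm⟩
  · rintro (⟨h1, h2⟩ | h)
    · left
      refine ⟨h1, fun h3 => h2 ?_⟩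
      rcases h3.1 with ⟨h, h'⟩ | ⟨h, h'⟩
      · exact Or.inl ⟨h.symm, h'.symm⟩
      · exact Or.inr ⟨h'.symm, h.symm⟩
    · right
      refine ⟨?_, h.2⟩
      rcases h.1 with ⟨h, h'⟩ | ⟨h, h'⟩
      · exact Or.inl ⟨h.symm, h'.symm⟩
      · exact Or.inr ⟨h'.symm, h.symm⟩

/-- `x y z` form a triangle component -/
structure Tri (G : SimpleGraph V) (x y z : V) : Prop where
  hx : Two G x y z
  hy : Two G y x z
  hz : Two G z x y

theorem Tri.ne_xy {G : SimpleGraph V} {x y z : V} (h : Tri G x y z) : x ≠ y :=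
  ((h.hx.1 y).2 (Or.inl rfl)).ne

theorem Tri.ne_xz {G : SimpleGraph V} {x y z : V} (h : Tri G x y z) : x ≠ z :=
  ((h.hx.1 z).2 (Or.inr rfl)).ne

theorem Tri.ne_yz {G : SimpleGraph V} {x y z : V} (h : Tri G x y z) : y ≠ z :=
  ((h.hy.1 z).2 (Or.inr rfl)).ne

theorem Tri.closed {G : SimpleGraph V} {x y z : V} (h : Tri G x y z) : Closed G {x, y, z} := by
  intro a b hab ha
  simp only [Set.mem_insert_iff, Set.mem_singleton_iff] at ha ⊢
  rcases ha with rfl | rfl | rfl
  · rcases (h.hx.1 b).1 hab with h | h <;> tauto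
  · rcases (h.hy.1 b).1 hab with h | h <;> tauto
  · rcases (h.hz.1 b).1 hab with h | h <;> tauto

theorem Tri.brk_y {G : SimpleGraph V} {x y z w : V} (h : Tri G x y z) (hw : w ≠ y) (b : V) :
    (brk G x y w).Adj y b ↔ b = z := by
  have hxy := h.ne_xy
  have hyz := h.ne_yz
  have hxz := h.ne_xz
  rw [brk_adj, h.hy.1 b]
  constructor
  · rintro (⟨h1 | h1, h2⟩ | ⟨⟨h1, _⟩ | ⟨_, h1⟩, _⟩)
    · exact absurd (Or.inr ⟨h1.symm, rfl⟩) h2
    · exact h1
    · exact absurd h1 hxy
    · exact absurd h1 hw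
  · rintro rfl
    left
    refine ⟨Or.inr rfl, ?_⟩
    rintro (⟨h1, _⟩ | ⟨h1, _⟩)
    · exact hxy h1
    · exact hxz h1

theorem Tri.brk_z {G : SimpleGraph V} {x y z w : V} (h : Tri G x y z) (hw : w ≠ z) (b : V) :
    (brk G x y w).Adj z b ↔ (b = x ∨ b = y) := by
  have hxy := h.ne_xy
  have hyz := h.ne_yz
  have hxz := h.ne_xz
  rw [brk_adj, h.hz.1 b]
  constructor
  · rintro (⟨h1, h2⟩ | ⟨⟨h1, _⟩ | ⟨_, h1⟩, _⟩)
    · exact h1
    · exact absurd h1 hxz
    · exact absurd h1 hw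
  · intro h1
    left
    refine ⟨h1, ?_⟩
    rintro (⟨h1, _⟩ | ⟨_, h1⟩)
    · exact hxz h1
    · exact hyz h1

theorem Tri.brk_x {G : SimpleGraph V} {x y z w : V} (h : Tri G x y z) (hw : w ≠ x) (b : V) :
    (brk G x y w).Adj x b ↔ (b = z ∨ b = w) := by
  have hxy := h.ne_xy
  have hyz := h.ne_yz
  have hxz := h.ne_xz
  rw [brk_adj, h.hx.1 b]
  constructor
  · rintro (⟨h1 | h1, h2⟩ | ⟨⟨_, h1⟩ | ⟨_, h1⟩, _⟩)
    · exact absurd (Or.inl ⟨rfl, h1.symm⟩) h2
    · exact Or.inl h1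
    · exact Or.inr h1.symm
    · exact absurd h1 hw
  · rintro (rfl | rfl)
    · left
      refine ⟨Or.inr rfl, ?_⟩
      rintro (⟨_, h1⟩ | ⟨h1, _⟩)
      · exact hyz h1
      · exact hxz h1
    · right
      exact ⟨Or.inl ⟨rfl, rfl⟩, hw.symm⟩

theorem Tri.brk_other {G : SimpleGraph V} {x y z w : V} (h : Tri G x y z) {a b : V}
    (hax : a ≠ x) (hbx : b ≠ x) : (brk G x y w).Adj a b ↔ G.Adj a b := by
  rw [brk_adj]
  constructor
  · rintro (⟨h1, h2⟩ | ⟨⟨h1, _⟩ | ⟨h1, _⟩, _⟩)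
    · exact h1
    · exact absurd h1.symm hax
    · exact absurd h1.symm hbx
  · intro h1
    left
    refine ⟨h1, ?_⟩
    rintro (⟨h1, _⟩ | ⟨h1, _⟩)
    · exact absurd h1.symm hax
    · exact absurd h1.symm hbx

theorem Tri.brk_ecard [Finite V] {G : SimpleGraph V} {x y z w : V} (h : Tri G x y z)
    (hwx : w ≠ x) (hwy : w ≠ y) (hwz : w ≠ z) :
    (brk G x y w).edgeSet.ncard = G.edgeSet.ncard := by
  have hadj : G.Adj x y := (h.hx.1 y).2 (Or.inl rfl)
  have h1 : G \ edge x y ⊔ edge x y = G := by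
    apply sdiff_sup_cancel
    rw [edge_le_iff]
    exact Or.inr hadj
  have h2 : ¬ (G \ edge x y).Adj x y := by
    rw [sdiff_adj, edge_adj]
    rintro ⟨_, h⟩
    exact h ⟨Or.inl ⟨rfl, rfl⟩, hadj.ne⟩
  have h3 : ¬ (G \ edge x y).Adj x w := by
    rw [sdiff_adj]
    rintro ⟨h4, _⟩
    rcases (h.hx.1 w).1 h4 with h4 | h4
    · exact hwy h4
    · exact hwz h4
  unfold brk
  rw [ecard_add h3 hwx.symm, ← ecard_add h2 hadj.ne, h1]

theorem Tri.brk_emb [Finite V] {g : ℕ} {G : SimpleGraph V} {x y z w : V} (h : Tri G x y z)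
    (hG : Emb g G) (hwx : w ≠ x) (hwy : w ≠ y) (hwz : w ≠ z) : Emb g (brk G x y w) := by
  unfold brk
  apply (hG.mono_graph sdiff_le).add_bridge
  intro hr
  have hr' : G.Reachable x w := hr.mono sdiff_le
  have := h.closed.reach hr' (by simp)
  simp only [Set.mem_insert_iff, Set.mem_singleton_iff] at this
  tauto

theorem Tri.brk_leaf [Finite V] {G : SimpleGraph V} {x y z w : V} (h : Tri G x y z)
    (hwx : w ≠ x) (hwy : w ≠ y) (hwz : w ≠ z) :
    (leaf (brk G x y w)).ncard ≤ (leaf G).ncard + 2 := by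
  have hsub : leaf (brk G x y w) ⊆ insert y (insert w (leaf G)) := by
    rintro v ⟨u, hu⟩
    by_cases hvy : v = y
    · exact Or.inl hvy
    by_cases hvw : v = w
    · exact Or.inr (Or.inl hvw)
    right; right
    by_cases hvx : v = x
    · subst hvx
      have h1 : z = u := (hu z).1 ((h.brk_x hwx z).2 (Or.inl rfl))
      have h2 : w = u := (hu w).1 ((h.brk_x hwx w).2 (Or.inr rfl))
      exact absurd (h2.trans h1.symm) hwz
    by_cases hvz : v = z
    · subst hvz
      have h1 : x = u := (hu x).1 ((h.brk_z hwz x).2 (Or.inl rfl))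
      have h2 : y = u := (hu y).1 ((h.brk_z hwz y).2 (Or.inr rfl))
      exact absurd (h1.trans h2.symm) h.ne_xy
    refine ⟨u, fun b => ?_⟩
    rw [← hu b]
    by_cases hbx : b = x
    · subst hbx
      constructor
      · intro h1
        rcases (h.hx.1 v).1 h1.symm with h2 | h2
        · exact absurd h2 hvy
        · exact absurd h2 hvz
      · intro h1
        rcases (h.brk_x hwx v).1 h1.symm with h2 | h2
        · exact absurd h2 hvz
        · exact absurd h2 hvw
    · exact (h.brk_other hvx hbx).symm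
  calc _ ≤ (insert y (insert w (leaf G))).ncard := Set.ncard_le_ncard hsub (Set.toFinite _)
    _ ≤ (insert w (leaf G)).ncard + 1 := Set.ncard_insert_le _ _
    _ ≤ (leaf G).ncard + 1 + 1 := Nat.add_le_add_right (Set.ncard_insert_le _ _) 1
    _ ≤ _ := by omega

theorem Tri.brk_inj {G G' : SimpleGraph V} {x y z w x' z' w' : V} (h : Tri G x y z)
    (hwx : w ≠ x) (hwy : w ≠ y) (hwz : w ≠ z) (h' : Tri G' x' y z')
    (hwx' : w' ≠ x') (hwy' : w' ≠ y) (hwz' : w' ≠ z') (he : brk G x y w = brk G' x' y w') :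
    G = G' ∧ x = x' ∧ w = w' := by
  have hz : z = z' := by
    rw [← h'.brk_y hwy' z, ← he, h.brk_y hwy]
  subst hz
  have hx : x = x' := by
    have h1 : (brk G' x' y w').Adj z x := by
      rw [← he, h.brk_z hwz]
      exact Or.inl rfl
    rcases (h'.brk_z hwz' x).1 h1 with h2 | h2
    · exact h2
    · exact absurd h2 h.ne_xy
  subst hx
  have hw : w = w' := by
    have h1 : (brk G' x y w').Adj x w := by
      rw [← he, h.brk_x hwx]
      exact Or.inr rfl
    rcases (h'.brk_x hwx' w).1 h1 with h2 | h2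
    · exact absurd h2 hwz
    · exact h2
  subst hw
  refine ⟨?_, rfl, rfl⟩
  ext a b
  by_cases hax : a = x
  · subst hax
    rw [h.hx.1, h'.hx.1]
  by_cases hbx : b = x
  · subst hbx
    rw [adj_comm, h.hx.1, adj_comm, h'.hx.1]
  rw [← h.brk_other (w := w) hax hbx, he, h'.brk_other hax hbx]

theorem tri_switch [Fintype V] [DecidableEq V] [Nonempty V] {g m j : ℕ}
    (S : Finset (SimpleGraph V)) (hS : ∀ G ∈ S, G ∈ ClF V g m ∧ (leaf G).ncard ≤ j) {P : ℕ}
    (hP : ∀ G ∈ S, P ≤ (tri G).ncard) :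
    S.card * (P * (Fintype.card V - 3)) ≤
      ((ClF V g m).filter (fun G => (leaf G).ncard ≤ j + 2)).card * (j + 2) := by
  classical
  let nb3 : SimpleGraph V → V → V × V := fun G x =>
    Classical.epsilon (fun p : V × V => Tri G x p.1 p.2)
  have hnb3 : ∀ G x, x ∈ tri G → Tri G x (nb3 G x).1 (nb3 G x).2 := by
    rintro G x ⟨p, h1, h2, h3⟩
    exact Classical.epsilon_spec (p := fun p : V × V => Tri G x p.1 p.2) ⟨p, ⟨h1, h2, h3⟩⟩
  let X : SimpleGraph V → Finset (V × V) := fun G =>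
    (Finset.univ.filter (fun x => x ∈ tri G)).biUnion
      (fun x => ((Finset.univ \ {x, (nb3 G x).1, (nb3 G x).2}).image (fun w => (x, w))))
  have hXmem : ∀ G p, p ∈ X G ↔ p.1 ∈ tri G ∧
      (p.2 ≠ p.1 ∧ p.2 ≠ (nb3 G p.1).1 ∧ p.2 ≠ (nb3 G p.1).2) := by
    rintro G ⟨a, b⟩
    simp only [X, Finset.mem_biUnion, Finset.mem_filter, Finset.mem_univ, true_and,
      Finset.mem_image, Finset.mem_sdiff, Finset.mem_insert, Finset.mem_singleton, not_or,
      Prod.mk.injEq]
    constructor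
    · rintro ⟨x, hx, w, hw, rfl, rfl⟩
      exact ⟨hx, hw⟩
    · rintro ⟨h1, h2⟩
      exact ⟨a, h1, b, h2, rfl, rfl⟩
  have hXcard : ∀ G, (tri G).ncard * (Fintype.card V - 3) ≤ (X G).card := by
    intro G
    simp only [X]
    rw [Finset.card_biUnion]
    · have h1 : (tri G).ncard = (Finset.univ.filter (fun x => x ∈ tri G)).card := by
        rw [← Set.ncard_coe_finset]
        congr 1
        ext d
        simp
      rw [h1, ← smul_eq_mul, ← Finset.sum_const]
      apply Finset.sum_le_sum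
      intro x _
      rw [Finset.card_image_of_injective _ (fun a b h => (Prod.mk.inj h).2),
        Finset.card_sdiff_of_subset (Finset.subset_univ _), Finset.card_univ]
      have := Finset.card_le_three (a := x) (b := (nb3 G x).1) (c := (nb3 G x).2)
      omega
    · intro x _ y _ hxy
      change _root_.Disjoint _ _
      rw [Finset.disjoint_left]
      intro p hp hp'
      rw [Finset.mem_image] at hp hp'
      obtain ⟨w, _, rfl⟩ := hp
      obtain ⟨w', _, h⟩ := hp'
      exact hxy (Prod.mk.inj h).1.symm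
  let Y : SimpleGraph V → Finset V := fun G => Finset.univ.filter (fun x => x ∈ leaf G)
  have hY : ∀ G ∈ (ClF V g m).filter (fun G => (leaf G).ncard ≤ j + 2),
      (Y G).card ≤ j + 2 := by
    intro G hG
    rw [Finset.mem_filter, mem_ClF] at hG
    have h2 : (Finset.univ.filter (fun x => x ∈ leaf G)).card = (leaf G).ncard := by
      rw [← Set.ncard_coe_finset]
      congr 1
      ext d
      simp
    simp only [Y]
    rw [h2]
    exact hG.2
  have key : ∑ G ∈ S, (X G).card ≤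
      ∑ G ∈ (ClF V g m).filter (fun G => (leaf G).ncard ≤ j + 2), (Y G).card := by
    apply double_count S _ X Y
      (fun G p => brk G p.1 (nb3 G p.1).1 p.2)
      (fun G p => (nb3 G p.1).1)
    · rintro G hG ⟨x, w⟩ hp
      rw [hXmem] at hp
      obtain ⟨hGc, hGl⟩ := hS G hG
      rw [mem_ClF] at hGc
      simp only at hp ⊢
      obtain ⟨hx, hwx, hwy, hwz⟩ := hp
      have h0 := hnb3 G x hx
      constructor
      · rw [Finset.mem_filter, mem_ClF]
        exact ⟨⟨(h0.brk_ecard hwx hwy hwz).trans hGc.1, h0.brk_emb hGc.2 hwx hwy hwz⟩,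
          (h0.brk_leaf hwx hwy hwz).trans (Nat.add_le_add_right hGl 2)⟩
      · simp only [Y, Finset.mem_filter, Finset.mem_univ, true_and]
        exact ⟨_, h0.brk_y hwy⟩
    · rintro G hG ⟨x, w⟩ hp G' hG' ⟨x', w'⟩ hp' hF hH
      rw [hXmem] at hp hp'
      simp only [Prod.mk.injEq] at hp hp' hF hH ⊢
      obtain ⟨hx, hwx, hwy, hwz⟩ := hp
      obtain ⟨hx', hwx', hwy', hwz'⟩ := hp'
      have h0' := hnb3 G' x' hx'
      have h0 := hnb3 G x hx
      rw [← hH] at hF h0' hwy'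
      exact h0.brk_inj hwx hwy hwz h0' hwx' hwy' hwz' hF
  calc S.card * (P * (Fintype.card V - 3)) ≤ ∑ G ∈ S, (X G).card := by
        rw [← smul_eq_mul, ← Finset.sum_const]
        apply Finset.sum_le_sum
        intro G hG
        exact (Nat.mul_le_mul_right _ (hP G hG)).trans (hXcard G)
    _ ≤ _ := key
    _ ≤ _ := by
        rw [← smul_eq_mul (Finset.card _), ← Finset.sum_const]
        exact Finset.sum_le_sum hY

end Pool.Agent.Helper98.Gn
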