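import Pool.Agent.Helper98.Gn.Swp
import Pool.Agent.Helper98.Gn.Deg

/-! Switching lemmas IV: counting with neighbourhood exchanges. -/

namespace Pool.Agent.Helper98.Gn

open Equiv Equiv.Perm SimpleGraph

variable {V : Type*}

/-- vertex set of the component of `v` -/
def cmp (G : SimpleGraph V) (v : V) : Set V := {w | G.Reachable v w}

/-- vertices whose component has at most half of the vertices -/
def out (G : SimpleGraph V) : Set V := {v | 2 * (cmp G v).ncard ≤ Nat.card V}

theorem swap_switch [Fintype V] [DecidableEq V] [Nonempty V] {g m : ℕ}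
    (S : Finset (SimpleGraph V)) (hS : ∀ G ∈ S, G ∈ ClF V g m) (l : ℕ)
    (hbad : ∀ G ∈ S, ∃ Q C L : Set V, Piece G Q ∧ Q ⊆ C ∧ Closed G C ∧ Closed G L ∧
      (∀ v ∈ L, v ∉ C) ∧ 2 * (C.ncard + 1) ≤ Nat.card V ∧ l ≤ (leaf G ∩ L).ncard) :
    S.card * l ≤ ∑ G ∈ ClF V g m, 2 * g * (out G).ncard := by
  classical
  choose! Q C L hQ hQC hC hL hLC hCn hl using hbad
  let yy : Set V → V := fun Q => Classical.epsilon (fun v => v ∈ Q)
  let X : SimpleGraph V → Finset V := fun G => Finset.univ.filter (fun x => x ∈ leaf G ∩ L G)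
  let Y : SimpleGraph V → Finset (Set V × V) := fun G =>
    (Set.toFinite (pieces G)).toFinset ×ˢ (Finset.univ.filter (fun x => x ∈ out G))
  have hX : ∀ G ∈ S, l ≤ (X G).card := by
    intro G hG
    refine (hl G hG).trans (le_of_eq ?_)
    rw [← Set.ncard_coe_finset]
    congr 1
    ext d
    simp [X]
  have hY : ∀ G ∈ ClF V g m, (Y G).card ≤ 2 * g * (out G).ncard := by
    intro G hG
    rw [mem_ClF] at hG
    simp only [Y]
    rw [Finset.card_product]
    have h1 : (Finset.univ.filter (fun x => x ∈ out G)).card = (out G).ncard := by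
      rw [← Set.ncard_coe_finset]
      congr 1
      ext d
      simp
    rw [h1, ← Set.ncard_eq_toFinset_card]
    exact Nat.mul_le_mul_right _ (pieces_ncard hG.2)
  have hH : ∀ G ∈ S, ∀ x ∈ X G, ∃ z, SwpH G (Q G) (C G) (L G) x (yy (Q G)) z := by
    intro G hG x hx
    simp only [X, Finset.mem_filter, Finset.mem_univ, true_and] at hx
    obtain ⟨⟨z, hz⟩, hxL⟩ := hx
    exact ⟨z, ⟨hQ G hG, hQC G hG, hC G hG, hL G hG, hLC G hG,
      Classical.epsilon_spec (hQ G hG).nonempty, hxL, hz⟩⟩
  have key : ∑ G ∈ S, (X G).card ≤ ∑ G ∈ ClF V g m, (Y G).card := by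
    apply double_count S _ X Y (fun G x => swp G (Q G) x (yy (Q G))) (fun G x => (Q G, x))
    · intro G hG x hx
      obtain ⟨z, h⟩ := hH G hG x hx
      have hGc := hS G hG
      rw [mem_ClF] at hGc
      constructor
      · rw [mem_ClF]
        exact ⟨h.w.ecard.trans hGc.1, h.emb hGc.2⟩
      · simp only [Y, Finset.mem_product, Set.Finite.mem_toFinset, Finset.mem_filter,
          Finset.mem_univ, true_and]
        refine ⟨h.piece', ?_⟩
        change 2 * (cmp _ x).ncard ≤ _
        have h1 : cmp (swp G (Q G) x (yy (Q G))) x ⊆ insert x (C G) := fun v hv => h.comp hv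
        have h2 := Set.ncard_le_ncard h1 (Set.toFinite _)
        have h3 := Set.ncard_insert_le x (C G)
        have h4 := hCn G hG
        omega
    · intro G hG x hx G' hG' x' hx' hF hH'
      obtain ⟨z, h⟩ := hH G hG x hx
      obtain ⟨z', h'⟩ := hH G' hG' x' hx'
      simp only [Prod.mk.injEq] at hF hH'
      obtain ⟨h1, rfl⟩ := hH'
      refine ⟨?_, rfl⟩
      rw [← h.w.invol, ← h'.w.invol, hF, h1]
  calc S.card * l ≤ ∑ G ∈ S, (X G).card := by
        rw [← smul_eq_mul, ← Finset.sum_const]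
        exact Finset.sum_le_sum hX
    _ ≤ _ := key
    _ ≤ _ := Finset.sum_le_sum hY

end Pool.Agent.Helper98.Gn
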