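import Pool.Agent.Helper98.Gn.Piece
import Pool.Agent.Helper98.Gn.SwA

/-! Exchanging neighbourhoods. -/

namespace Pool.Agent.Helper98.Gn

open Equiv Equiv.Perm SimpleGraph

set_option linter.unusedSectionVars false

variable {V : Type*} [DecidableEq V]

/-- Exchange the neighbourhoods of `x` and `y` outside `Q`. -/
def swp (G : SimpleGraph V) (Q : Set V) (x y : V) : SimpleGraph V where
  Adj a b := (G.Adj a b ∧ a ∈ Q ∧ b ∈ Q) ∨
    (G.Adj (swap x y a) (swap x y b) ∧ ¬ (swap x y a ∈ Q ∧ swap x y b ∈ Q))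
  symm := ⟨fun _ _ h => by
    rcases h with h | h
    · exact Or.inl ⟨h.1.symm, h.2.2, h.2.1⟩
    · exact Or.inr ⟨h.1.symm, fun h' => h.2 ⟨h'.2, h'.1⟩⟩⟩
  loopless := ⟨fun _ h => by
    rcases h with h | h
    · exact h.1.ne rfl
    · exact h.1.ne rfl⟩

theorem swp_adj {G : SimpleGraph V} {Q : Set V} {x y a b : V} :
    (swp G Q x y).Adj a b ↔ (G.Adj a b ∧ a ∈ Q ∧ b ∈ Q) ∨
    (G.Adj (swap x y a) (swap x y b) ∧ ¬ (swap x y a ∈ Q ∧ swap x y b ∈ Q)) := Iff.rfl

/-- weak hypotheses -/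
structure SwW (G : SimpleGraph V) (Q : Set V) (x y : V) : Prop where
  hx : x ∉ Q
  hy : y ∈ Q
  hxQ : ∀ b ∈ Q, ¬ G.Adj x b

theorem SwW.ne {G : SimpleGraph V} {Q : Set V} {x y : V} (h : SwW G Q x y) : x ≠ y :=
  fun h1 => h.hx (h1 ▸ h.hy)

theorem SwW.swap_mem {G : SimpleGraph V} {Q : Set V} {x y : V} (h : SwW G Q x y) {a : V} :
    swap x y a ∈ Q ↔ (a = x ∨ (a ∈ Q ∧ a ≠ y)) := by
  by_cases h1 : a = x
  · subst h1
    rw [swap_apply_left]
    simp [h.hy]
  by_cases h2 : a = y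
  · subst h2
    rw [swap_apply_right]
    simp [h.hx, h1]
  rw [swap_apply_of_ne_of_ne h1 h2]
  simp [h1, h2]

theorem SwW.adj_in {G : SimpleGraph V} {Q : Set V} {x y : V} (h : SwW G Q x y) {a b : V}
    (ha : a ∈ Q) (hb : b ∈ Q) : (swp G Q x y).Adj a b ↔ G.Adj a b := by
  rw [swp_adj]
  constructor
  · rintro (h1 | ⟨h1, h2⟩)
    · exact h1.1
    · exfalso
      have hax : a ≠ x := fun h3 => h.hx (h3 ▸ ha)
      have hbx : b ≠ x := fun h3 => h.hx (h3 ▸ hb)
      by_cases hay : a = y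
      · subst hay
        by_cases hby : b = a
        · subst hby
          exact h1.ne rfl
        · rw [swap_apply_right, swap_apply_of_ne_of_ne hbx hby] at h1
          exact h.hxQ b hb h1
      · by_cases hby : b = y
        · subst hby
          rw [swap_apply_right, swap_apply_of_ne_of_ne hax hay] at h1
          exact h.hxQ a ha h1.symm
        · rw [swap_apply_of_ne_of_ne hax hay, swap_apply_of_ne_of_ne hbx hby] at h2
          exact h2 ⟨ha, hb⟩
  · intro h1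
    exact Or.inl ⟨h1, ha, hb⟩

theorem SwW.adj_out {G : SimpleGraph V} {Q : Set V} {x y : V} {u v : V} (hv : v ∉ Q) (hvx : v ≠ x)
    (hvy : v ≠ y) : (swp G Q x y).Adj u v ↔ G.Adj (swap x y u) v := by
  rw [swp_adj, swap_apply_of_ne_of_ne hvx hvy]
  constructor
  · rintro (h1 | ⟨h1, h2⟩)
    · exact absurd h1.2.2 hv
    · exact h1
  · intro h1
    exact Or.inr ⟨h1, fun h2 => hv h2.2⟩

theorem SwW.swp {G : SimpleGraph V} {Q : Set V} {x y : V} (h : SwW G Q x y) :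
    SwW (swp G Q x y) Q x y := by
  refine ⟨h.hx, h.hy, ?_⟩
  intro b hb h1
  rw [swp_adj, swap_apply_left] at h1
  rcases h1 with h1 | ⟨h1, h2⟩
  · exact h.hx h1.2.1
  · have hbx : b ≠ x := fun h3 => h.hx (h3 ▸ hb)
    by_cases hby : b = y
    · subst hby
      rw [swap_apply_right] at h1
      exact h.hxQ _ hb h1.symm
    · rw [swap_apply_of_ne_of_ne hbx hby] at h2
      exact h2 ⟨h.hy, hb⟩

/-- an edge not inside `Q` is mapped outside `Q × Q` -/
theorem SwW.aux {G : SimpleGraph V} {Q : Set V} {x y : V} (h : SwW G Q x y) {a b : V}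
    (hab : G.Adj a b) (hn : ¬ (a ∈ Q ∧ b ∈ Q)) : ¬ (swap x y a ∈ Q ∧ swap x y b ∈ Q) := by
  rw [h.swap_mem, h.swap_mem]
  rintro ⟨rfl | h1, rfl | h2⟩
  · exact hab.ne rfl
  · exact h.hxQ b h2.1 hab
  · exact h.hxQ a h1.1 hab.symm
  · exact hn ⟨h1.1, h2.1⟩

theorem SwW.invol {G : SimpleGraph V} {Q : Set V} {x y : V} (h : SwW G Q x y) :
    Gn.swp (Gn.swp G Q x y) Q x y = G := by
  ext a b
  rw [swp_adj]
  constructor
  · rintro (h1 | ⟨h1, h2⟩)
    · exact (h.adj_in h1.2.1 h1.2.2).1 h1.1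
    · rw [swp_adj] at h1
      rcases h1 with h1 | h1
      · exact absurd h1.2 h2
      · rw [Equiv.swap_apply_self, Equiv.swap_apply_self] at h1
        exact h1.1
  · intro hab
    by_cases hn : a ∈ Q ∧ b ∈ Q
    · exact Or.inl ⟨(h.adj_in hn.1 hn.2).2 hab, hn⟩
    · refine Or.inr ⟨?_, h.aux hab hn⟩
      rw [swp_adj, Equiv.swap_apply_self, Equiv.swap_apply_self]
      exact Or.inr ⟨hab, hn⟩

theorem SwW.dart_le [Finite V] {G : SimpleGraph V} {Q : Set V} {x y : V} (h : SwW G Q x y) :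
    {d : V × V | G.Adj d.1 d.2}.ncard ≤ {d : V × V | (Gn.swp G Q x y).Adj d.1 d.2}.ncard := by
  classical
  apply Set.ncard_le_ncard_of_injOn
    (fun d => if d.1 ∈ Q ∧ d.2 ∈ Q then d else (swap x y d.1, swap x y d.2))
  · rintro ⟨a, b⟩ hab
    change G.Adj a b at hab
    by_cases hn : a ∈ Q ∧ b ∈ Q
    · simp only [hn, and_self, if_true]
      exact (h.adj_in hn.1 hn.2).2 hab
    · simp only [hn, if_false]
      change (Gn.swp G Q x y).Adj _ _
      rw [swp_adj]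
      refine Or.inr ?_
      rw [Equiv.swap_apply_self, Equiv.swap_apply_self]
      exact ⟨hab, hn⟩
  · rintro ⟨a, b⟩ hab ⟨a', b'⟩ hab' he
    change G.Adj a b at hab
    change G.Adj a' b' at hab'
    simp only at he
    by_cases hn : a ∈ Q ∧ b ∈ Q
    · rw [if_pos hn] at he
      by_cases hn' : a' ∈ Q ∧ b' ∈ Q
      · rwa [if_pos hn'] at he
      · rw [if_neg hn'] at he
        obtain ⟨h1, h2⟩ := Prod.mk.inj he
        have := h.aux hab' hn'
        rw [← h1, ← h2] at this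
        exact absurd hn this
    · rw [if_neg hn] at he
      by_cases hn' : a' ∈ Q ∧ b' ∈ Q
      · rw [if_pos hn'] at he
        obtain ⟨h1, h2⟩ := Prod.mk.inj he
        have := h.aux hab hn
        rw [h1, h2] at this
        exact absurd hn' this
      · rw [if_neg hn'] at he
        obtain ⟨h1, h2⟩ := Prod.mk.inj he
        exact Prod.ext ((swap x y).injective h1) ((swap x y).injective h2)

theorem SwW.ecard [Finite V] {G : SimpleGraph V} {Q : Set V} {x y : V} (h : SwW G Q x y) :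
    (Gn.swp G Q x y).edgeSet.ncard = G.edgeSet.ncard := by
  have h1 := h.dart_le
  have h2 := h.swp.dart_le
  rw [h.invol] at h2
  rw [dart_ncard, dart_ncard] at h1 h2
  omega

/-- full hypotheses -/
structure SwpH (G : SimpleGraph V) (Q C L : Set V) (x y z : V) : Prop where
  piece : Piece G Q
  hQC : Q ⊆ C
  hC : Closed G C
  hL : Closed G L
  hLC : ∀ v ∈ L, v ∉ C
  hy : y ∈ Q
  hx : x ∈ L
  hxz : ∀ w, G.Adj x w ↔ w = z

variable {G : SimpleGraph V} {Q C L : Set V} {x y z : V}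

theorem SwpH.hxC (h : SwpH G Q C L x y z) : x ∉ C := h.hLC x h.hx

theorem SwpH.w (h : SwpH G Q C L x y z) : SwW G Q x y := by
  refine ⟨fun h1 => h.hxC (h.hQC h1), h.hy, ?_⟩
  intro b hb hxb
  exact h.hLC b (h.hL _ _ hxb h.hx) (h.hQC hb)

theorem SwpH.cut_yz (h : SwpH G Q C L x y z) : IsCut (swp G Q x y) y z := by
  have hxz : G.Adj x z := (h.hxz z).2 rfl
  have hyC := h.hQC h.hy
  refine ⟨L \ {x}, ?_, ?_, ?_⟩
  · intro h1
    exact h.hLC y h1.1 hyC
  · exact ⟨h.hL _ _ hxz h.hx, hxz.ne'⟩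
  · intro u v huv hu hv
    have hvC : v ∉ C := h.hLC v hv.1
    have hvQ : v ∉ Q := fun h1 => hvC (h.hQC h1)
    have hvx : v ≠ x := hv.2
    have hvy : v ≠ y := fun h1 => hvQ (h1 ▸ h.hy)
    rw [SwW.adj_out hvQ hvx hvy] at huv
    by_cases hux : u = x
    · subst hux
      rw [swap_apply_left] at huv
      exact absurd (h.hL _ _ huv.symm hv.1) (fun h1 => h.hLC y h1 hyC)
    by_cases huy : u = y
    · subst huy
      rw [swap_apply_right] at huv
      exact ⟨rfl, (h.hxz v).1 huv⟩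
    · rw [swap_apply_of_ne_of_ne hux huy] at huv
      exact absurd ⟨h.hL _ _ huv.symm hv.1, hux⟩ hu

/-- A cut edge leaving `Q` can be cut by a set inside `C \ Q`. -/
theorem SwpH.cutset (h : SwpH G Q C L x y z) {a b : V} (ha : a ∈ Q) (hb : b ∉ Q)
    (hab : G.Adj a b) : ∃ K ⊆ C \ Q, b ∈ K ∧
      ∀ u v, G.Adj u v → u ∉ K → v ∈ K → (u = a ∧ v = b) := by
  obtain ⟨K, h1, h2, h3⟩ := h.piece.leave a ha b hb hab
  have h4 := cut_avoid h.piece.conn ha hb h1 h3
  refine ⟨K ∩ C, ?_, ⟨h2, h.hC _ _ hab (h.hQC ha)⟩, ?_⟩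
  · rintro v ⟨hv1, hv2⟩
    exact ⟨hv2, fun hvQ => h4 v hvQ hv1⟩
  · intro u v huv hu hv
    apply h3 u v huv _ hv.1
    intro hu1
    exact hu ⟨hu1, h.hC _ _ huv.symm hv.2⟩

/-- edges of the swapped graph entering a subset of `C \ Q` -/
theorem SwpH.enter (h : SwpH G Q C L x y z) {K : Set V} (hK : K ⊆ C \ Q) {u v : V}
    (huv : (swp G Q x y).Adj u v) (hv : v ∈ K) :
    (u = x ∧ G.Adj y v) ∨ (u ≠ x ∧ u ≠ y ∧ G.Adj u v) := by
  have hvC : v ∈ C := (hK hv).1
  have hvQ : v ∉ Q := (hK hv).2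
  have hvx : v ≠ x := fun h1 => h.hxC (h1 ▸ hvC)
  have hvy : v ≠ y := fun h1 => hvQ (h1 ▸ h.hy)
  rw [SwW.adj_out hvQ hvx hvy] at huv
  by_cases hux : u = x
  · subst hux
    rw [swap_apply_left] at huv
    exact Or.inl ⟨rfl, huv⟩
  by_cases huy : u = y
  · subst huy
    rw [swap_apply_right] at huv
    exact absurd (h.hC _ _ huv.symm hvC) h.hxC
  · rw [swap_apply_of_ne_of_ne hux huy] at huv
    exact Or.inr ⟨hux, huy, huv⟩

theorem SwpH.adj_x (h : SwpH G Q C L x y z) {v : V} :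
    (swp G Q x y).Adj x v ↔ G.Adj y v ∧ v ∉ Q := by
  have hyC := h.hQC h.hy
  rw [swp_adj, swap_apply_left]
  constructor
  · rintro (h1 | ⟨h1, h2⟩)
    · exact absurd h1.2.1 h.w.hx
    · have h3 : swap x y v ∉ Q := fun h4 => h2 ⟨h.hy, h4⟩
      rw [h.w.swap_mem] at h3
      push Not at h3
      by_cases hvy : v = y
      · subst hvy
        rw [swap_apply_right] at h1
        exact absurd (h.hC _ _ h1 hyC) h.hxC
      · rw [swap_apply_of_ne_of_ne h3.1 hvy] at h1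
        exact ⟨h1, fun h4 => hvy (h3.2 h4)⟩
  · rintro ⟨h1, h2⟩
    have hvx : v ≠ x := by
      rintro rfl
      exact h.hxC (h.hC _ _ h1 hyC)
    have hvy : v ≠ y := h1.ne'
    right
    rw [swap_apply_of_ne_of_ne hvx hvy]
    exact ⟨h1, fun h3 => h2 h3.2⟩

theorem SwpH.cut_x (h : SwpH G Q C L x y z) {v : V} (hv : (swp G Q x y).Adj x v) :
    IsCut (swp G Q x y) x v := by
  rw [h.adj_x] at hv
  obtain ⟨K, hK, hvK, h3⟩ := h.cutset h.hy hv.2 hv.1
  refine ⟨K, fun h1 => h.hxC (hK h1).1, hvK, ?_⟩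
  intro u v' huv hu hv'
  rcases h.enter hK huv hv' with ⟨rfl, h4⟩ | ⟨h4, h5, h6⟩
  · exact ⟨rfl, (h3 y v' h4 (fun h1 => (hK h1).2 h.hy) hv').2⟩
  · exact absurd (h3 u v' h6 hu hv').1 h5

theorem SwpH.inside_eq (h : SwpH G Q C L x y z) : inside (swp G Q x y) Q = inside G Q := by
  ext a b
  rw [inside_adj, inside_adj]
  constructor
  · rintro ⟨h1, h2, h3⟩
    exact ⟨(h.w.adj_in h2 h3).1 h1, h2, h3⟩
  · rintro ⟨h1, h2, h3⟩
    exact ⟨(h.w.adj_in h2 h3).2 h1, h2, h3⟩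

theorem SwpH.piece' (h : SwpH G Q C L x y z) : Piece (swp G Q x y) Q := by
  refine ⟨?_, ?_, ?_, ?_⟩
  · rw [h.inside_eq]
    exact h.piece.nonplanar
  · rw [h.inside_eq]
    exact h.piece.conn
  · intro a ha b hb hab
    have hbx : b ≠ x := by
      rintro rfl
      exact h.w.swp.hxQ a ha hab.symm
    have hby : b ≠ y := fun h1 => hb (h1 ▸ h.hy)
    rw [SwW.adj_out hb hbx hby] at hab
    by_cases hay : a = y
    · subst hay
      rw [swap_apply_right, h.hxz] at hab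
      rw [hab]
      exact h.cut_yz
    · have hax : a ≠ x := fun h1 => h.w.hx (h1 ▸ ha)
      rw [swap_apply_of_ne_of_ne hax hay] at hab
      obtain ⟨K, hK, hbK, h3⟩ := h.cutset ha hb hab
      refine ⟨K, fun h1 => (hK h1).2 ha, hbK, ?_⟩
      intro u v huv hu hv
      rcases h.enter hK huv hv with ⟨rfl, h4⟩ | ⟨h4, h5, h6⟩
      · exact absurd (h3 y v h4 (fun h1 => (hK h1).2 h.hy) hv).1.symm hay
      · exact h3 u v h6 hu hv
  · intro a b hab
    rw [h.inside_eq] at hab ⊢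
    exact h.piece.bridgeless a b hab

theorem SwpH.emb [Finite V] (h : SwpH G Q C L x y z) {g : ℕ} (hG : Emb g G) :
    Emb g (swp G Q x y) := by
  let H : SimpleGraph V :=
    { Adj := fun a b => (swp G Q x y).Adj a b ∧ a ≠ x ∧ b ≠ x ∧ ¬ (a = y ∧ b = z) ∧
        ¬ (a = z ∧ b = y)
      symm := ⟨fun a b h1 => ⟨h1.1.symm, h1.2.2.1, h1.2.1, fun h2 => h1.2.2.2.2 ⟨h2.2, h2.1⟩,
        fun h2 => h1.2.2.2.1 ⟨h2.2, h2.1⟩⟩⟩
      loopless := ⟨fun a h1 => h1.1.ne rfl⟩ }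
  have hH : ∀ a b, H.Adj a b ↔ ((swp G Q x y).Adj a b ∧ a ≠ x ∧ b ≠ x ∧ ¬ (a = y ∧ b = z) ∧
        ¬ (a = z ∧ b = y)) := fun a b => Iff.rfl
  apply Emb.of_cut (H := H)
  · intro a b hab
    exact hab.1
  · apply hG.mono_graph
    intro a b hab
    rw [hH, swp_adj] at hab
    obtain ⟨h1, hax, hbx, h2, h3⟩ := hab
    rcases h1 with h1 | ⟨h1, _⟩
    · exact h1.1
    · by_cases hay : a = y
      · subst hay
        by_cases hby : b = a
        · subst hby
          exact absurd rfl h1.ne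
        · rw [swap_apply_right, swap_apply_of_ne_of_ne hbx hby, h.hxz] at h1
          exact absurd ⟨rfl, h1⟩ h2
      · by_cases hby : b = y
        · subst hby
          rw [swap_apply_right, swap_apply_of_ne_of_ne hax hay, adj_comm, h.hxz] at h1
          exact absurd ⟨h1, rfl⟩ h3
        · rwa [swap_apply_of_ne_of_ne hax hay, swap_apply_of_ne_of_ne hbx hby] at h1
  · intro u v huv hn
    rw [hH] at hn
    by_cases hux : u = x
    · subst hux
      exact Or.inl (h.cut_x huv)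
    by_cases hvx : v = x
    · subst hvx
      exact Or.inr (h.cut_x huv.symm)
    by_cases h1 : u = y ∧ v = z
    · rw [h1.1, h1.2]
      exact Or.inl h.cut_yz
    by_cases h2 : u = z ∧ v = y
    · rw [h2.1, h2.2]
      exact Or.inr h.cut_yz
    exact absurd ⟨huv, hux, hvx, h1, h2⟩ hn

/-- the component of `x` in the swapped graph is inside `{x} ∪ C` -/
theorem SwpH.comp (h : SwpH G Q C L x y z) {v : V} (hv : (swp G Q x y).Reachable x v) :
    v ∈ insert x C := by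
  let T : Set V := {v | v = x ∨ ∃ K ⊆ C \ Q, v ∈ K ∧ ∃ b, b ∉ Q ∧
    ∀ u v, G.Adj u v → u ∉ K → v ∈ K → (u = y ∧ v = b)}
  have hcl : Closed (swp G Q x y) T := by
    intro a b hab ha
    rcases ha with rfl | ⟨K, hK, haK, b', hb', h3⟩
    · rw [h.adj_x] at hab
      obtain ⟨K, hK, hvK, h3⟩ := h.cutset h.hy hab.2 hab.1
      exact Or.inr ⟨K, hK, hvK, b, hab.2, h3⟩
    · by_cases hbK : b ∈ K
      · exact Or.inr ⟨K, hK, hbK, b', hb', h3⟩
      · rcases h.enter hK hab.symm haK with ⟨rfl, h4⟩ | ⟨h4, h5, h6⟩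
        · exact Or.inl rfl
        · exact absurd (h3 b a h6 hbK haK).1 h5
  have h1 := hcl.reach hv (Or.inl rfl)
  rcases h1 with rfl | ⟨K, hK, hvK, _⟩
  · exact Set.mem_insert _ _
  · exact Set.mem_insert_of_mem _ (hK hvK).1

end Pool.Agent.Helper98.Gn
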